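import Pool.Agent.K1H11.NS6.ShiftSol

/-!
# Smoothing
-/

open MeasureTheory Set Filter Topology
open scoped ENNReal NNReal

namespace Pool.Agent.K1H11.NS

/-- the weight -/
noncomputable def gE (μ R : ℝ) (k : K) (t : ℝ) : ℝ := Real.exp (min (μ * t * nk k) R)

lemma gE_pos (μ R : ℝ) (k : K) (t : ℝ) : 0 < gE μ R k t := Real.exp_pos _

lemma gE_le (μ R : ℝ) (k : K) (t : ℝ) : gE μ R k t ≤ Real.exp R := Real.exp_le_exp.2 (min_le_right _ _)

lemma gE_cont (μ R : ℝ) (k : K) : Continuous (gE μ R k) := by unfold gE; fun_prop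

lemma min_add_le' {a b R : ℝ} (ha : 0 ≤ a) (hb : 0 ≤ b) (hR : 0 ≤ R) : min (a + b) R ≤ min a R + min b R := by
  rcases le_total a R with h1 | h1
  · rcases le_total b R with h2 | h2
    · rw [min_eq_left h1, min_eq_left h2]; exact min_le_left _ _
    · rw [min_eq_left h1, min_eq_right h2]; exact (min_le_right _ _).trans (by linarith)
  · rw [min_eq_right h1]
    have : 0 ≤ min b R := le_min hb hR
    exact (min_le_right _ _).trans (by linarith)

lemma min_le_min' {a b R : ℝ} (h : a ≤ b) : min a R ≤ min b R := min_le_min h le_rfl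

lemma gE_mul {μ R t : ℝ} (hμ : 0 ≤ μ) (hR : 0 ≤ R) (ht : 0 ≤ t) (k l : K) :
    gE μ R k t ≤ gE μ R l t * gE μ R (k - l) t := by
  unfold gE
  rw [← Real.exp_add]
  apply Real.exp_le_exp.2
  have hn := nk_add l (k - l)
  rw [add_sub_cancel] at hn
  have h0 : 0 ≤ μ * t := mul_nonneg hμ ht
  refine (min_le_min' (mul_le_mul_of_nonneg_left hn h0)).trans ?_
  rw [mul_add]
  exact min_add_le' (mul_nonneg h0 (nk_nonneg _)) (mul_nonneg h0 (nk_nonneg _)) hR

lemma nk_le_sq (k : K) : nk k ≤ sq k := by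
  by_cases hk : k = 0
  · subst hk; rw [nk_zero, sq_zero]
  · rw [← nk_mul_self]
    have := one_le_nk hk
    nlinarith

lemma gE_step {c R s t : ℝ} (hc : 0 ≤ c) (hst : s ≤ t) (k : K) :
    gE (c / 2) R k t * Real.exp (-(c * sq k * (t - s))) ≤ gE (c / 2) R k s * Real.exp (-(c / 2 * sq k * (t - s))) := by
  unfold gE
  rw [← Real.exp_add, ← Real.exp_add]
  apply Real.exp_le_exp.2
  have h1 := nk_le_sq k
  have h2 : c / 2 * t * nk k = c / 2 * s * nk k + c / 2 * (t - s) * nk k := by ring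
  have h3 : 0 ≤ c / 2 * (t - s) := by
    have : 0 ≤ t - s := by linarith
    positivity
  have h4 : c / 2 * (t - s) * nk k ≤ c / 2 * (t - s) * sq k := mul_le_mul_of_nonneg_left h1 h3
  have h5 : 0 ≤ c / 2 * (t - s) * nk k := mul_nonneg h3 (nk_nonneg k)
  have h6 : min (c / 2 * t * nk k) R ≤ min (c / 2 * s * nk k) R + c / 2 * (t - s) * nk k := by
    rw [h2]
    rcases le_total (c / 2 * s * nk k) R with h | h
    · rw [min_eq_left h]; exact min_le_left _ _
    · rw [min_eq_right h]; exact (min_le_right _ _).trans (by linarith)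
  have h7 : c / 2 * (t - s) * sq k - c * sq k * (t - s) = -(c / 2 * sq k * (t - s)) := by ring
  linarith

/-- the weighted norm -/
noncomputable def Gv (μ R t0 : ℝ) (u : Fam) (t : ℝ) : ℝ := ∑' k, gE μ R k (t - t0) * ‖u k t‖

section
variable {c T R : ℝ} {u : Fam}

lemma Gv_summ (hud : Dom u) (μ R t0 t : ℝ) : Summable fun k => gE μ R k (t - t0) * ‖u k t‖ := by
  have hs : Summable fun k => ‖u k t‖ := hud.sn t
  exact (hs.mul_left (Real.exp R)).of_nonneg_of_le (fun k => mul_nonneg (gE_pos _ _ _ _).le (norm_nonneg _))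
    fun k => mul_le_mul_of_nonneg_right (gE_le _ _ _ _) (norm_nonneg _)

lemma Gv_nonneg (μ R t0 t : ℝ) : 0 ≤ Gv μ R t0 u t :=
  tsum_nonneg fun _ => mul_nonneg (gE_pos _ _ _ _).le (norm_nonneg _)

lemma Gv_eq (hud : Dom u) (μ R t0 t : ℝ) :
    ∑' k, ENNReal.ofReal (gE μ R k (t - t0)) * ‖u k t‖ₑ = ENNReal.ofReal (Gv μ R t0 u t) := by
  unfold Gv
  rw [ENNReal.ofReal_tsum_of_nonneg (fun _ => mul_nonneg (gE_pos _ _ _ _).le (norm_nonneg _))
    (Gv_summ hud μ R t0 t)]
  refine tsum_congr fun k => ?_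
  rw [ENNReal.ofReal_mul (gE_pos _ _ _ _).le, ofReal_norm]

lemma Gv_cont (hu : CF u) (hud : Dom u) (μ R t0 : ℝ) : Continuous (Gv μ R t0 u) := by
  obtain ⟨b, hb, hb'⟩ := hud
  unfold Gv
  refine continuous_tsum (fun k => ?_) (hb.mul_left (Real.exp R)) fun k t => ?_
  · exact ((gE_cont μ R k).comp (by fun_prop : Continuous fun t : ℝ => t - t0)).mul (hu k).norm
  · rw [Real.norm_of_nonneg (mul_nonneg (gE_pos _ _ _ _).le (norm_nonneg _))]
    exact mul_le_mul (gE_le _ _ _ _) (hb' k t) (norm_nonneg _) (Real.exp_pos _).le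

lemma Gv_le (hc : 0 < c) (hR : 0 ≤ R) (hu : CF u) (hud : Dom u) (h : DS c T u)
    {t0 t : ℝ} (h0 : 0 ≤ t0) (ht : t0 ≤ t) (hT : t ≤ T) {β : ℝ} (hβ0 : 0 ≤ β)
    (hβ : ∀ s ∈ Ioo t0 t, Gv (c / 2) R t0 u s ≤ β) :
    ENNReal.ofReal (Gv (c / 2) R t0 u t) ≤ ENNReal.ofReal (An u t0) +
      ENNReal.ofReal (C0 * (β * β)) * KI (c / 2) (t - t0) := by
  have hBu := Bt_cont hu hud
  have hC := C0_pos
  have hc2 : 0 < c / 2 := by positivity
  rw [← Gv_eq hud]
  have h1 : ∀ k, ENNReal.ofReal (gE (c / 2) R k (t - t0)) * ‖u k t‖ₑ ≤ ‖u k t0‖ₑ + ∫⁻ s in Ioc t0 t,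
      ENNReal.ofReal (gE (c / 2) R k (s - t0) * Real.exp (-(c / 2 * sq k * (t - s)))) * ‖Bt u k s‖ₑ := by
    intro k
    have e := h k t0 t h0 ht hT
    have q1 : ENNReal.ofReal (gE (c / 2) R k (t - t0)) * ‖Real.exp (-(c * sq k * (t - t0))) • u k t0‖ₑ ≤ ‖u k t0‖ₑ := by
      rw [enorm_smul, ← mul_assoc, ← ofReal_norm (Real.exp _), Real.norm_of_nonneg (Real.exp_pos _).le,
        ← ENNReal.ofReal_mul (gE_pos _ _ _ _).le]
      calc _ ≤ 1 * ‖u k t0‖ₑ := by
            apply mul_le_mul' _ le_rfl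
            rw [ENNReal.ofReal_le_one]
            have g1 := gE_step (R := R) hc.le (show (0 : ℝ) ≤ t - t0 by linarith) k
            rw [sub_zero] at g1
            refine g1.trans ?_
            have g2 : gE (c / 2) R k 0 ≤ 1 := by
              unfold gE
              rw [Real.exp_le_one_iff]
              refine (min_le_left _ _).trans ?_
              simp
            have g3 : Real.exp (-(c / 2 * sq k * (t - t0))) ≤ 1 := by
              rw [Real.exp_le_one_iff]
              have : 0 ≤ c / 2 * sq k * (t - t0) := mul_nonneg (mul_nonneg hc2.le (sq_nonneg' k)) (by linarith)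
              linarith
            calc _ ≤ 1 * 1 := mul_le_mul g2 g3 (Real.exp_pos _).le zero_le_one
              _ = 1 := one_mul _
        _ = _ := one_mul _
    have q2 : ENNReal.ofReal (gE (c / 2) R k (t - t0)) *
        ‖∫ s in t0..t, Real.exp (-(c * sq k * (t - s))) • Bt u k s‖ₑ ≤ ∫⁻ s in Ioc t0 t,
      ENNReal.ofReal (gE (c / 2) R k (s - t0) * Real.exp (-(c / 2 * sq k * (t - s)))) * ‖Bt u k s‖ₑ := by
      rw [intervalIntegral.integral_of_le ht]
      have mm : Measurable fun s => ‖Real.exp (-(c * sq k * (t - s))) • Bt u k s‖ₑ := by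
        have := hBu k
        exact (by fun_prop : Continuous fun s => Real.exp (-(c * sq k * (t - s))) • Bt u k s).enorm.measurable
      refine (mul_le_mul' le_rfl (enorm_integral_le_lintegral_enorm _)).trans ?_
      rw [← lintegral_const_mul _ mm]
      refine setLIntegral_mono' measurableSet_Ioc fun s hs => ?_
      rw [enorm_smul, ← mul_assoc, ← ofReal_norm (Real.exp _), Real.norm_of_nonneg (Real.exp_pos _).le,
        ← ENNReal.ofReal_mul (gE_pos _ _ _ _).le]
      apply mul_le_mul' _ le_rfl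
      apply ENNReal.ofReal_le_ofReal
      have g1 := gE_step (R := R) hc.le (show s - t0 ≤ t - t0 by linarith [hs.2]) k
      rw [show t - t0 - (s - t0) = t - s by ring] at g1
      exact g1
    rw [e]
    refine (mul_le_mul' le_rfl (enorm_add_le _ _)).trans ?_
    rw [mul_add]
    exact add_le_add q1 q2
  have hm : ∀ k, Measurable fun s =>
      ENNReal.ofReal (gE (c / 2) R k (s - t0) * Real.exp (-(c / 2 * sq k * (t - s)))) * ‖Bt u k s‖ₑ := by
    intro k
    have hcont : Continuous fun s => gE (c / 2) R k (s - t0) * Real.exp (-(c / 2 * sq k * (t - s))) := by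
      unfold gE; fun_prop
    exact (ENNReal.measurable_ofReal.comp hcont.measurable).mul (hBu k).enorm.measurable
  calc ∑' k, ENNReal.ofReal (gE (c / 2) R k (t - t0)) * ‖u k t‖ₑ
      ≤ ∑' k, (‖u k t0‖ₑ + ∫⁻ s in Ioc t0 t,
        ENNReal.ofReal (gE (c / 2) R k (s - t0) * Real.exp (-(c / 2 * sq k * (t - s)))) * ‖Bt u k s‖ₑ) :=
        ENNReal.tsum_le_tsum h1
    _ = ENNReal.ofReal (An u t0) + ∫⁻ s in Ioc t0 t,
        ∑' k, ENNReal.ofReal (gE (c / 2) R k (s - t0) * Real.exp (-(c / 2 * sq k * (t - s)))) * ‖Bt u k s‖ₑ := by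
        rw [ENNReal.tsum_add, An_eq hud, lintegral_tsum fun k => (hm k).aemeasurable]
    _ ≤ ENNReal.ofReal (An u t0) +
        ∫⁻ s in Ioo t0 t, ENNReal.ofReal (C0 * (β * β)) * ENNReal.ofReal (kap (c / 2) (t - s)) := by
        apply add_le_add le_rfl
        rw [setLIntegral_congr Ioo_ae_eq_Ioc.symm]
        refine setLIntegral_mono' measurableSet_Ioo fun s hs => ?_
        have hts : 0 < t - s := by linarith [hs.2]
        have hk0 := kap_nonneg hc2 hts.le
        set gg : K → ℝ≥0∞ := fun l => ENNReal.ofReal (gE (c / 2) R l (s - t0)) * ‖u l s‖ₑ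
        have h2 : ∀ k, ENNReal.ofReal (gE (c / 2) R k (s - t0) * Real.exp (-(c / 2 * sq k * (t - s)))) * ‖Bt u k s‖ₑ
            ≤ ENNReal.ofReal (C0 * kap (c / 2) (t - s)) * (∑' l, gg l * gg (k - l)) := by
          intro k
          have h3 : ‖Bt u k s‖ₑ ≤ ENNReal.ofReal (C0 * nk k) * (∑' l, ‖u l s‖ₑ * ‖u (k - l) s‖ₑ) :=
            enorm_Bf_le _ _ k
          have h4 : ENNReal.ofReal (gE (c / 2) R k (s - t0)) * (∑' l, ‖u l s‖ₑ * ‖u (k - l) s‖ₑ) ≤
              ∑' l, gg l * gg (k - l) := by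
            rw [← ENNReal.tsum_mul_left]
            refine ENNReal.tsum_le_tsum fun l => ?_
            have h5 := gE_mul hc2.le hR (show 0 ≤ s - t0 by linarith [hs.1]) k l
            calc _ ≤ ENNReal.ofReal (gE (c / 2) R l (s - t0) * gE (c / 2) R (k - l) (s - t0)) *
                  (‖u l s‖ₑ * ‖u (k - l) s‖ₑ) := mul_le_mul' (ENNReal.ofReal_le_ofReal h5) le_rfl
              _ = gg l * gg (k - l) := by
                  rw [ENNReal.ofReal_mul (gE_pos _ _ _ _).le]
                  simp only [gg]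
                  ring
          calc _ ≤ ENNReal.ofReal (gE (c / 2) R k (s - t0) * Real.exp (-(c / 2 * sq k * (t - s)))) *
                (ENNReal.ofReal (C0 * nk k) * (∑' l, ‖u l s‖ₑ * ‖u (k - l) s‖ₑ)) := mul_le_mul' le_rfl h3
            _ = ENNReal.ofReal (Real.exp (-(c / 2 * sq k * (t - s))) * (C0 * nk k)) *
                (ENNReal.ofReal (gE (c / 2) R k (s - t0)) * (∑' l, ‖u l s‖ₑ * ‖u (k - l) s‖ₑ)) := by
                rw [ENNReal.ofReal_mul (gE_pos _ _ _ _).le, ENNReal.ofReal_mul (Real.exp_pos _).le]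
                ring
            _ ≤ _ := by
                refine mul_le_mul' (ENNReal.ofReal_le_ofReal ?_) h4
                by_cases hk : k = 0
                · subst hk
                  rw [nk_zero]
                  simp only [mul_zero]; positivity
                · have := nk_exp_le hc2 hk hts
                  nlinarith
        calc ∑' k, ENNReal.ofReal (gE (c / 2) R k (s - t0) * Real.exp (-(c / 2 * sq k * (t - s)))) * ‖Bt u k s‖ₑ
            ≤ ∑' k, ENNReal.ofReal (C0 * kap (c / 2) (t - s)) * (∑' l, gg l * gg (k - l)) :=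
              ENNReal.tsum_le_tsum h2
          _ = ENNReal.ofReal (C0 * kap (c / 2) (t - s)) *
              (ENNReal.ofReal (Gv (c / 2) R t0 u s) * ENNReal.ofReal (Gv (c / 2) R t0 u s)) := by
              rw [ENNReal.tsum_mul_left, tsum_conv_eq' gg gg]
              simp only [gg]
              rw [Gv_eq hud]
          _ = ENNReal.ofReal (C0 * kap (c / 2) (t - s)) *
              ENNReal.ofReal (Gv (c / 2) R t0 u s * Gv (c / 2) R t0 u s) := by
              rw [← ENNReal.ofReal_mul (Gv_nonneg _ _ _ _)]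
          _ ≤ ENNReal.ofReal (C0 * kap (c / 2) (t - s)) * ENNReal.ofReal (β * β) := by
              apply mul_le_mul' le_rfl
              apply ENNReal.ofReal_le_ofReal
              exact mul_le_mul (hβ s hs) (hβ s hs) (Gv_nonneg _ _ _ _) hβ0
          _ = _ := by
              rw [← ENNReal.ofReal_mul (by positivity), ← ENNReal.ofReal_mul (by positivity)]
              congr 1; ring
    _ ≤ ENNReal.ofReal (An u t0) + ENNReal.ofReal (C0 * (β * β)) * KI (c / 2) (t - t0) := by
        apply add_le_add le_rfl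
        have hmk : Measurable fun s => ENNReal.ofReal (kap (c / 2) (t - s)) := by
          unfold kap; fun_prop
        rw [lintegral_const_mul _ hmk]
        apply mul_le_mul' le_rfl
        have hsub : ∫⁻ s in Ioo t0 t, ENNReal.ofReal (kap (c / 2) (t - s))
            = ∫⁻ s, (Ioo (0 : ℝ) (t - t0)).indicator (fun τ => ENNReal.ofReal (kap (c / 2) τ)) (t - s) := by
          rw [← lintegral_indicator measurableSet_Ioo]
          refine lintegral_congr fun s => ?_
          by_cases hs : s ∈ Ioo t0 t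
          · rw [indicator_of_mem hs, indicator_of_mem (show t - s ∈ Ioo (0 : ℝ) (t - t0) from
              ⟨by linarith [hs.2], by linarith [hs.1]⟩)]
          · rw [indicator_of_notMem hs, indicator_of_notMem]
            intro h4
            exact hs ⟨by linarith [h4.2], by linarith [h4.1]⟩
        rw [hsub, lintegral_sub_left_eq_self (fun τ => (Ioo (0 : ℝ) (t - t0)).indicator
          (fun τ => ENNReal.ofReal (kap (c / 2) τ)) τ) t, lintegral_indicator measurableSet_Ioo]
        exact lintegral_mono_set Ioo_subset_Ioc_self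

lemma Gv_short (hc : 0 < c) (hR : 0 ≤ R) (hu : CF u) (hud : Dom u) (h : DS c T u) {M hh : ℝ} (hM : 0 < M)
    (hK : ENNReal.ofReal (C0 * (4 * M)) * KI (c / 2) hh < 1) {t0 : ℝ} (h0 : 0 ≤ t0) (hA : An u t0 ≤ M)
    {t : ℝ} (ht : t0 ≤ t) (ht1 : t ≤ t0 + hh) (hT : t ≤ T) : Gv (c / 2) R t0 u t ≤ 2 * M := by
  by_contra hcon
  push Not at hcon
  have hC := C0_pos
  have hcont := Gv_cont hu hud (c / 2) R t0
  have hcomp : IsCompact (Icc t0 t ∩ Gv (c / 2) R t0 u ⁻¹' Ici (2 * M)) :=
    isCompact_Icc.inter_right (isClosed_Ici.preimage hcont)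
  obtain ⟨τ, hτ, hmin⟩ := hcomp.exists_isLeast ⟨t, ⟨ht, le_rfl⟩, hcon.le⟩
  have hβ : ∀ s ∈ Ioo t0 τ, Gv (c / 2) R t0 u s ≤ 2 * M := by
    intro s hs'
    by_contra h2
    push Not at h2
    have := hmin ⟨⟨hs'.1.le, hs'.2.le.trans hτ.1.2⟩, h2.le⟩
    linarith [hs'.2]
  have h1 := Gv_le hc hR hu hud h h0 hτ.1.1 (hτ.1.2.trans hT) (β := 2 * M) (by positivity) hβ
  have h2 : 2 * M ≤ Gv (c / 2) R t0 u τ := hτ.2
  have h3 : ENNReal.ofReal (C0 * (2 * M * (2 * M))) * KI (c / 2) (τ - t0) < ENNReal.ofReal M := by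
    have e1 : ENNReal.ofReal (C0 * (2 * M * (2 * M))) = ENNReal.ofReal M * ENNReal.ofReal (C0 * (4 * M)) := by
      rw [← ENNReal.ofReal_mul hM.le]; congr 1; ring
    rw [e1, mul_assoc]
    calc _ ≤ ENNReal.ofReal M * (ENNReal.ofReal (C0 * (4 * M)) * KI (c / 2) hh) := by
          apply mul_le_mul' le_rfl
          apply mul_le_mul' le_rfl
          apply KI_mono
          linarith [hτ.1.2]
      _ < ENNReal.ofReal M * 1 := by
          apply ENNReal.mul_lt_mul_right _ ENNReal.ofReal_ne_top hK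
          simpa using hM
      _ = _ := mul_one _
  have h4 : ENNReal.ofReal (2 * M) < ENNReal.ofReal (2 * M) := by
    calc ENNReal.ofReal (2 * M) ≤ ENNReal.ofReal (Gv (c / 2) R t0 u τ) := ENNReal.ofReal_le_ofReal h2
      _ ≤ _ := h1
      _ < ENNReal.ofReal (An u t0) + ENNReal.ofReal M :=
          ENNReal.add_lt_add_left ENNReal.ofReal_ne_top h3
      _ ≤ ENNReal.ofReal M + ENNReal.ofReal M := add_le_add (ENNReal.ofReal_le_ofReal hA) le_rfl
      _ = _ := by rw [← ENNReal.ofReal_add hM.le hM.le]; congr 1; ring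
  exact lt_irrefl _ h4

end

/-- Smoothing: exponential decay of the Fourier coefficients after a time which only depends on the norm. -/
theorem smoothing {c : ℝ} (hc : 0 < c) {M b : ℝ} (hM : 0 < M) (hb : 0 < b) :
    ∃ hh : ℝ, 0 < hh ∧ hh ≤ b ∧ ∀ (T : ℝ) (u : Fam), CF u → Dom u → DS c T u → ∀ t0, 0 ≤ t0 → t0 + hh ≤ T →
      An u t0 ≤ M → ∀ k, ‖u k (t0 + hh)‖ ≤ 2 * M * Real.exp (-(c / 2 * hh * nk k)) := by
  have hC := C0_pos
  have h1 : (0 : ℝ≥0∞) < 1 / ENNReal.ofReal (C0 * (4 * M)) := ENNReal.div_pos (by simp) ENNReal.ofReal_ne_top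
  obtain ⟨hh, a1, a2, a3⟩ := KI_small (show 0 < c / 2 by positivity) h1 hb
  have hK : ENNReal.ofReal (C0 * (4 * M)) * KI (c / 2) hh < 1 := by
    rw [mul_comm]
    exact (ENNReal.lt_div_iff_mul_lt (Or.inl (by
      simp only [ne_eq, ENNReal.ofReal_eq_zero, not_le]; positivity)) (Or.inl ENNReal.ofReal_ne_top)).1 a3
  refine ⟨hh, a1, a2, fun T u hu hud huD t0 h0 hT hA k => ?_⟩
  set R := c / 2 * hh * nk k with hRdef
  have hR : 0 ≤ R := mul_nonneg (by positivity) (nk_nonneg k)
  have h2 := Gv_short hc hR hu hud huD hM hK h0 hA (show t0 ≤ t0 + hh by linarith) le_rfl hT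
  have h3 : gE (c / 2) R k (t0 + hh - t0) * ‖u k (t0 + hh)‖ ≤ Gv (c / 2) R t0 u (t0 + hh) :=
    (Gv_summ hud (c / 2) R t0 (t0 + hh)).le_tsum k fun _ _ => mul_nonneg (gE_pos _ _ _ _).le (norm_nonneg _)
  have h4 : gE (c / 2) R k (t0 + hh - t0) = Real.exp R := by
    unfold gE
    rw [add_sub_cancel_left, ← hRdef, min_self]
  rw [h4] at h3
  have h5 := h3.trans h2
  rw [Real.exp_neg, ← div_eq_mul_inv, le_div_iff₀ (Real.exp_pos _)]
  linarith

end Pool.Agent.K1H11.NS
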