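import Pool.Agent.K1H11.NS6.Win
import Pool.Agent.K1H11.NS6.Gevrey

/-!
# Pointwise bounds from bounds on dyadic windows
-/

open MeasureTheory Set Filter Topology
open scoped ENNReal NNReal

namespace Pool.Agent.K1H11.NS

lemma KI_le {c h : ℝ} (hc : 0 < c) (hh : 0 ≤ h) : KI c h ≤ ENNReal.ofReal (2 * Real.sqrt (h / c)) := by
  have hi : IntervalIntegrable (fun τ : ℝ => c ^ (-(1 / 2 : ℝ)) * τ ^ (-(1 / 2 : ℝ))) volume 0 h :=
    (intervalIntegral.intervalIntegrable_rpow' (by norm_num)).const_mul _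
  have h1 : KI c h ≤ ∫⁻ τ in Ioc 0 h, ENNReal.ofReal (c ^ (-(1 / 2 : ℝ)) * τ ^ (-(1 / 2 : ℝ))) := by
    unfold KI
    refine setLIntegral_mono' measurableSet_Ioc fun τ hτ => ENNReal.ofReal_le_ofReal ?_
    have hτ0 : 0 < τ := hτ.1
    unfold kap
    rw [Real.mul_rpow hc.le hτ0.le]
    apply mul_le_of_le_one_right (by positivity)
    rw [Real.exp_le_one_iff]
    have : 0 ≤ c / 2 * τ := by positivity
    linarith
  refine h1.trans ?_
  rw [← ofReal_integral_eq_lintegral_ofReal hi.1 ((ae_restrict_iff' measurableSet_Ioc).2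
    (Filter.Eventually.of_forall fun τ hτ => by
      have : 0 < τ := hτ.1
      positivity))]
  apply ENNReal.ofReal_le_ofReal
  rw [← intervalIntegral.integral_of_le hh, intervalIntegral.integral_const_mul,
    integral_rpow (Or.inl (by norm_num))]
  have e1 : (-(1 / 2 : ℝ)) + 1 = 1 / 2 := by norm_num
  rw [e1, Real.zero_rpow (by norm_num), sub_zero, Real.sqrt_div hh, Real.sqrt_eq_rpow, Real.sqrt_eq_rpow,
    Real.rpow_neg hc.le]
  apply le_of_eq
  field_simp

/-- A small norm on the window `(t/2, t)` gives a small norm at the time `t`. -/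
lemma win_An {c : ℝ} (hc : 0 < c) : ∃ θ : ℝ, 0 < θ ∧ ∀ (u : Fam), CF u → Dom u → (∀ T, DS c T u) →
    ∀ t lam : ℝ, 0 < t → 0 < lam → lam ≤ θ → LW t u ≤ ENNReal.ofReal lam → Real.sqrt t * An u t ≤ 4 * lam := by
  have hC := C0_pos
  have hsc : 0 < Real.sqrt c := Real.sqrt_pos.2 hc
  refine ⟨Real.sqrt c / (32 * C0), by positivity, fun u hu hud hD t lam ht hl hlθ hLW => ?_⟩
  have hst : 0 < Real.sqrt t := Real.sqrt_pos.2 ht
  have hst2 : Real.sqrt t ^ 2 = t := Real.sq_sqrt ht.le
  set M := 2 * lam / Real.sqrt t with hM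
  have hM0 : 0 < M := by positivity
  obtain ⟨s, hs, hA⟩ : ∃ s ∈ Ioo (t / 2) t, An u s ≤ M := by
    by_contra hcon
    push Not at hcon
    have h2 : ENNReal.ofReal (2 * lam ^ 2) ≤
        ∫⁻ s in Ioi 0, ((Ioo (t / 2) t).indicator (fun s => NW (Wa Wt.one) (at' u s)) s) ^ (2 : ℝ) := by
      calc ENNReal.ofReal (2 * lam ^ 2) = ∫⁻ s in Ioo (t / 2) t, ENNReal.ofReal (M ^ 2) := by
            rw [setLIntegral_const, Real.volume_Ioo, ← ENNReal.ofReal_mul (by positivity)]
            congr 1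
            rw [hM, div_pow, hst2]; field_simp; ring
        _ ≤ ∫⁻ s in Ioo (t / 2) t, ((Ioo (t / 2) t).indicator (fun s => NW (Wa Wt.one) (at' u s)) s) ^ (2 : ℝ) := by
            refine setLIntegral_mono' measurableSet_Ioo fun s hs => ?_
            rw [indicator_of_mem hs, NW_Wa_zero]
            show _ ≤ (∑' k, ‖u k s‖ₑ) ^ (2 : ℝ)
            rw [An_eq hud, ENNReal.rpow_two, ← ENNReal.ofReal_pow (An_nonneg _ s)]
            apply ENNReal.ofReal_le_ofReal
            exact pow_le_pow_left₀ hM0.le (hcon s hs).le 2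
        _ ≤ _ := lintegral_mono_set fun s hs => by
            have := hs.1
            simp only [mem_Ioi]; linarith
    have h3 : ENNReal.ofReal (Real.sqrt 2 * lam) ≤ LW t u := by
      unfold LW LN
      calc ENNReal.ofReal (Real.sqrt 2 * lam) = (ENNReal.ofReal (2 * lam ^ 2)) ^ (1 / 2 : ℝ) := by
            rw [ENNReal.ofReal_rpow_of_nonneg (by positivity) (by norm_num), ← Real.sqrt_eq_rpow,
              Real.sqrt_mul (by norm_num), Real.sqrt_sq hl.le]
        _ ≤ _ := ENNReal.rpow_le_rpow h2 (by norm_num)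
    have h4 := h3.trans hLW
    rw [ENNReal.ofReal_le_ofReal_iff hl.le] at h4
    have h5 : (1 : ℝ) < Real.sqrt 2 := by
      rw [Real.lt_sqrt (by norm_num)]; norm_num
    nlinarith
  have hs0 : 0 ≤ s := by have := hs.1; linarith
  have hh0 : 0 ≤ t - s := by have := hs.2; linarith
  have hK : ENNReal.ofReal (C0 * (4 * M)) * KI (c / 2) (t - s) < 1 := by
    have h1 : KI (c / 2) (t - s) ≤ ENNReal.ofReal (2 * (Real.sqrt t / Real.sqrt c)) := by
      refine (KI_le (by positivity) hh0).trans (ENNReal.ofReal_le_ofReal ?_)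
      rw [← Real.sqrt_div ht.le]
      apply mul_le_mul_of_nonneg_left _ (by norm_num)
      apply Real.sqrt_le_sqrt
      rw [div_le_div_iff₀ (by positivity) hc]
      have := hs.1
      nlinarith
    calc _ ≤ ENNReal.ofReal (C0 * (4 * M)) * ENNReal.ofReal (2 * (Real.sqrt t / Real.sqrt c)) :=
          mul_le_mul' le_rfl h1
      _ = ENNReal.ofReal (16 * C0 * lam / Real.sqrt c) := by
          rw [← ENNReal.ofReal_mul (by positivity)]
          congr 1
          rw [hM]; field_simp; ring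
      _ < 1 := by
          rw [ENNReal.ofReal_lt_one, div_lt_one hsc]
          rw [le_div_iff₀ (by positivity)] at hlθ
          nlinarith
  have h6 := Gv_short (R := 0) hc le_rfl hu hud (hD t) hM0 hK hs0 hA hs.2.le (by linarith : t ≤ s + (t - s)) le_rfl
  have h7 : Gv (c / 2) 0 s u t = An u t := by
    unfold Gv An
    refine tsum_congr fun k => ?_
    have : gE (c / 2) 0 k (t - s) = 1 := by
      unfold gE
      rw [min_eq_right, Real.exp_zero]
      exact mul_nonneg (by positivity) (nk_nonneg k)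
    rw [this, one_mul]
  rw [h7] at h6
  calc Real.sqrt t * An u t ≤ Real.sqrt t * (2 * M) := mul_le_mul_of_nonneg_left h6 hst.le
    _ = 4 * lam := by rw [hM]; field_simp; ring

end Pool.Agent.K1H11.NS
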