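import Pool.Agent.K1H11.NS6.Gevrey
import Pool.Agent.K1H11.NS5.Norms

/-!
# Limits of solutions
-/

open MeasureTheory Set Filter Topology
open scoped ENNReal NNReal

namespace Pool.Agent.K1H11.NS

open Pool.Agent.H356R3.NS (shellSum critNorm leiLin)

lemma An_add_le {x y : Fam} (hx : Dom x) (hy : Dom y) (t : ℝ) : An (x + y) t ≤ An x t + An y t := by
  unfold An
  have s1 : Summable fun k => ‖x k t‖ := hx.sn t
  have s2 : Summable fun k => ‖y k t‖ := hy.sn t
  have s3 : Summable fun k => ‖(x + y) k t‖ := (hx.add hy).sn t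
  rw [← s1.tsum_add s2]
  exact s3.tsum_le_tsum (fun k => norm_add_le _ _) (s1.add s2)

lemma norm_le_An {x : Fam} (hx : Dom x) (k : K) (t : ℝ) : ‖x k t‖ ≤ An x t := by
  have s1 : Summable fun k => ‖x k t‖ := hx.sn t
  exact s1.le_tsum k fun _ _ => norm_nonneg _

lemma dt_cont (k : K) : Continuous (dt k) := by
  unfold dt
  fun_prop

lemma RR_exp {C γ : ℝ} (hC : 0 ≤ C) (hγ : 0 < γ) : RR fun k => C * Real.exp (-(γ * nk k)) := by
  intro m
  set D : ℝ := (Nat.factorial (m + 6) : ℝ) * (3 / γ) ^ (m + 6) + 1 with hD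
  have hD0 : 0 < D := by positivity
  refine (summ_pw.mul_left (C * D)).of_nonneg_of_le (fun k => by
    have := pw_pos k; positivity) fun k => ?_
  have hp := pw_pos k
  have key : pw k ^ (m + 6) * Real.exp (-(γ * nk k)) ≤ D := by
    by_cases hk : k = 0
    · subst hk
      have e : pw (0 : K) = 1 := by simp [pw, l1]
      rw [e, nk_zero, one_pow, mul_zero, neg_zero, Real.exp_zero, mul_one]
      have : 0 ≤ (Nat.factorial (m + 6) : ℝ) * (3 / γ) ^ (m + 6) := by positivity
      linarith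
    · have hn := one_le_nk hk
      have h2 : pw k ≤ 3 * nk k := by
        have := l1_le_nk k
        unfold pw; linarith
      have h3 : (γ * nk k) ^ (m + 6) / (Nat.factorial (m + 6) : ℝ) ≤ Real.exp (γ * nk k) :=
        Real.pow_div_factorial_le_exp _ (by positivity) _
      have hf : (0 : ℝ) < (Nat.factorial (m + 6) : ℝ) := by exact_mod_cast Nat.factorial_pos _
      rw [div_le_iff₀ hf] at h3
      have h4 : pw k ^ (m + 6) ≤ (3 / γ) ^ (m + 6) * (γ * nk k) ^ (m + 6) := by
        rw [← mul_pow]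
        apply pow_le_pow_left₀ hp.le
        calc pw k ≤ 3 * nk k := h2
          _ = 3 / γ * (γ * nk k) := by field_simp
      have he : 0 < Real.exp (γ * nk k) := Real.exp_pos _
      rw [Real.exp_neg, ← div_eq_mul_inv, div_le_iff₀ he]
      calc pw k ^ (m + 6) ≤ (3 / γ) ^ (m + 6) * (γ * nk k) ^ (m + 6) := h4
        _ ≤ (3 / γ) ^ (m + 6) * (Real.exp (γ * nk k) * (Nat.factorial (m + 6) : ℝ)) := by gcongr
        _ ≤ D * Real.exp (γ * nk k) := by
            rw [hD]
            nlinarith [he]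
  rw [mul_one_div, le_div_iff₀ (by positivity)]
  calc pw k ^ m * (C * Real.exp (-(γ * nk k))) * pw k ^ 6 = C * (pw k ^ (m + 6) * Real.exp (-(γ * nk k))) := by
        rw [pow_add]; ring
    _ ≤ C * D := mul_le_mul_of_nonneg_left key hC

/-- Solutions converge to their data. -/
lemma cont0 {c : ℝ} {a : Wt} (ha : Sup a) {V : K → C3} {u : Fam} (hu : Sol c a V u) {ρ : ℝ} (hρ : 0 < ρ) :
    ∃ d : ℝ, 0 < d ∧ ∀ t, 0 ≤ t → t ≤ d → leiLin (at' u t - V) ≤ ENNReal.ofReal ρ := by
  have hud := hu.dom' ha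
  have hV : ∀ k, u k 0 = V k := fun k => by
    rw [hu.eq k 0, Duh_at_zero]
    simp
  set v : Fam := fun k _ => V k
  have hvc : CF v := fun k => continuous_const
  have hvd : Dom v := by
    obtain ⟨b, hb, hb'⟩ := hud
    exact ⟨b, hb, fun k t => by show ‖V k‖ ≤ b k; rw [← hV]; exact hb' k 0⟩
  have hdc : CF (u - v) := fun k => (hu.cf k).sub (hvc k)
  have hcont := An_cont hdc (hud.sub hvd)
  have h0 : An (u - v) 0 = 0 := by
    unfold An
    have : ∀ k, ‖(u - v) k 0‖ = 0 := fun k => by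
      show ‖u k 0 - V k‖ = 0
      rw [hV, sub_self, norm_zero]
    simp only [this, tsum_zero]
  have h1 : ∀ᶠ t in 𝓝 (0 : ℝ), An (u - v) t < ρ :=
    (hcont.tendsto 0).eventually (gt_mem_nhds (by rw [h0]; exact hρ))
  obtain ⟨d, hd, hd'⟩ := Metric.eventually_nhds_iff.1 h1
  refine ⟨d / 2, by positivity, fun t h0t htd => ?_⟩
  have h2 : An (u - v) t < ρ := hd' (by rw [Real.dist_eq, sub_zero, abs_of_nonneg h0t]; linarith)
  have h3 : SN (at' u t - V) := (hud.sub hvd).sn t
  exact (LL_le_tsum h3).trans (ENNReal.ofReal_le_ofReal h2.le)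

section
variable {c : ℝ} {u : ℕ → Fam} {dl be : ℕ → ℝ}

lemma half_anti (h0 : ∀ n, 0 < dl n) (h : ∀ n, dl (n + 1) ≤ dl n / 2) : Antitone dl :=
  antitone_nat_of_succ_le fun n => by have := h n; have := h0 n; linarith

lemma half_le (h : ∀ n, dl (n + 1) ≤ dl n / 2) (n : ℕ) : dl n ≤ dl 0 * (1 / 2) ^ n := by
  induction n with
  | zero => simp
  | succ n ih =>
    have := h n
    rw [pow_succ]
    linarith

lemma half_tendsto (h0 : ∀ n, 0 < dl n) (h : ∀ n, dl (n + 1) ≤ dl n / 2) : Tendsto dl atTop (𝓝 0) := by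
  have h1 : Tendsto (fun n : ℕ => dl 0 * (1 / 2 : ℝ) ^ n) atTop (𝓝 0) := by
    have := (tendsto_pow_atTop_nhds_zero_of_lt_one (r := (1 / 2 : ℝ)) (by norm_num) (by norm_num)).const_mul (dl 0)
    rwa [mul_zero] at this
  exact squeeze_zero (fun n => (h0 n).le) (half_le h) h1

lemma An_tele (hd : ∀ n, Dom (u n)) (dl0 : ∀ n, 0 < dl n) (dlh : ∀ n, dl (n + 1) ≤ dl n / 2)
    (beh : ∀ n, be (n + 1) ≤ be n / 2) (hdiff : ∀ n t, dl (n + 1) ≤ t → An (u (n + 1) - u n) t ≤ be n / 2)
    (n j : ℕ) {t : ℝ} (ht : dl (n + 1) ≤ t) : An (u (n + j) - u n) t ≤ be n - be (n + j) := by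
  have hanti := half_anti dl0 dlh
  induction j with
  | zero =>
    simp only [add_zero, sub_self]
    unfold An
    simp
  | succ j ih =>
    have e : u (n + (j + 1)) - u n = (u (n + j + 1) - u (n + j)) + (u (n + j) - u n) := by
      rw [← add_assoc]; abel
    rw [e]
    refine (An_add_le ((hd _).sub (hd _)) ((hd _).sub (hd _)) t).trans ?_
    have h1 := hdiff (n + j) t ((hanti (by omega : n + 1 ≤ n + j + 1)).trans ht)
    have h2 := beh (n + j)
    rw [← add_assoc]
    linarith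

/-- The limit of a sequence of solutions. -/
theorem lim_exists (hc : 0 < c) (hcf : ∀ n, CF (u n)) (hd : ∀ n, Dom (u n)) (hD : ∀ n T, DS c T (u n))
    (dl0 : ∀ n, 0 < dl n) (dlh : ∀ n, dl (n + 1) ≤ dl n / 2) (be0 : ∀ n, 0 < be n)
    (beh : ∀ n, be (n + 1) ≤ be n / 2) (hdiff : ∀ n t, dl (n + 1) ≤ t → An (u (n + 1) - u n) t ≤ be n / 2) :
    ∃ U : Fam, (∀ k t, 0 < t → Tendsto (fun n => u n k t) atTop (𝓝 (U k t))) ∧
      (∀ n t, dl (n + 1) ≤ t → Summable (fun k => ‖U k t - u n k t‖) ∧ ∑' k, ‖U k t - u n k t‖ ≤ be n) ∧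
      ∀ t, 0 < t → ∃ C γ : ℝ, 0 < C ∧ 0 < γ ∧ ∀ k, ‖U k t‖ ≤ C * Real.exp (-(γ * nk k)) := by
  have hanti := half_anti dl0 dlh
  have hdl := half_tendsto dl0 dlh
  have hbe := half_tendsto be0 beh
  have tele := fun n j t (ht : dl (n + 1) ≤ t) => An_tele hd dl0 dlh beh hdiff n j ht
  have htele : ∀ n m t, n ≤ m → dl (n + 1) ≤ t → An (u m - u n) t ≤ be n := by
    intro n m t hnm ht
    obtain ⟨j, rfl⟩ := Nat.exists_eq_add_of_le hnm
    have := tele n j t ht
    have := be0 (n + j)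
    linarith
  have hex : ∀ k t, 0 < t → ∃ L, Tendsto (fun n => u n k t) atTop (𝓝 L) := by
    intro k t ht
    apply cauchySeq_tendsto_of_complete
    rw [Metric.cauchySeq_iff']
    intro ε hε
    obtain ⟨N, hN1, hN2⟩ := ((hbe.eventually (gt_mem_nhds hε)).and
      (hdl.eventually (gt_mem_nhds ht))).exists
    refine ⟨N, fun n hn => ?_⟩
    rw [dist_eq_norm]
    have h1 := norm_le_An ((hd n).sub (hd N)) k t
    have h2 := htele N n t hn ((hanti (Nat.le_succ N)).trans hN2.le)
    exact (h1.trans h2).trans_lt hN1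
  choose L hL using hex
  classical
  set U : Fam := fun k t => if h : 0 < t then L k t h else 0 with hU
  have hUt : ∀ k t, 0 < t → Tendsto (fun n => u n k t) atTop (𝓝 (U k t)) := by
    intro k t ht
    have : U k t = L k t ht := by simp only [hU]; rw [dif_pos ht]
    rw [this]
    exact hL k t ht
  refine ⟨U, hUt, fun n t ht => ?_, fun t ht => ?_⟩
  · have ht0 : 0 < t := (dl0 _).trans_le ht
    have hfin : ∀ s : Finset K, ∑ k ∈ s, ‖U k t - u n k t‖ ≤ be n := by
      intro s
      have h1 : Tendsto (fun m => ∑ k ∈ s, ‖u m k t - u n k t‖) atTop (𝓝 (∑ k ∈ s, ‖U k t - u n k t‖)) :=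
        tendsto_finset_sum _ fun k _ => ((hUt k t ht0).sub_const _).norm
      refine le_of_tendsto h1 ?_
      filter_upwards [eventually_ge_atTop n] with m hm
      have h2 : Summable fun k => ‖(u m - u n) k t‖ := ((hd m).sub (hd n)).sn t
      refine le_trans ?_ (htele n m t hm ht)
      exact h2.sum_le_tsum s fun _ _ => norm_nonneg _
    exact ⟨summable_of_sum_le (fun _ => norm_nonneg _) hfin,
      Real.tsum_le_of_sum_le (fun _ => norm_nonneg _) hfin⟩
  · obtain ⟨n, hn⟩ := (hdl.eventually (gt_mem_nhds (show 0 < t / 2 by positivity))).exists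
    obtain ⟨b, hb, hb'⟩ := hd n
    set M := ∑' k, b k + be n + 1 with hM
    have hAb : ∀ s, An (u n) s ≤ ∑' k, b k := fun s =>
      Summable.tsum_le_tsum (fun k => hb' k s) (hb.of_nonneg_of_le (fun _ => norm_nonneg _) fun k => hb' k s) hb
    have hM0 : 0 < M := by
      have h1 := (An_nonneg (u n) 0).trans (hAb 0)
      have h2 := be0 n
      linarith
    obtain ⟨hh, a1, a2, a3⟩ := smoothing hc hM0 (show 0 < t / 2 by positivity)
    refine ⟨2 * M, c / 2 * hh, by positivity, by positivity, fun k => ?_⟩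
    have h1 : ∀ m, n ≤ m → ‖u m k t‖ ≤ 2 * M * Real.exp (-(c / 2 * hh * nk k)) := by
      intro m hm
      have hs : dl (n + 1) ≤ t - hh := by
        have := hanti (Nat.le_succ n)
        have e : dl (n + 1) ≤ dl n := this
        linarith
      have h2 : An (u m) (t - hh) ≤ M := by
        have h3 := An_sub_le (hd m) (hd n) (t - hh)
        have h4 := htele n m (t - hh) hm hs
        have h5 := hAb (t - hh)
        linarith
      have h6 := a3 t (u m) (hcf m) (hd m) (hD m t) (t - hh) (by linarith) (by linarith) h2 k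
      rwa [sub_add_cancel] at h6
    refine le_of_tendsto (hUt k t ht).norm ?_
    filter_upwards [eventually_ge_atTop n] with m hm using h1 m hm

end

end Pool.Agent.K1H11.NS
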