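import Pool.Agent.K1H11.NS6.Stage4

/-!
# The norms in which the initial value is attained
-/

open MeasureTheory Set Filter Topology
open scoped ENNReal NNReal ContDiff

namespace Pool.Agent.K1H11.NS

open Pool.Agent.H356R3.NS (shellSum critNorm leiLin)

/-- a norm which only depends on the absolute values of the coefficients -/
structure SolidN (N : (K → C3) → ℝ≥0∞) : Prop extends GoodN N where
  mono : ∀ x y : K → C3, (∀ k, k ≠ 0 → ‖x k‖ ≤ ‖y k‖) → N x ≤ N y

lemma shellSum_mono {x y : K → C3} (h : ∀ k, k ≠ 0 → ‖x k‖ ≤ ‖y k‖) (j : ℕ) : shellSum x j ≤ shellSum y j := by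
  rw [shellSum_eq, shellSum_eq]
  refine ENNReal.tsum_le_tsum fun k => ?_
  split_ifs with hk
  · have h0 : k ≠ 0 := by
      intro h0
      have h1 := shell_le hk
      rw [h0, nk_zero] at h1
      have h2 : (0 : ℝ) < 2 ^ j := by positivity
      linarith
    rw [← ofReal_norm, ← ofReal_norm]
    exact ENNReal.ofReal_le_ofReal (h k h0)
  · exact le_rfl

lemma critNorm_solid {r : ℝ} (hr : 1 ≤ r) : SolidN (critNorm r) where
  toGoodN := critNorm_goodN hr
  mono := fun x y h => by
    have hr0 : 0 < r := by linarith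
    unfold critNorm
    refine ENNReal.rpow_le_rpow (ENNReal.tsum_le_tsum fun j => ?_) (by positivity)
    exact ENNReal.rpow_le_rpow (ENNReal.div_le_div_right (shellSum_mono h j) _) hr0.le

/-- the weighted norm -/
noncomputable def WN (wt : K → ℝ≥0∞) (x : K → C3) : ℝ≥0∞ := ∑' k, if k = 0 then 0 else wt k * ‖x k‖ₑ

lemma exists_shell {k : K} (hk : k ≠ 0) : ∃ j, shell j k := by
  have h1 : 0 < ∑ i, k i ^ 2 := by
    have h2 := sq_pos hk
    rw [sq_cast] at h2
    exact_mod_cast h2
  obtain ⟨n, hn⟩ := Int.eq_ofNat_of_zero_le h1.le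
  have hn0 : n ≠ 0 := by
    intro h0
    rw [hn, h0] at h1
    simp at h1
  refine ⟨Nat.log 4 n, ?_, ?_⟩
  · rw [hn]
    exact_mod_cast Nat.pow_log_le_self 4 hn0
  · rw [hn]
    exact_mod_cast Nat.lt_pow_succ_log_self (by norm_num) n

lemma WN_good {wt : K → ℝ≥0∞} (hwt : ∀ k, k ≠ 0 → wt k ≤ ENNReal.ofReal (1 / (2 * sq k))) : SolidN (WN wt) where
  add := fun x y => by
    unfold WN
    rw [← ENNReal.tsum_add]
    refine ENNReal.tsum_le_tsum fun k => ?_
    by_cases hk : k = 0
    · simp [hk]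
    · rw [if_neg hk, if_neg hk, if_neg hk, ← mul_add]
      exact mul_le_mul' le_rfl (enorm_add_le _ _)
  smul := fun c x => by
    unfold WN
    rw [← ENNReal.tsum_mul_left]
    refine ENNReal.tsum_le_tsum fun k => ?_
    by_cases hk : k = 0
    · simp [hk]
    · rw [if_neg hk, if_neg hk, Pi.smul_apply, enorm_smul, ← mul_assoc, ← mul_assoc, mul_comm (wt k),
        ← ofReal_norm c, Real.norm_eq_abs]
  le := fun x => by
    unfold WN leiLin
    rw [← ENNReal.tsum_mul_left]
    refine ENNReal.tsum_le_tsum fun k => ?_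
    by_cases hk : k = 0
    · simp [hk]
    · rw [if_neg hk, if_neg hk]
      have hn := nk_pos hk
      have hn1 := one_le_nk hk
      have h1 : wt k ≤ 2 * (ENNReal.ofReal (nk k))⁻¹ := by
        refine (hwt k hk).trans ?_
        rw [← ENNReal.ofReal_inv_of_pos hn, show (2 : ℝ≥0∞) = ENNReal.ofReal 2 by simp,
          ← ENNReal.ofReal_mul (by norm_num)]
        apply ENNReal.ofReal_le_ofReal
        rw [← nk_mul_self, ← one_div, mul_one_div, div_le_div_iff₀ (by positivity) hn]
        nlinarith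
      rw [div_eq_mul_inv, mul_comm ‖x k‖ₑ, ← mul_assoc]
      exact mul_le_mul' h1 le_rfl
  mono := fun x y h => by
    unfold WN
    refine ENNReal.tsum_le_tsum fun k => ?_
    by_cases hk : k = 0
    · simp [hk]
    · rw [if_neg hk, if_neg hk]
      apply mul_le_mul' le_rfl
      rw [← ofReal_norm, ← ofReal_norm]
      exact ENNReal.ofReal_le_ofReal (h k hk)

lemma shell_le_crit {r : ℝ} (hr : 1 ≤ r) (x : K → C3) (j : ℕ) : shellSum x j / 2 ^ j ≤ critNorm r x := by
  have hr0 : 0 < r := by linarith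
  unfold critNorm
  calc shellSum x j / 2 ^ j = ((shellSum x j / 2 ^ j) ^ r) ^ (1 / r) := by
        rw [← ENNReal.rpow_mul, mul_one_div_cancel hr0.ne', ENNReal.rpow_one]
    _ ≤ _ := ENNReal.rpow_le_rpow (ENNReal.le_tsum j) (by positivity)

lemma WN_le_crit {wt : K → ℝ≥0∞} (hwt : ∀ k, k ≠ 0 → wt k ≤ ENNReal.ofReal (1 / (2 * sq k))) {r : ℝ} (hr : 1 ≤ r)
    (x : K → C3) : WN wt x ≤ critNorm r x := by
  have h1 : WN wt x ≤ ∑' k, ∑' j, (if shell j k then ENNReal.ofReal (1 / 2 * (1 / 4) ^ j) * ‖x k‖ₑ else 0) := by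
    unfold WN
    refine ENNReal.tsum_le_tsum fun k => ?_
    by_cases hk : k = 0
    · simp [hk]
    · rw [if_neg hk]
      obtain ⟨j, hj⟩ := exists_shell hk
      refine le_trans ?_ (ENNReal.le_tsum j)
      rw [if_pos hj]
      apply mul_le_mul' _ le_rfl
      refine (hwt k hk).trans (ENNReal.ofReal_le_ofReal ?_)
      have h2 := shell_le hj
      have h3 := sq_pos hk
      have h4 : (4 : ℝ) ^ j ≤ sq k := by
        rw [← nk_mul_self, show (4 : ℝ) = 2 * 2 by norm_num, mul_pow]
        exact mul_le_mul h2 h2 (by positivity) (nk_nonneg k)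
      rw [one_div_pow, ← one_div_mul_one_div, ]
      apply mul_le_mul_of_nonneg_left _ (by norm_num)
      exact one_div_le_one_div_of_le (by positivity) h4
  have e1 : ∀ j, ∑' k, (if shell j k then ENNReal.ofReal (1 / 2 * (1 / 4) ^ j) * ‖x k‖ₑ else 0) ≤
      ENNReal.ofReal (1 / 2 * (1 / 2) ^ j) * critNorm r x := by
    intro j
    have e2 : ∀ k, (if shell j k then ENNReal.ofReal (1 / 2 * (1 / 4) ^ j) * ‖x k‖ₑ else 0) =
        ENNReal.ofReal (1 / 2 * (1 / 4) ^ j) * (if shell j k then ‖x k‖ₑ else 0) := by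
      intro k
      split_ifs <;> simp
    simp_rw [e2]
    rw [ENNReal.tsum_mul_left, ← shellSum_eq]
    have e3 : ENNReal.ofReal (1 / 2 * (1 / 4) ^ j) * shellSum x j =
        ENNReal.ofReal (1 / 2 * (1 / 2) ^ j) * (shellSum x j / 2 ^ j) := by
      have e4 : (2 : ℝ≥0∞) ^ j = ENNReal.ofReal ((2 : ℝ) ^ j) := by
        rw [ENNReal.ofReal_pow (by norm_num)]; simp
      have e5 : shellSum x j / 2 ^ j = (2 ^ j)⁻¹ * shellSum x j := ENNReal.div_eq_inv_mul
      rw [e5, ← mul_assoc, e4, ← ENNReal.ofReal_inv_of_pos (by positivity),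
        ← ENNReal.ofReal_mul (by positivity)]
      congr 2
      rw [one_div_pow, one_div_pow, show (4 : ℝ) = 2 * 2 by norm_num, mul_pow]
      field_simp
    rw [e3]
    exact mul_le_mul' le_rfl (shell_le_crit hr x j)
  refine h1.trans ?_
  rw [ENNReal.tsum_comm]
  refine (ENNReal.tsum_le_tsum e1).trans ?_
  rw [ENNReal.tsum_mul_right]
  have e5 : ∑' j : ℕ, ENNReal.ofReal (1 / 2 * (1 / 2) ^ j) = 1 := by
    have hs : Summable fun j : ℕ => (1 / 2 : ℝ) * (1 / 2) ^ j :=
      (summable_geometric_of_lt_one (by norm_num) (by norm_num)).mul_left _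
    rw [← ENNReal.ofReal_tsum_of_nonneg (fun j => by positivity) hs, tsum_mul_left, tsum_geometric_two]
    norm_num
  rw [e5, one_mul]

/-- Tails of convergent sums. -/
lemma tail_tendsto {ι : Type*} {f : ι → ℝ≥0∞} (hf : ∑' i, f i ≠ ⊤) {g : ℕ → ι → ℝ≥0∞} (hg : ∀ n i, g n i ≤ f i)
    (hz : ∀ i, ∀ᶠ n in atTop, g n i = 0) : Tendsto (fun n => ∑' i, g n i) atTop (𝓝 0) := by
  classical
  rw [ENNReal.tendsto_nhds_zero]
  intro ε hε
  obtain ⟨s, hs⟩ := ((ENNReal.tendsto_nhds_zero.1 (ENNReal.tendsto_tsum_compl_atTop_zero hf)) ε hε).exists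
  have h1 : ∀ᶠ n in atTop, ∀ i ∈ s, g n i = 0 := (Filter.eventually_all_finset s).2 fun i _ => hz i
  filter_upwards [h1] with n hn
  refine le_trans ?_ hs
  have h2 : ∑' b : { x // x ∉ s }, f b = ∑' i, (if i ∈ s then 0 else f i) := by
    have := tsum_subtype (({x | x ∉ s} : Set ι)) f
    rw [show (∑' b : { x // x ∉ s }, f b) = ∑' b : ({x | x ∉ s} : Set ι), f b from rfl, this]
    refine tsum_congr fun i => ?_
    by_cases hi : i ∈ s
    · rw [if_pos hi, indicator_of_notMem (by simpa using hi)]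
    · rw [if_neg hi, indicator_of_mem (by simpa using hi)]
  rw [h2]
  refine ENNReal.tsum_le_tsum fun i => ?_
  by_cases hi : i ∈ s
  · rw [hn i hi]; exact zero_le
  · rw [if_neg hi]; exact hg n i

open Classical in
/-- truncation -/
noncomputable def trc (n : ℕ) (v : K → C3) : K → C3 := fun k => if k ≠ 0 ∧ nk k ≤ n then v k else 0

lemma trc_sub_le (n : ℕ) (v : K → C3) (k : K) (_hk : k ≠ 0) : ‖(trc n v - v) k‖ ≤ ‖v k‖ := by
  show ‖trc n v k - v k‖ ≤ _
  unfold trc
  split_ifs
  · rw [sub_self, norm_zero]; exact norm_nonneg _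
  · rw [zero_sub, norm_neg]

lemma trc_sub_zero {n : ℕ} (v : K → C3) {k : K} (hk : k ≠ 0) (h : nk k ≤ n) : (trc n v - v) k = 0 := by
  show trc n v k - v k = 0
  unfold trc
  rw [if_pos ⟨hk, h⟩, sub_self]

lemma finite_nk (R : ℝ) : {k : K | nk k ≤ R}.Finite := by
  have h1 : {k : K | nk k ≤ R} ⊆ Set.pi univ fun _ : Fin 3 => Icc (-⌈R⌉) ⌈R⌉ := by
    intro k hk i _
    have h2 : |(k i : ℝ)| ≤ nk k := abs_le_nk k i
    have h3 : |(k i : ℝ)| ≤ (⌈R⌉ : ℝ) := h2.trans (le_trans hk (Int.le_ceil R))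
    rw [abs_le] at h3
    exact ⟨by exact_mod_cast h3.1, by exact_mod_cast h3.2⟩
  exact (Set.Finite.pi fun _ => Set.finite_Icc _ _).subset h1

lemma trc_SD {v : K → C3} (hs : Sym v) (hd : ∀ k, dt k (v k) = 0) (n : ℕ) : SD (trc n v) where
  sym := by
    intro k i
    unfold trc
    by_cases h : k ≠ 0 ∧ nk k ≤ n
    · rw [if_pos h, if_pos ⟨neg_ne_zero.2 h.1, by rw [nk_neg]; exact h.2⟩]
      exact hs k i
    · rw [if_neg h, if_neg fun h' => h ⟨neg_ne_zero.1 h'.1, by rw [← nk_neg]; exact h'.2⟩]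
      simp
  z := by unfold trc; simp
  rr := by
    intro m
    apply summable_of_finite_support
    refine (finite_nk n).subset fun k hk => ?_
    by_contra hcon
    apply hk
    have : trc n v k = 0 := by
      unfold trc
      rw [if_neg fun h => hcon h.2]
    simp [this]
  dt := by
    intro k
    unfold trc
    split_ifs
    · exact hd k
    · simp [dt]

lemma trc_crit {r : ℝ} (hr : 1 ≤ r) {v : K → C3} (hv : critNorm r v ≠ ⊤) :
    Tendsto (fun n => critNorm r (trc n v - v)) atTop (𝓝 0) := by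
  have hr0 : 0 < r := by linarith
  have h1 : ∑' j, (shellSum v j / 2 ^ j) ^ r ≠ ⊤ := by
    intro h2
    apply hv
    unfold critNorm
    rw [h2, ENNReal.top_rpow_of_pos (by positivity)]
  have h2 : Tendsto (fun n => ∑' j, (shellSum (trc n v - v) j / 2 ^ j) ^ r) atTop (𝓝 0) := by
    refine tail_tendsto h1 (fun n j => ?_) fun j => ?_
    · exact ENNReal.rpow_le_rpow (ENNReal.div_le_div_right (shellSum_mono (trc_sub_le n v) j) _) hr0.le
    · obtain ⟨n0, hn0⟩ := exists_nat_gt ((2 : ℝ) ^ (j + 1))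
      filter_upwards [eventually_ge_atTop n0] with n hn
      have h3 : shellSum (trc n v - v) j = 0 := by
        rw [shellSum_eq, ENNReal.tsum_eq_zero]
        intro k
        split_ifs with hk
        · have h4 := shell_le hk
          have h5 := shell_lt hk
          have h6 : k ≠ 0 := by
            intro h0
            rw [h0, nk_zero] at h4
            have h7 : (0 : ℝ) < 2 ^ j := by positivity
            linarith
          have h8 : (n0 : ℝ) ≤ n := by exact_mod_cast hn
          rw [trc_sub_zero v h6 (by linarith), enorm_zero]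
        · rfl
      rw [h3, ENNReal.zero_div, ENNReal.zero_rpow_of_pos hr0]
  have h3 := ((ENNReal.continuous_rpow_const (y := 1 / r)).tendsto 0).comp h2
  rw [ENNReal.zero_rpow_of_pos (by positivity)] at h3
  exact h3

lemma trc_WN {wt : K → ℝ≥0∞} {v : K → C3} (hv : WN wt v ≠ ⊤) : Tendsto (fun n => WN wt (trc n v - v)) atTop (𝓝 0) := by
  refine tail_tendsto hv (fun n k => ?_) fun k => ?_
  · by_cases hk : k = 0
    · simp [hk]
    · rw [if_neg hk, if_neg hk]
      apply mul_le_mul' le_rfl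
      rw [← ofReal_norm, ← ofReal_norm]
      exact ENNReal.ofReal_le_ofReal (trc_sub_le n v k hk)
  · obtain ⟨n0, hn0⟩ := exists_nat_gt (nk k)
    filter_upwards [eventually_ge_atTop n0] with n hn
    by_cases hk : k = 0
    · simp [hk]
    · have h8 : (n0 : ℝ) ≤ n := by exact_mod_cast hn
      rw [if_neg hk, trc_sub_zero v hk (by linarith), enorm_zero, mul_zero]

end Pool.Agent.K1H11.NS
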