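import Pool.Agent.K1H11.NS6.Rec
import Pool.Agent.K1H11.NS6.Solid
import Pool.Agent.K1H11.NS4.Galilei
import Pool.Agent.K1H11.NS4.LocB
import Pool.Agent.K1H11.NS3.ZeroOne

/-!
# The physical form of the theorem on bifurcation at time zero
-/

open MeasureTheory Set Filter Topology
open scoped ENNReal NNReal ContDiff

namespace Pool.Agent.K1H11.NS

open H459R3.NS (ee fr cube S SP Per D Rap IsSol)
open Pool.Agent.H356R3.NS (AdmissiblePeriodic R3 shellSum critNorm leiLin)

lemma adm_congr {ν : ℝ} {v v' : E3 → E3} {u u' : ℝ → E3 → E3} {p : ℝ → E3 → ℝ} (h : AdmissiblePeriodic ν v u p)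
    (hv : v' = v) (hu : ∀ t, 0 ≤ t → u' t = u t) : AdmissiblePeriodic ν v' u' p := by
  refine ⟨?_, h.smooth_p, fun t ht x j => ?_, h.periodic_p, fun t ht x i => ?_, fun t ht x => ?_, ?_⟩
  · refine h.smooth_u.congr fun z hz => ?_
    rw [hu z.1 hz.1]
  · rw [hu t ht]
    exact h.periodic_u t ht x j
  · have e : derivWithin (fun s => u' s x i) (Ici 0) t = derivWithin (fun s => u s x i) (Ici 0) t := by
      refine derivWithin_congr (fun s hs => ?_) ?_
      · show u' s x i = u s x i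
        rw [hu s hs]
      · rw [hu t ht]
    rw [e, hu t ht]
    exact h.momentum t ht x i
  · rw [hu t ht]
    exact h.divFree t ht x
  · rw [hu 0 le_rfl, h.initial, hv]

lemma ex_add_right (k : K) (x y : E3) : ex k (x + y) = ex k x * ex k y := by
  unfold ex
  rw [← Complex.exp_add, ← mul_add, ← Finset.sum_add_distrib]
  congr 2
  refine Finset.sum_congr rfl fun i _ => ?_
  rw [Pi.add_apply]
  push_cast
  ring

section
variable {m : E3} {U : Fam}

/-- the fields -/
noncomputable def Uf (m : E3) (U : Fam) (t : ℝ) : E3 → E3 := fun x i =>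
  m i + (∑' k, U k t i * ex k (x - t • m)).re

lemma Uf_rep {t : ℝ} (hU : SD (at' U t)) (i : Fin 3) : ∃ B : E3 → ℝ, SP B ∧ (∀ x, Uf m U t x i = m i + B x) ∧
    fr B = fun k => ex k (-(t • m)) * U k t i := by
  have hrap : Rap fun k => ex k (-(t • m)) * U k t i := by
    intro n
    refine (hU.rr n).of_nonneg_of_le (fun k => by positivity) fun k => ?_
    have h1 := N_le_pw k
    have h2 : (0 : ℝ) ≤ H459R3.NS.N k := Nat.cast_nonneg _
    rw [norm_mul, norm_ex, one_mul]
    exact mul_le_mul (pow_le_pow_left₀ h2 h1 n) (norm_le_pi_norm _ i) (norm_nonneg _)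
      (pow_nonneg (pw_pos k).le n)
  obtain ⟨B, hB, hBS, hBf⟩ := exists_SP hrap (fun k => by
    have h1 : U (-k) t i = star (U k t i) := hU.sym k i
    simp only [h1, ex_neg]
    rw [star_mul, mul_comm])
  refine ⟨B, hB, fun x => ?_, hBf⟩
  unfold Uf
  congr 1
  have e : ∑' k, U k t i * ex k (x - t • m) = (B x : ℂ) := by
    rw [hBS]
    unfold S
    refine tsum_congr fun k => ?_
    rw [sub_eq_add_neg, ex_add_right, ← ex_eq_ee]
    ring
  rw [e, Complex.ofReal_re]

lemma Uf_SP {t : ℝ} (hU : SD (at' U t)) (i : Fin 3) : SP fun x => Uf m U t x i := by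
  obtain ⟨B, hB, h, -⟩ := Uf_rep (m := m) hU i
  have : (fun x => Uf m U t x i) = fun x => m i + B x := funext h
  rw [this]
  exact (SP.const _).add hB

lemma Uf_fc {t : ℝ} (hU : SD (at' U t)) (k : K) :
    Pool.Agent.H356R3.NS.fc (Uf m U t) k = if k = 0 then (fun i => (m i : ℂ)) else ex k (-(t • m)) • U k t := by
  funext i
  obtain ⟨B, hB, h, hf⟩ := Uf_rep (m := m) hU i
  have e : (fun x => Uf m U t x i) = fun x => m i + B x := funext h
  rw [fc_eq_fr, e, fr_add (SP.const _) hB, fr_const, hf]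
  by_cases hk : k = 0
  · subst hk
    have h0 : U 0 t i = 0 := by
      have := hU.z
      exact congrFun this i
    simp [h0]
  · simp [hk]

lemma Uf_zero_mean (U : Fam) (t : ℝ) (x : E3) (i : Fin 3) : Uf 0 U t x i = (∑' k, U k t i * ex k x).re := by
  unfold Uf
  simp

lemma Uf_shift (t : ℝ) (x : E3) (i : Fin 3) : Uf m U t x i = Uf 0 U t (x - t • m) i + m i := by
  rw [Uf_zero_mean]
  unfold Uf
  ring

/-- The equations after time zero. -/
lemma Uf_adm {ν : ℝ} (h : ∀ t0, 0 < t0 → SD (at' U t0) ∧ ∃ a' : Wt, Sup a' ∧ ∃ z : Fam,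
    Sol (4 * Real.pi ^ 2 * ν) a' (at' U t0) z ∧ ∀ k s, 0 ≤ s → z k s = U k (t0 + s)) {t0 : ℝ} (ht0 : 0 < t0) :
    ∃ p, AdmissiblePeriodic ν (Uf m U t0) (fun s => Uf m U (t0 + s)) p := by
  -- mean zero
  have h1 : ∀ t1, 0 < t1 → ∃ p, AdmissiblePeriodic ν (Uf 0 U t1) (fun s => Uf 0 U (t1 + s)) p := by
    intro t1 ht1
    obtain ⟨hsd, a', ha', z, hz, hzU⟩ := h t1 ht1
    refine ⟨_, adm_congr (sol_physical ha' hsd.dt hz 0) ?_ fun s hs => ?_⟩
    · funext x i
      rw [Uf_zero_mean]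
      show _ = (0 : ℝ) + (∑' k, U k t1 i * ex k x).re
      rw [zero_add]
    · funext x i
      rw [Uf_zero_mean]
      show _ = (0 : ℝ) + (GS 0 (cf' z i) s x).re
      rw [zero_add]
      unfold GS SF
      congr 1
      refine tsum_congr fun k => ?_
      show U k (t1 + s) i * ex k x = z k s i * ex k (x - s • (0 : E3))
      rw [hzU k s hs, smul_zero, sub_zero]
  obtain ⟨p, hp⟩ := h1 (t0 / 2) (half_pos ht0)
  have h2 := adm_transform one_pos (fun i => 2 * m i) hp
  have h3 := adm_shift h2 (half_pos ht0)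
  have h4 := adm_transform one_pos (fun i => -m i) h3
  rw [one_mul, one_mul] at h4
  have key : ∀ s, (fun (x : E3) (i : Fin 3) => 1 * (1 * Uf 0 U (t0 / 2 + 1 * (t0 / 2 + 1 * s))
      (x - s • (fun i => -m i) - (t0 / 2 + 1 * s) • (fun i => 2 * m i)) i + 2 * m i) + -m i) = Uf m U (t0 + s) := by
    intro s
    funext x i
    rw [Uf_shift (m := m)]
    have e1 : t0 / 2 + 1 * (t0 / 2 + 1 * s) = t0 + s := by ring
    have e2 : x - s • (fun i => -m i) - (t0 / 2 + 1 * s) • (fun i => 2 * m i) = x - (t0 + s) • m := by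
      funext j
      simp only [Pi.sub_apply, Pi.smul_apply, smul_eq_mul]
      ring
    rw [e1, e2]
    ring
  refine ⟨_, adm_congr h4 ?_ fun s _ => (key s).symm⟩
  have := key 0
  rw [add_zero] at this
  rw [← this]
  funext x i
  simp

lemma phase_small (k : K) (t : ℝ) (ht : 0 ≤ t) : ‖ex k (-(t • m)) - 1‖ ≤ 2 * Real.pi * ((∑ i, |m i|) * t * nk k) := by
  refine (norm_ex_sub_one k (-(t • m))).trans (le_of_eq ?_)
  have : ∑ i, |(-(t • m)) i| = (∑ i, |m i|) * t := by
    rw [Finset.sum_mul]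
    refine Finset.sum_congr rfl fun i _ => ?_
    rw [Pi.neg_apply, abs_neg, Pi.smul_apply, smul_eq_mul, abs_mul, abs_of_nonneg ht, mul_comm]
  rw [this]

/-- The initial value in solid norms. -/
lemma Uf_tendsto (hU : ∀ t, 0 < t → SD (at' U t)) {v : K → C3} {N : (K → C3) → ℝ≥0∞} (hN : SolidN N)
    (hv : Tendsto (fun n => N (trc n v - v)) atTop (𝓝 0)) (hvs : Sym v) (hvd : ∀ k, dt k (v k) = 0)
    (hconv : ∀ ρ : ℝ, 0 < ρ → ∃ δ : ℝ, 0 < δ ∧ ∀ t, 0 < t → t ≤ δ → N (at' U t - v) ≤ ENNReal.ofReal ρ) :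
    Tendsto (fun t => N (fun k => Pool.Agent.H356R3.NS.fc (Uf m U t) k - v k)) (𝓝[>] 0) (𝓝 0) := by
  have hpi := Real.pi_pos
  rw [ENNReal.tendsto_nhds_zero]
  intro ε hε
  obtain ⟨ρ, hρ, hρε⟩ : ∃ ρ : ℝ, 0 < ρ ∧ ENNReal.ofReal ρ ≤ ε := by
    rcases eq_or_ne ε ⊤ with h | h
    · exact ⟨1, one_pos, by rw [h]; exact le_top⟩
    · exact ⟨ε.toReal, ENNReal.toReal_pos hε.ne' h, by rw [ENNReal.ofReal_toReal h]⟩
  obtain ⟨δ1, hδ1, h1⟩ := hconv (ρ / 4) (by positivity)
  have hρ8 : (0 : ℝ≥0∞) < ENNReal.ofReal (ρ / 8) := by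
    rw [ENNReal.ofReal_pos]; positivity
  obtain ⟨n, hn⟩ := (hv.eventually (gt_mem_nhds hρ8)).exists
  have hsd := trc_SD hvs hvd n
  set T := ∑' k, ‖trc n v k‖ with hT
  have hT0 : 0 ≤ T := tsum_nonneg fun _ => norm_nonneg _
  set A := ∑ i, |m i| with hA
  have hA0 : 0 ≤ A := Finset.sum_nonneg fun i _ => abs_nonneg _
  set δ2 := ρ / (16 * Real.pi * (A * T + 1)) with hδ2
  have hδ2p : 0 < δ2 := by positivity
  have hmem : Ioc (0 : ℝ) (min δ1 δ2) ∈ 𝓝[>] (0 : ℝ) := Ioc_mem_nhdsGT (lt_min hδ1 hδ2p)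
  filter_upwards [hmem] with t ht
  obtain ⟨ht0, ht1⟩ := ht
  have htδ1 : t ≤ δ1 := ht1.trans (min_le_left _ _)
  have htδ2 : t ≤ δ2 := ht1.trans (min_le_right _ _)
  refine le_trans ?_ hρε
  set x1 : K → C3 := fun k => ex k (-(t • m)) • (U k t - v k)
  set x3 : K → C3 := fun k => (ex k (-(t • m)) - 1) • (v k - trc n v k)
  set x4 : K → C3 := fun k => (ex k (-(t • m)) - 1) • trc n v k
  have e0 : N (fun k => Pool.Agent.H356R3.NS.fc (Uf m U t) k - v k) ≤ N (x1 + (x3 + x4)) := by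
    refine hN.mono _ _ fun k hk => le_of_eq ?_
    congr 1
    rw [Uf_fc (hU t ht0), if_neg hk]
    simp only [x1, x3, x4, Pi.add_apply]
    rw [smul_sub, smul_sub, sub_smul, sub_smul, one_smul, one_smul]
    abel
  have b1 : N x1 ≤ ENNReal.ofReal (ρ / 4) := by
    refine (hN.mono _ (at' U t - v) fun k _ => le_of_eq ?_).trans (h1 t ht0 htδ1)
    simp only [x1]
    rw [norm_smul, norm_ex, one_mul]
    rfl
  have b3 : N x3 ≤ ENNReal.ofReal (ρ / 4) := by
    have h2 : N x3 ≤ N ((2 : ℝ) • (trc n v - v)) := by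
      refine hN.mono _ _ fun k _ => ?_
      simp only [x3]
      rw [norm_smul, Pi.smul_apply, norm_smul, Pi.sub_apply, norm_sub_rev (v k)]
      apply mul_le_mul_of_nonneg_right _ (norm_nonneg _)
      refine (norm_sub_le _ _).trans ?_
      rw [norm_ex, norm_one]
      norm_num
    refine h2.trans ((hN.smul 2 _).trans ?_)
    rw [abs_of_pos (by norm_num : (0 : ℝ) < 2)]
    refine (mul_le_mul' le_rfl hn.le).trans ?_
    rw [← ENNReal.ofReal_mul (by norm_num)]
    apply ENNReal.ofReal_le_ofReal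
    linarith
  have b4 : N x4 ≤ ENNReal.ofReal (ρ / 4) := by
    have hsT : Summable fun k => ‖trc n v k‖ := hsd.rr.summ
    have hx4 : SN x4 := by
      refine (hsT.mul_left 2).of_nonneg_of_le (fun _ => norm_nonneg _) fun k => ?_
      simp only [x4]
      rw [norm_smul]
      apply mul_le_mul_of_nonneg_right _ (norm_nonneg _)
      refine (norm_sub_le _ _).trans ?_
      rw [norm_ex, norm_one]
      norm_num
    have h2 : leiLin x4 ≤ ENNReal.ofReal (2 * Real.pi * (A * t) * T) := by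
      rw [leiLin_eq hx4]
      apply ENNReal.ofReal_le_ofReal
      rw [hT, ← tsum_mul_left]
      refine (summ_div_nk hx4).tsum_le_tsum (fun k => ?_) (hsT.mul_left _)
      by_cases hk : k = 0
      · subst hk; rw [nk_zero, div_zero]; positivity
      · have hnk := nk_pos hk
        rw [div_le_iff₀ hnk]
        simp only [x4]
        rw [norm_smul]
        calc _ ≤ (2 * Real.pi * (A * t * nk k)) * ‖trc n v k‖ :=
              mul_le_mul_of_nonneg_right (phase_small k t ht0.le) (norm_nonneg _)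
          _ = _ := by ring
    refine (hN.le _).trans ((mul_le_mul' le_rfl h2).trans ?_)
    rw [show (2 : ℝ≥0∞) = ENNReal.ofReal 2 by simp, ← ENNReal.ofReal_mul (by norm_num)]
    apply ENNReal.ofReal_le_ofReal
    have h3 : t * (16 * Real.pi * (A * T + 1)) ≤ ρ := by
      rw [hδ2, le_div_iff₀ (by positivity)] at htδ2
      exact htδ2
    have h4 : 0 ≤ t * (16 * Real.pi) := by positivity
    nlinarith
  refine e0.trans ((hN.add _ _).trans ((add_le_add b1 ((hN.add _ _).trans (add_le_add b3 b4))).trans ?_))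
  rw [← ENNReal.ofReal_add (by positivity) (by positivity), ← ENNReal.ofReal_add (by positivity) (by positivity)]
  apply ENNReal.ofReal_le_ofReal
  linarith

end

/-- Bifurcation at time zero. -/
theorem bif_main {ν : ℝ} (hν : 0 < ν) {w₀ : E3 → E3} {w : ℝ → E3 → E3} {q : ℝ → E3 → ℝ}
    (hw : AdmissiblePeriodic ν w₀ w q) {m : E3} (hm : ∀ i, ∫ x in cube, w₀ x i = m i) {v : K → C3}
    (hvs : Sym v) (hvd : ∀ k, dt k (v k) = 0) (hv0 : ∀ i, v 0 i = (m i : ℂ)) {ε : ℝ} (hε : 0 < ε) :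
    ∃ U : ℝ → E3 → E3,
      (∀ t₀, 0 < t₀ → ∃ p, AdmissiblePeriodic ν (U t₀) (fun t => U (t₀ + t)) p) ∧
      (∀ t, ε ≤ t → ∀ x i, |U t x i - w t x i| ≤ ε) ∧
      (∀ ρ : ℝ, 0 < ρ → ∃ δ : ℝ, 0 < δ ∧ ∀ t, 0 < t → t ≤ δ → ∀ x i, Real.sqrt t * |U t x i| ≤ ρ) ∧
      (∀ r : ℝ, 2 < r → critNorm r v ≠ ⊤ →
        Tendsto (fun t => critNorm r (fun k => Pool.Agent.H356R3.NS.fc (U t) k - v k)) (𝓝[>] 0) (𝓝 0)) ∧
      (∀ wt : K → ℝ≥0∞, (∀ k, k ≠ 0 → wt k ≤ ENNReal.ofReal (1 / sq k)) → ∑' k, wt k * ‖v k‖ₑ ≠ ⊤ →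
        Tendsto (fun t => ∑' k, wt k * ‖Pool.Agent.H356R3.NS.fc (U t) k - v k‖ₑ) (𝓝[>] 0) (𝓝 0)) := by
  have hpi := Real.pi_pos
  have hc : 0 < 4 * Real.pi ^ 2 * ν := by positivity
  have hsp0 : ∀ i, SP fun x => w₀ x i := by
    intro i
    have := (adm_isSol hw 1).sp (t := 0) ⟨le_rfl, one_pos⟩ i
    rwa [hw.initial] at this
  have hdw : ∀ x, ∑ i, H459R3.NS.pd i (fun y => w₀ y i) x = 0 := by
    intro x
    have := (adm_isSol hw 1).divfree 0 ⟨le_rfl, one_pos⟩ x
    rwa [hw.initial] at this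
  obtain ⟨a, ha, W, hW, hWphys⟩ := conv_sol hν hw
  have hD : SD (FV w₀) := ⟨FV_sym w₀, funext fun i => FV_zero hsp0 i, FV_rr hsp0, FV_dt hsp0 hdw⟩
  obtain ⟨U, hU1, hU2, hU3, hU4⟩ := bif_F hc (fun n => trc_SD hvs hvd n) hD ha hW hε
  have hUSD : ∀ t, 0 < t → SD (at' U t) := fun t ht => (hU1 t ht).1
  have hem : (fun i => ∫ y in cube, w₀ y i) = m := funext hm
  refine ⟨Uf m U, fun t₀ ht₀ => Uf_adm hU1 ht₀, fun t ht x i => ?_, fun ρ hρ => ?_, fun r hr hrv => ?_,
    fun wt hwt hfin => ?_⟩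
  · have ht0 : 0 < t := hε.trans_le ht
    have e1 := hWphys t ht0.le x i
    rw [hem, hm] at e1
    obtain ⟨q1, q2⟩ := hU2 t ht
    have s1 : Summable fun k => U k t i * ex k (x - t • m) := by
      refine Summable.of_norm_bounded (hUSD t ht0).rr.summ fun k => ?_
      rw [norm_mul, norm_ex, mul_one]; exact norm_le_pi_norm _ i
    have s2 : Summable fun k => cf' W i k t * ex k (x - t • m) := by
      refine Summable.of_norm_bounded ((hW.dom' ha).sn t) fun k => ?_
      rw [norm_mul, norm_ex, mul_one]; exact norm_le_pi_norm _ i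
    have e2 : Uf m U t x i - w t x i = (∑' k, (U k t i * ex k (x - t • m) - cf' W i k t * ex k (x - t • m))).re := by
      rw [← e1, s1.tsum_sub s2, Complex.sub_re]
      unfold Uf GS SF
      ring
    rw [e2]
    refine (Complex.abs_re_le_norm _).trans (le_trans ?_ q2)
    refine tsum_of_norm_bounded q1.hasSum fun k => ?_
    rw [← sub_mul, norm_mul, norm_ex, mul_one]
    exact norm_le_pi_norm (U k t - W k t) i
  · obtain ⟨δ, hδ, h3⟩ := hU3 (ρ / 2) (by positivity)
    set A := ∑ i, |m i| with hA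
    have hA0 : 0 ≤ A := Finset.sum_nonneg fun i _ => abs_nonneg _
    refine ⟨min δ ((ρ / (2 * (A + 1))) ^ 2), lt_min hδ (by positivity), fun t ht htd x i => ?_⟩
    have h4 := h3 t ht (htd.trans (min_le_left _ _))
    have h5 : Real.sqrt t ≤ ρ / (2 * (A + 1)) := by
      rw [Real.sqrt_le_left (by positivity)]
      exact htd.trans (min_le_right _ _)
    have hst := Real.sqrt_nonneg t
    have h6 : |Uf m U t x i| ≤ A + ∑' k, ‖U k t‖ := by
      unfold Uf
      refine (abs_add_le _ _).trans (add_le_add ?_ ?_)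
      · exact Finset.single_le_sum (f := fun i => |m i|) (fun _ _ => abs_nonneg _) (Finset.mem_univ i)
      · refine (Complex.abs_re_le_norm _).trans ?_
        refine tsum_of_norm_bounded (hUSD t ht).rr.summ.hasSum fun k => ?_
        rw [norm_mul, norm_ex, mul_one]
        exact norm_le_pi_norm _ i
    rw [le_div_iff₀ (by positivity)] at h5
    calc Real.sqrt t * |Uf m U t x i| ≤ Real.sqrt t * (A + ∑' k, ‖U k t‖) := mul_le_mul_of_nonneg_left h6 hst
      _ = Real.sqrt t * A + Real.sqrt t * ∑' k, ‖U k t‖ := by ring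
      _ ≤ ρ / 2 + ρ / 2 := by
          refine add_le_add ?_ h4
          nlinarith
      _ = ρ := by ring
  · have hr1 : 1 ≤ r := by linarith
    have hN := critNorm_solid hr1
    have hv := trc_crit hr1 hrv
    exact Uf_tendsto hUSD hN hv hvs hvd fun ρ hρ => hU4 r hr _ hN.toGoodN (fun _ => le_rfl) v hv ρ hρ
  · set wt' : K → ℝ≥0∞ := fun k => wt k / 2 with hwt'
    have hwt1 : ∀ k, k ≠ 0 → wt' k ≤ ENNReal.ofReal (1 / (2 * sq k)) := by
      intro k hk
      have hs := sq_pos hk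
      have h1 : ENNReal.ofReal (1 / (2 * sq k)) = ENNReal.ofReal (1 / sq k) / 2 := by
        rw [show (2 : ℝ≥0∞) = ENNReal.ofReal 2 by simp, ← ENNReal.ofReal_div_of_pos (by norm_num)]
        congr 1
        field_simp
      rw [h1]
      exact ENNReal.div_le_div_right (hwt k hk) _
    have hle : ∀ x : K → C3, WN wt' x ≤ ∑' k, wt k * ‖x k‖ₑ := by
      intro x
      unfold WN
      refine ENNReal.tsum_le_tsum fun k => ?_
      split_ifs
      · exact zero_le
      · apply mul_le_mul' _ le_rfl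
        exact ENNReal.half_le_self
    have hfin' : WN wt' v ≠ ⊤ := ne_top_of_le_ne_top hfin (hle v)
    have hN := WN_good hwt1
    have hv := trc_WN hfin'
    have h3 := Uf_tendsto (m := m) hUSD hN hv hvs hvd fun ρ hρ =>
      hU4 3 (by norm_num) _ hN.toGoodN (WN_le_crit hwt1 (by norm_num)) v hv ρ hρ
    have h4 := ENNReal.Tendsto.const_mul (a := 2) h3 (Or.inr (by norm_num))
    rw [mul_zero] at h4
    refine h4.congr' ?_
    filter_upwards [self_mem_nhdsWithin] with t ht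
    have ht0 : 0 < t := ht
    unfold WN
    rw [← ENNReal.tsum_mul_left]
    refine tsum_congr fun k => ?_
    by_cases hk : k = 0
    · subst hk
      rw [if_pos rfl, mul_zero, Uf_fc (hUSD t ht0), if_pos rfl]
      have : (fun i => (m i : ℂ)) - v 0 = 0 := by
        funext i
        rw [Pi.sub_apply, hv0 i, sub_self]
        rfl
      rw [this, enorm_zero, mul_zero]
    · rw [if_neg hk, ← mul_assoc]
      congr 1
      simp only [hwt']
      rw [mul_comm, ENNReal.div_mul_cancel (by norm_num) (by norm_num)]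

end Pool.Agent.K1H11.NS
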