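import Pool.Agent.K1H11.NS6.Stage3
import Pool.Agent.K1H11.NS2.Cut2

/-!
# One step of the construction
-/

open MeasureTheory Set Filter Topology
open scoped ENNReal NNReal ContDiff

namespace Pool.Agent.K1H11.NS

open H459R3.NS (ee fc fr cube S SP Per pd D Rap)
open Pool.Agent.H356R3.NS (shellSum critNorm leiLin)

lemma WvB_le {c K1 A τ : ℝ} (hc : 0 < c) (hA : 0 ≤ A) (hτ : 0 < τ) {J : ℕ} (hJ : 1 ≤ J) {r0 r : ℝ} (hr0 : 2 < r0)
    (hr : r0 ≤ r) : WvB c K1 A τ J r ≤ ENNReal.ofReal (2 * ((15 * J : ℝ) ^ (1 / r0) *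
      (2 * (4 * Real.sqrt (c / J) * Real.sqrt K1 * A + τ)) + (15 * J) * (2 * τ))) := by
  have hJ1 : (1 : ℝ) ≤ J := by exact_mod_cast hJ
  have hJ0 : (0 : ℝ) < 15 * J := by linarith
  have e1 : ((15 * J : ℕ) : ℝ≥0∞) = ENNReal.ofReal (15 * J) := by
    rw [show (15 * J : ℝ) = ((15 * J : ℕ) : ℝ) by push_cast; ring, ENNReal.ofReal_natCast]
  have e2 : ((15 * J : ℕ) : ℝ≥0∞) ^ (1 / r) ≤ ENNReal.ofReal ((15 * J : ℝ) ^ (1 / r0)) := by
    rw [← ENNReal.ofReal_rpow_of_pos hJ0, e1]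
    apply ENNReal.rpow_le_rpow_of_exponent_le
    · rw [ENNReal.one_le_ofReal]; linarith
    · exact one_div_le_one_div_of_le (by linarith) hr
  have two : (2 : ℝ≥0∞) = ENNReal.ofReal 2 := by simp
  have p1 : 0 ≤ 4 * Real.sqrt (c / J) * Real.sqrt K1 * A + τ := by positivity
  unfold WvB
  calc _ ≤ ENNReal.ofReal 2 * (ENNReal.ofReal ((15 * J : ℝ) ^ (1 / r0)) *
        (ENNReal.ofReal 2 * ENNReal.ofReal (4 * Real.sqrt (c / J) * Real.sqrt K1 * A + τ)) +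
        ENNReal.ofReal (15 * J) * (ENNReal.ofReal 2 * ENNReal.ofReal τ)) := by
        rw [← two, ← e1]
        gcongr
    _ = _ := by
        have p2 : 0 ≤ (15 * J : ℝ) ^ (1 / r0) := Real.rpow_nonneg hJ0.le _
        have p3 : (0 : ℝ) ≤ 2 := by norm_num
        rw [ENNReal.ofReal_mul p3, ENNReal.ofReal_add (mul_nonneg p2 (mul_nonneg p3 p1))
          (mul_nonneg hJ0.le (mul_nonneg p3 hτ.le)), ENNReal.ofReal_mul p2, ENNReal.ofReal_mul hJ0.le,
          ENNReal.ofReal_mul p3, ENNReal.ofReal_mul p3]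

lemma small_WvB {c K1 A : ℝ} (hc : 0 < c) (hK1 : 0 < K1) (hA : 0 ≤ A) {r0 : ℝ} (hr0 : 2 < r0) {ρ : ℝ} (hρ : 0 < ρ) :
    ∃ (J : ℕ) (τ : ℝ), 1 ≤ J ∧ 0 < τ ∧ τ ≤ ρ ∧ 16 * (Real.sqrt (c / J) * Real.sqrt K1 * A) ≤ ρ ∧ ∀ r, r0 ≤ r →
      15 * (2 * ENNReal.ofReal (72 * Real.pi * K1 / J)) + WvB c K1 A τ J r + 2 * ENNReal.ofReal τ ≤
        ENNReal.ofReal ρ := by
  have hpi := Real.pi_pos
  have hy : 0 < 1 / 2 - 1 / r0 := by
    have : 1 / r0 < 1 / 2 := one_div_lt_one_div_of_lt (by norm_num) hr0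
    linarith
  have t1 : Tendsto (fun J : ℕ => ((J : ℕ) : ℝ) ^ (-(1 / 2 - 1 / r0))) atTop (𝓝 0) :=
    (tendsto_rpow_neg_atTop hy).comp tendsto_natCast_atTop_atTop
  have t2 : Tendsto (fun J : ℕ => 16 * ((15 : ℝ) ^ (1 / r0) * Real.sqrt c * Real.sqrt K1 * A) *
      ((J : ℕ) : ℝ) ^ (-(1 / 2 - 1 / r0))) atTop (𝓝 0) := by
    have := t1.const_mul (16 * ((15 : ℝ) ^ (1 / r0) * Real.sqrt c * Real.sqrt K1 * A))
    rwa [mul_zero] at this
  have t3 : Tendsto (fun J : ℕ => 30 * (72 * Real.pi * K1 / ((J : ℕ) : ℝ))) atTop (𝓝 0) := by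
    have h1 : Tendsto (fun J : ℕ => (30 * (72 * Real.pi * K1)) * (1 / ((J : ℕ) : ℝ))) atTop (𝓝 0) := by
      have := tendsto_one_div_atTop_nhds_zero_nat.const_mul (30 * (72 * Real.pi * K1))
      rwa [mul_zero] at this
    refine h1.congr fun J => by ring
  have hρ3 : 0 < ρ / 3 := by positivity
  obtain ⟨J, ⟨⟨hJ2, hJ3⟩, hJ1⟩⟩ := (((t2.eventually (gt_mem_nhds hρ3)).and
    (t3.eventually (gt_mem_nhds hρ3))).and (eventually_ge_atTop 1)).exists
  have hJr : (1 : ℝ) ≤ J := by exact_mod_cast hJ1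
  have hJ0 : (0 : ℝ) < J := by linarith
  set P := 4 * (15 * J : ℝ) ^ (1 / r0) + 60 * J + 2 with hP
  have hPp : 0 < P := by positivity
  set τ := min ρ (ρ / 3 / P)
  have hτ : 0 < τ := lt_min hρ (by positivity)
  have hτ2 : τ * P ≤ ρ / 3 := by
    have : τ ≤ ρ / 3 / P := min_le_right _ _
    rwa [le_div_iff₀ hPp] at this
  have e3 : (15 * J : ℝ) ^ (1 / r0) * Real.sqrt (c / J) =
      (15 : ℝ) ^ (1 / r0) * Real.sqrt c * (J : ℝ) ^ (-(1 / 2 - 1 / r0)) := by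
    rw [Real.mul_rpow (by norm_num) hJ0.le, Real.sqrt_div hc.le, Real.sqrt_eq_rpow (J : ℝ)]
    have e4 : (J : ℝ) ^ (-(1 / 2 - 1 / r0)) = (J : ℝ) ^ (1 / r0) / (J : ℝ) ^ (1 / 2 : ℝ) := by
      rw [← Real.rpow_sub hJ0]; congr 1; ring
    rw [e4]; ring
  refine ⟨J, τ, hJ1, hτ, min_le_left _ _, ?_, fun r hr => ?_⟩
  · have h1 : (1 : ℝ) ≤ (15 * J : ℝ) ^ (1 / r0) := Real.one_le_rpow (by linarith) (by positivity)
    have h2 : 0 ≤ Real.sqrt (c / J) * Real.sqrt K1 * A := by positivity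
    calc 16 * (Real.sqrt (c / J) * Real.sqrt K1 * A)
        ≤ 16 * ((15 * J : ℝ) ^ (1 / r0) * (Real.sqrt (c / J) * Real.sqrt K1 * A)) := by
          have := le_mul_of_one_le_left h2 h1
          linarith
      _ = 16 * (((15 * J : ℝ) ^ (1 / r0) * Real.sqrt (c / J)) * Real.sqrt K1 * A) := by ring
      _ = 16 * ((15 : ℝ) ^ (1 / r0) * Real.sqrt c * Real.sqrt K1 * A) * (J : ℝ) ^ (-(1 / 2 - 1 / r0)) := by
          rw [e3]; ring
      _ ≤ ρ := by linarith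
  have h1 := WvB_le (K1 := K1) hc hA hτ hJ1 hr0 hr
  have e1 : (15 : ℝ≥0∞) * (2 * ENNReal.ofReal (72 * Real.pi * K1 / J)) =
      ENNReal.ofReal (30 * (72 * Real.pi * K1 / J)) := by
    rw [← mul_assoc, show (15 : ℝ≥0∞) * 2 = ENNReal.ofReal 30 by norm_num, ← ENNReal.ofReal_mul (by norm_num)]
  have e2 : (2 : ℝ≥0∞) * ENNReal.ofReal τ = ENNReal.ofReal (2 * τ) := by
    rw [show (2 : ℝ≥0∞) = ENNReal.ofReal 2 by simp, ← ENNReal.ofReal_mul (by norm_num)]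
  rw [e1, e2]
  refine (add_le_add (add_le_add le_rfl h1) le_rfl).trans ?_
  rw [← ENNReal.ofReal_add (by positivity) (by positivity), ← ENNReal.ofReal_add (by positivity) (by positivity)]
  apply ENNReal.ofReal_le_ofReal
  have e5 : 2 * ((15 * J : ℝ) ^ (1 / r0) * (2 * (4 * Real.sqrt (c / J) * Real.sqrt K1 * A + τ)) +
      (15 * J) * (2 * τ)) = 16 * ((15 : ℝ) ^ (1 / r0) * Real.sqrt c * Real.sqrt K1 * A) *
      (J : ℝ) ^ (-(1 / 2 - 1 / r0)) + τ * (4 * (15 * J : ℝ) ^ (1 / r0) + 60 * J) := by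
    calc _ = 16 * ((15 * J : ℝ) ^ (1 / r0) * Real.sqrt (c / J)) * Real.sqrt K1 * A +
          τ * (4 * (15 * J : ℝ) ^ (1 / r0) + 60 * J) := by ring
      _ = _ := by rw [e3]; ring
  rw [e5]
  have e6 : τ * P = τ * (4 * (15 * J : ℝ) ^ (1 / r0) + 60 * J) + 2 * τ := by rw [hP]; ring
  linarith

/-- coefficient sequences of smooth mean free divergence free fields -/
structure SD (V : K → C3) : Prop where
  sym : Sym V
  z : V 0 = 0
  rr : RR fun k => ‖V k‖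
  dt : ∀ k, dt k (V k) = 0

lemma SD.sub {V W : K → C3} (hV : SD V) (hW : SD W) : SD (V - W) where
  sym := hV.sym.sub hW.sym
  z := by rw [Pi.sub_apply, hV.z, hW.z, sub_zero]
  rr := (hV.rr.add hW.rr).mono (fun _ => norm_nonneg _) fun k => norm_sub_le _ _
  dt := fun k => by
    have e1 := hV.dt k
    have e2 := hW.dt k
    unfold NS.dt at e1 e2 ⊢
    simp only [Pi.sub_apply, mul_sub, Finset.sum_sub_distrib]
    rw [e1, e2, sub_zero]

lemma SD.add {V W : K → C3} (hV : SD V) (hW : SD W) : SD (V + W) where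
  sym := hV.sym.add hW.sym
  z := by rw [Pi.add_apply, hV.z, hW.z, add_zero]
  rr := (hV.rr.add hW.rr).mono (fun _ => norm_nonneg _) fun k => norm_add_le _ _
  dt := fun k => by
    have e1 := hV.dt k
    have e2 := hW.dt k
    unfold NS.dt at e1 e2 ⊢
    simp only [Pi.add_apply, mul_add, Finset.sum_add_distrib]
    rw [e1, e2, add_zero]

lemma N_le_pw (k : K) : (H459R3.NS.N k : ℝ) ≤ pw k := by
  have h1 : (H459R3.NS.N k : ℝ) ≤ l1 k := by
    have h2 : H459R3.NS.N k ≤ ∑ i, (k i).natAbs := by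
      unfold H459R3.NS.N
      exact Finset.sup_le fun i hi => Finset.single_le_sum (f := fun i => (k i).natAbs)
        (fun _ _ => Nat.zero_le _) hi
    have h3 : ((∑ i, (k i).natAbs : ℕ) : ℝ) = l1 k := by
      unfold l1
      push_cast
      refine Finset.sum_congr rfl fun i _ => ?_
      rw [Nat.cast_natAbs, Int.cast_abs]
    rw [← h3]
    exact_mod_cast h2
  unfold pw; linarith

lemma SD.field {V : K → C3} (h : SD V) : ∃ G : Fin 3 → E3 → ℝ, (∀ i, SP (G i)) ∧ (fun k i => fr (G i) k) = V := by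
  have hrap : ∀ i, Rap fun k => V k i := by
    intro i n
    refine (h.rr n).of_nonneg_of_le (fun k => by positivity) fun k => ?_
    have h1 := N_le_pw k
    have h2 : (0 : ℝ) ≤ H459R3.NS.N k := Nat.cast_nonneg _
    exact mul_le_mul (pow_le_pow_left₀ h2 h1 n) (norm_le_pi_norm _ i) (norm_nonneg _)
      (pow_nonneg (pw_pos k).le n)
  choose G hG hGS hGf using fun i => exists_SP (hrap i) (fun k => h.sym k i)
  refine ⟨G, hG, ?_⟩
  funext k i
  rw [hGf i]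

/-- One step. -/
theorem step_all {c : ℝ} (hc : 0 < c) {V D : K → C3} (hV : SD V) (hD : SD D)
    {a : Wt} (ha : Sup a) {w : Fam} (hw : Sol c a D w)
    {r0 ρ dl : ℝ} (hr0 : 2 < r0) (hρ : 0 < ρ) (hdl : 0 < dl) :
    ∃ D' : K → C3, SD D' ∧
      ∃ a' : Wt, Sup a' ∧ ∃ u : Fam, Sol c a' D' u ∧
        LNd dl (u - w) ≤ ENNReal.ofReal ρ ∧
        (∀ t, 0 < t → LW t (u - w) ≤ ENNReal.ofReal ρ) ∧
        ∀ r : ℝ, r0 ≤ r → critNorm r (D' - V) ≤ ENNReal.ofReal ρ ∧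
          ∀ N : (K → C3) → ℝ≥0∞, GoodN N → (∀ x, N x ≤ critNorm r x) → ∀ t, 0 ≤ t →
            N (at' u t - V) ≤ N (at' w t - D) + N (D - V) + ENNReal.ofReal ρ := by
  obtain ⟨Cg, hCg, hcut⟩ := exists_cut2
  obtain ⟨g, hg, hA⟩ := hcut (1 / 4) (by norm_num) le_rfl
  have hg2 : ContDiff ℝ ∞ (fun y => g y ^ 2 - 1) := (hg.smooth.pow 2).sub contDiff_const
  obtain ⟨Q, -, hQ⟩ := gM_norm hg2 (fun y => by rw [hg.per])
  have hA0 : 0 ≤ Cg / Real.sqrt (1 / 4) := (wn_nonneg _).trans (hA 0 0)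
  have hDV := hD.sub hV
  obtain ⟨G, hG, hGf⟩ := hDV.field
  have hGk : ∀ k i, fr (G i) k = (D - V) k i := fun k i => congrFun (congrFun hGf k) i
  set K1 := ∑' k, ‖(fun i => fr (G i) k : C3)‖ / nk k + 1 with hK1
  have hK1p : 0 < K1 := by
    have : 0 ≤ ∑' k, ‖(fun i => fr (G i) k : C3)‖ / nk k :=
      tsum_nonneg fun k => div_nonneg (norm_nonneg _) (nk_nonneg k)
    linarith
  have h2c : 0 ≤ Real.sqrt (2 / c) := Real.sqrt_nonneg _
  set ρ' := ρ / (6 * (1 + Real.sqrt (2 / c))) with hρ'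
  have hρ'0 : 0 < ρ' := by positivity
  have hρ'1 : ρ' * (6 * (1 + Real.sqrt (2 / c))) = ρ := by rw [hρ']; field_simp
  have hρ'2 : ρ' ≤ ρ := by
    have : 0 ≤ ρ' * Real.sqrt (2 / c) := by positivity
    nlinarith
  obtain ⟨J, τ, hJ, hτ, hτρ, hJρ, hsm⟩ := small_WvB hc hK1p hA0 hr0 hρ'0
  have hwD : D = V + fun k i => fr (G i) k := by rw [hGf]; abel
  rw [hwD] at hw
  obtain ⟨B, hB, a', ha', u, hu, huL, huW, hu2⟩ := stage2 hc hg hA hQ hG
    (fun k => by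
      have := hDV.dt k
      unfold NS.dt at this
      simp_rw [hGk]
      exact this)
    (fun i => by rw [hGk, hDV.z]; rfl) ha hw hK1p (by rw [hK1]; linarith) hJ hτ hdl
  have eB : (V + cF fun i => fr (B i)) - V = cF fun i => fr (B i) := by abel
  have hVs := hV
  have hcF : SD (cF fun i => fr (B i)) := by
    have hcu : (cF fun i => fr (B i)) = fun k i => fr (cu B i) k := by
      funext k i
      exact (fr_cu hB i k).symm
    refine ⟨?_, cF_zero _, ?_, cF_div _⟩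
    · rw [hcu]
      intro k i
      exact fr_neg _ _
    · intro m
      have := rap_cF hB m
      simpa using this
  refine ⟨V + cF fun i => fr (B i), hV.add hcF, a', ha', u, hu,
    huL.trans (ENNReal.ofReal_le_ofReal (hτρ.trans hρ'2)), fun t ht => ?_, fun r hr => ?_⟩
  · refine (huW t ht).trans (ENNReal.ofReal_le_ofReal ?_)
    have h1 : 16 * (Real.sqrt (c / J) * Real.sqrt K1 * (Cg / Real.sqrt (1 / 4))) * Real.sqrt (2 / c) ≤
        ρ' * Real.sqrt (2 / c) := mul_le_mul_of_nonneg_right hJρ h2c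
    have h2 : τ * Real.sqrt (2 / c) ≤ ρ' * Real.sqrt (2 / c) := mul_le_mul_of_nonneg_right hτρ h2c
    have h3 : 0 ≤ ρ' * Real.sqrt (2 / c) := by positivity
    calc (4 * Real.sqrt (c / J) * Real.sqrt K1 * (Cg / Real.sqrt (1 / 4)) + τ) * Real.sqrt (2 / c) * 4 + 2 * τ
        = 16 * (Real.sqrt (c / J) * Real.sqrt K1 * (Cg / Real.sqrt (1 / 4))) * Real.sqrt (2 / c) +
          4 * (τ * Real.sqrt (2 / c)) + 2 * τ := by ring
      _ ≤ ρ' * Real.sqrt (2 / c) + 4 * (ρ' * Real.sqrt (2 / c)) + 2 * ρ' := by linarith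
      _ ≤ ρ' * (6 * (1 + Real.sqrt (2 / c))) := by nlinarith
      _ = ρ := hρ'1
  · rw [eB]
    obtain ⟨h1, h2⟩ := hu2 r (by linarith)
    have h3 := (hsm r hr).trans (ENNReal.ofReal_le_ofReal hρ'2)
    refine ⟨h1.trans (le_trans ?_ h3), fun N hN hNr t ht => ?_⟩
    · exact (le_add_left le_rfl).trans (le_add_right le_rfl)
    · have h4 := h2 N hN hNr t ht
      rw [← hwD, hGf] at h4
      exact h4.trans (add_le_add le_rfl h3)

end Pool.Agent.K1H11.NS
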