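import Pool.Agent.K1H11.NS2.Shift
import Pool.Agent.K1H11.NS2.Late2
import Pool.Agent.K1H11.NS2.Open

/-!
# Time shifts, continuous dependence and smoothing
-/

open MeasureTheory Set Filter Topology
open scoped ENNReal NNReal

namespace Pool.Agent.K1H11.NS

/-- time shift of a family -/
def sh (t0 : ℝ) (u : Fam) : Fam := fun k t => u k (t0 + max t 0)

lemma sh_cf {u : Fam} (hu : CF u) (t0 : ℝ) : CF (sh t0 u) := fun k => (hu k).comp (by fun_prop)

lemma at'_sh (u : Fam) (t0 : ℝ) {t : ℝ} (ht : 0 ≤ t) : at' (sh t0 u) t = at' u (t0 + t) := by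
  funext k
  show u k (t0 + max t 0) = _
  rw [max_eq_left ht]
  rfl

lemma Sol.sh {c : ℝ} {a : Wt} (ha : Sup a) {V : K → C3} {u : Fam} (h : Sol c a V u) {t0 : ℝ} (h0 : 0 ≤ t0) :
    Sol c a (at' u t0) (sh t0 u) where
  cf := sh_cf h.cf t0
  z := fun t => h.z _
  sym := fun t => h.sym (t0 + max t 0)
  dom := by
    obtain ⟨b, hb, hb'⟩ := h.dom
    exact ⟨b, hb, fun k t => hb' k _⟩
  l2 := by
    refine ne_top_of_le_ne_top h.l2 ?_
    unfold LN
    refine ENNReal.rpow_le_rpow ?_ (by norm_num)
    set φ : ℝ → ℝ≥0∞ := fun t => NW (Wa a) (at' u t) ^ (2 : ℝ)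
    calc ∫⁻ t in Ioi 0, NW (Wa a) (at' (NS.sh t0 u) t) ^ (2 : ℝ)
        = ∫⁻ t in Ioi 0, φ (t0 + t) := by
            refine setLIntegral_congr_fun measurableSet_Ioi fun t ht => ?_
            simp only [φ]
            rw [at'_sh u t0 (le_of_lt ht)]
      _ = ∫⁻ t, (Ioi (0 : ℝ)).indicator (fun t => φ (t0 + t)) t := (lintegral_indicator measurableSet_Ioi _).symm
      _ = ∫⁻ t, (Ioi t0).indicator φ (t0 + t) := by
            refine lintegral_congr fun t => ?_
            by_cases ht : 0 < t
            · rw [indicator_of_mem (show t ∈ Ioi (0 : ℝ) from ht),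
                indicator_of_mem (show t0 + t ∈ Ioi t0 by simpa using ht)]
            · rw [indicator_of_notMem (by simpa using ht), indicator_of_notMem (by simpa using ht)]
      _ = ∫⁻ t, (Ioi t0).indicator φ t := lintegral_add_left_eq_self _ t0
      _ = ∫⁻ t in Ioi t0, φ t := lintegral_indicator measurableSet_Ioi _
      _ ≤ _ := lintegral_mono_set (Ioi_subset_Ioi h0)
  eq := fun k t => by
    have hm := le_max_right t 0
    have hB := Bt_cont h.cf (h.dom' ha)
    have e := sol_shift hB h k h0 (t := t0 + max t 0) (by linarith)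
    show u k (t0 + max t 0) = _
    rw [e]
    have e1 : t0 + max t 0 - t0 = max t 0 := by ring
    rw [e1]
    congr 1
    have e2 := intervalIntegral.integral_comp_add_left
      (fun s => Real.exp (-(c * sq k * (t0 + max t 0 - s))) • Bt u k s) t0 (a := 0) (b := max t 0)
    rw [add_zero] at e2
    rw [← e2]
    unfold Duh
    refine intervalIntegral.integral_congr fun s hs => ?_
    rw [uIcc_of_le hm] at hs
    have e3 : Bt (NS.sh t0 u) k s = Bt u k (t0 + s) := by
      unfold Bt
      rw [at'_sh u t0 hs.1]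
    show _ = Real.exp (-(c * sq k * (max t 0 - s))) • Bt (NS.sh t0 u) k s
    rw [e3]
    congr 3
    ring

/-- Continuous dependence on bounded time intervals. -/
lemma cont_dep {c : ℝ} (hc : 0 < c) {w : Fam} (hw : CF w) (hwd : Dom w) {T : ℝ} (hwD : DS c T w) :
    ∃ C : ℝ, 0 < C ∧ ∀ u : Fam, CF u → Dom u → DS c T u → ∀ α : ℝ, 0 < α → α * C ≤ 1 → An (u - w) 0 ≤ α →
      ∀ t, 0 ≤ t → t ≤ T → An (u - w) t ≤ C * α := by
  have hwd' := hwd
  obtain ⟨b, hb, hb'⟩ := hwd
  have hMw : ∀ s, An w s ≤ ∑' k, b k := fun s =>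
    Summable.tsum_le_tsum (fun k => hb' k s) (hb.of_nonneg_of_le (fun _ => norm_nonneg _) fun k => hb' k s) hb
  obtain ⟨hh, a1, -, a3⟩ := exists_short hc (Mw := ∑' k, b k) (b := 1) ((An_nonneg w 0).trans (hMw 0)) one_pos
  obtain ⟨n, hn⟩ := exists_nat_ge (T / hh)
  rw [div_le_iff₀ a1] at hn
  refine ⟨2 ^ n, by positivity, fun u hu hud huD α hα hαC h0 => ?_⟩
  have key : ∀ j : ℕ, j ≤ n → ∀ t, 0 ≤ t → t ≤ T → t ≤ j * hh → An (u - w) t ≤ 2 ^ j * α := by
    intro j
    induction j with
    | zero =>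
      intro _ t t0 _ tn
      have : t = 0 := le_antisymm (by simpa using tn) t0
      subst this
      simpa using h0
    | succ j ih =>
      intro hj t t0 tT tn
      have hp : (2 : ℝ) ^ j * α ≤ 2 ^ (j + 1) * α := by
        apply mul_le_mul_of_nonneg_right _ hα.le
        exact pow_le_pow_right₀ (by norm_num) (by omega)
      by_cases hcase : t ≤ j * hh
      · exact (ih (by omega) t t0 tT hcase).trans hp
      · push Not at hcase
        have hnn : 0 ≤ (j : ℝ) * hh := by positivity
        have e0 := ih (by omega) (j * hh) hnn (hcase.le.trans tT) le_rfl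
        have hle : (2 : ℝ) ^ j * α ≤ 1 := by
          refine le_trans ?_ hαC
          rw [mul_comm]
          apply mul_le_mul_of_nonneg_left _ hα.le
          exact pow_le_pow_right₀ (by norm_num) (by omega)
        have e1 := short hc hu hud hw hwd' huD hwD (fun s _ _ => hMw s) a3 (α := 2 ^ j * α) (by positivity)
          hle hnn e0 hcase.le (by push_cast at tn; linarith) tT
        calc An (u - w) t ≤ 2 * (2 ^ j * α) := e1
          _ = 2 ^ (j + 1) * α := by ring
  intro t t0 tT
  exact key n le_rfl t t0 tT (tT.trans hn)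

end Pool.Agent.K1H11.NS
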