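import Pool.Agent.K1H11.NS5.Norms
import Pool.Agent.K1H11.NS6.Many2

/-!
# Changing the initial velocity by fast waves, with a description for short times
-/

open MeasureTheory Set Filter Topology
open scoped ENNReal NNReal ContDiff

namespace Pool.Agent.K1H11.NS

open H459R3.NS (ee fc fr cube S SP Per pd D Rap)
open Pool.Agent.H356R3.NS (shellSum critNorm leiLin)

lemma leiLin_le_YN (x : K → C3) : leiLin x ≤ YN x := by
  rw [YN_eq]
  unfold leiLin
  refine ENNReal.tsum_le_tsum fun k => ?_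
  by_cases hk : k = 0
  · subst hk; rw [if_pos rfl]; exact zero_le
  · rw [if_neg hk, ENNReal.ofReal_div_of_pos (nk_pos hk), ofReal_norm]
    exact le_rfl

lemma GoodN.sum {N : (K → C3) → ℝ≥0∞} (h : GoodN N) {ι : Type*} (s : Finset ι) (x : ι → K → C3) :
    N (∑ i ∈ s, x i) ≤ ∑ i ∈ s, N (x i) := by
  classical
  induction s using Finset.induction_on with
  | empty => simp [h.zero]
  | insert a s ha ih =>
    rw [Finset.sum_insert ha, Finset.sum_insert ha]
    exact (h.add _ _).trans (add_le_add le_rfl ih)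

lemma GoodN.smul_le {N : (K → C3) → ℝ≥0∞} (h : GoodN N) {c : ℝ} (hc : |c| ≤ 1) (x : K → C3) :
    N (c • x) ≤ N x := by
  refine (h.smul c x).trans ?_
  calc _ ≤ 1 * N x := mul_le_mul' (by rw [ENNReal.ofReal_le_one]; exact hc) le_rfl
    _ = _ := one_mul _

/-- summation by parts -/
lemma block_sum {E : Type*} [AddCommGroup E] [Module ℝ E] (a : ℕ → ℝ) (H : ℕ → E)
    (hH : ∀ q s, H (15 * q + s) = H s) (J : ℕ) :
    ∑ i ∈ Finset.range (15 * J), a i • H i =
      (∑ q ∈ Finset.range J, a (15 * q)) • (∑ s ∈ Finset.range 15, H s) +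
        ∑ s ∈ Finset.range 15, (∑ q ∈ Finset.range J, (a (15 * q + s) - a (15 * q))) • H s := by
  induction J with
  | zero => simp
  | succ J ih =>
    rw [Nat.mul_succ, Finset.sum_range_add, ih, Finset.sum_range_succ (fun q => a (15 * q)) J, add_smul]
    have e1 : ∑ s ∈ Finset.range 15, (∑ q ∈ Finset.range (J + 1), (a (15 * q + s) - a (15 * q))) • H s =
        ∑ s ∈ Finset.range 15, (∑ q ∈ Finset.range J, (a (15 * q + s) - a (15 * q))) • H s +
        ∑ s ∈ Finset.range 15, (a (15 * J + s) - a (15 * J)) • H s := by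
      rw [← Finset.sum_add_distrib]
      refine Finset.sum_congr rfl fun s _ => ?_
      rw [Finset.sum_range_succ, add_smul]
    have e2 : ∑ s ∈ Finset.range 15, a (15 * J + s) • H (15 * J + s) =
        a (15 * J) • (∑ s ∈ Finset.range 15, H s) + ∑ s ∈ Finset.range 15, (a (15 * J + s) - a (15 * J)) • H s := by
      rw [Finset.smul_sum, ← Finset.sum_add_distrib]
      refine Finset.sum_congr rfl fun s _ => ?_
      rw [hH, sub_smul]
      abel
    rw [e1, e2]
    abel

/-- The corrections add up to a small remainder. -/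
lemma corr_bound {N : (K → C3) → ℝ≥0∞} (hN : GoodN N) {a : ℕ → ℝ} (ha : Antitone a) (ha0 : ∀ i, 0 ≤ a i)
    (ha1 : ∀ i, a i ≤ 1) (H : ℕ → K → C3) (hH : ∀ q s, H (15 * q + s) = H s) {J : ℕ} (hJ : 1 ≤ J) {x : K → C3}
    (hx : ∑ s ∈ Finset.range 15, H s = (-(1 / (J : ℝ))) • x) {B : ℝ≥0∞} (hB : ∀ s, N (H s) ≤ B) :
    N (x + ∑ i ∈ Finset.range (15 * J), a i • H i) ≤ N x + 15 * B := by
  have hJ0 : (0 : ℝ) < J := by exact_mod_cast hJ
  have e : x + ∑ i ∈ Finset.range (15 * J), a i • H i =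
      (1 - (∑ q ∈ Finset.range J, a (15 * q)) / J) • x +
        ∑ s ∈ Finset.range 15, (∑ q ∈ Finset.range J, (a (15 * q + s) - a (15 * q))) • H s := by
    rw [block_sum a H hH J, hx, smul_smul, sub_smul, one_smul]
    have : (∑ q ∈ Finset.range J, a (15 * q)) * -(1 / (J : ℝ)) = -((∑ q ∈ Finset.range J, a (15 * q)) / J) := by
      ring
    rw [this, neg_smul]
    abel
  rw [e]
  have s0 : 0 ≤ ∑ q ∈ Finset.range J, a (15 * q) := Finset.sum_nonneg fun q _ => ha0 _
  have s1 : ∑ q ∈ Finset.range J, a (15 * q) ≤ J := by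
    refine (Finset.sum_le_sum fun q _ => ha1 (15 * q)).trans (le_of_eq ?_)
    simp
  refine (hN.add _ _).trans (add_le_add (hN.smul_le ?_ x) ((hN.sum _ _).trans ?_))
  · rw [abs_le]
    have h1 : (∑ q ∈ Finset.range J, a (15 * q)) / J ≤ 1 := by rw [div_le_one hJ0]; exact s1
    have h2 : 0 ≤ (∑ q ∈ Finset.range J, a (15 * q)) / J := div_nonneg s0 hJ0.le
    constructor <;> linarith
  · have h3 : ∀ s ∈ Finset.range 15,
        N ((∑ q ∈ Finset.range J, (a (15 * q + s) - a (15 * q))) • H s) ≤ B := by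
      intro s hs
      have hs15 : s < 15 := Finset.mem_range.1 hs
      refine (hN.smul_le ?_ _).trans (hB s)
      have u1 : ∑ q ∈ Finset.range J, (a (15 * q + s) - a (15 * q)) ≤ 0 :=
        Finset.sum_nonpos fun q _ => sub_nonpos.2 (ha (by omega))
      have u2 : -1 ≤ ∑ q ∈ Finset.range J, (a (15 * q + s) - a (15 * q)) := by
        have t1 : ∑ q ∈ Finset.range J, (a (15 * (q + 1)) - a (15 * q)) ≤
            ∑ q ∈ Finset.range J, (a (15 * q + s) - a (15 * q)) :=
          Finset.sum_le_sum fun q _ => sub_le_sub_right (ha (by omega)) _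
        rw [Finset.sum_range_sub (fun q => a (15 * q)) J] at t1
        have t2 := ha0 (15 * J)
        have t3 := ha1 (15 * 0)
        linarith
      rw [abs_le]
      constructor <;> linarith
    refine (Finset.sum_le_sum h3).trans (le_of_eq ?_)
    simp

/-- The norms of sums of waves with very different frequencies. -/
lemma wave_crit {n : ℕ} {N : ℕ → ℕ} (hN1 : ∀ i < n, 1 ≤ N i) (hN : ∀ i j, i < j → j < n → 16 * N i ≤ N j)
    {w : ℕ → K → C3} (hw : ∀ i < n, SN (w i)) {A τ : ℝ} (hA : ∀ i < n, ∑' k, ‖w i k‖ / nk k ≤ A)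
    (hτ : ∀ i < n, ∑' k, (if nk k < (N i : ℝ) / 2 ∨ 2 * (N i : ℝ) ≤ nk k then ‖w i k‖ / nk k else 0) ≤ τ)
    {r : ℝ} (hr : 1 ≤ r) :
    critNorm r (∑ i ∈ Finset.range n, w i) ≤
      2 * ((n : ℝ≥0∞) ^ (1 / r) * (2 * ENNReal.ofReal A) + n * (2 * ENNReal.ofReal τ)) := by
  classical
  refine crit_bound hr w (fun i => {j | (N i : ℝ) / 4 < 2 ^ j ∧ (2 : ℝ) ^ j < 2 * N i}) ?_ ?_ ?_
  · intro i hi
    have h1 := shells_le (w i) (fun _ => True) ∅ (fun _ _ _ _ => trivial)
    simp only [Set.mem_empty_iff_false, if_false, if_true] at h1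
    refine h1.trans (mul_le_mul' le_rfl ?_)
    rw [← ENNReal.ofReal_tsum_of_nonneg (fun k => div_nonneg (norm_nonneg _) (nk_nonneg k))
      (summ_div_nk (hw i hi))]
    exact ENNReal.ofReal_le_ofReal (hA i hi)
  · intro i hi
    have h1 := shells_le (w i) (fun k => nk k < (N i : ℝ) / 2 ∨ 2 * (N i : ℝ) ≤ nk k)
      {j | (N i : ℝ) / 4 < 2 ^ j ∧ (2 : ℝ) ^ j < 2 * N i} (fun j hj k hk => by
        have a1 := shell_le hk
        have a2 := shell_lt hk
        rw [mem_ofPred_eq, not_and_or, not_lt, not_lt] at hj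
        rcases hj with hj | hj
        · left
          rw [pow_succ] at a2
          linarith
        · right; linarith)
    refine h1.trans (mul_le_mul' le_rfl ?_)
    have h2 : ∀ k, (if nk k < (N i : ℝ) / 2 ∨ 2 * (N i : ℝ) ≤ nk k then
        ENNReal.ofReal (‖w i k‖ / nk k) else 0) =
        ENNReal.ofReal (if nk k < (N i : ℝ) / 2 ∨ 2 * (N i : ℝ) ≤ nk k then ‖w i k‖ / nk k else 0) := by
      intro k
      split_ifs <;> simp
    simp_rw [h2]
    rw [← ENNReal.ofReal_tsum_of_nonneg]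
    · exact ENNReal.ofReal_le_ofReal (hτ i hi)
    · intro k
      split_ifs
      · exact div_nonneg (norm_nonneg _) (nk_nonneg k)
      · exact le_rfl
    · refine (summ_div_nk (hw i hi)).of_nonneg_of_le (fun k => ?_) fun k => ?_
      · split_ifs
        · exact div_nonneg (norm_nonneg _) (nk_nonneg k)
        · exact le_rfl
      · split_ifs
        · exact le_rfl
        · exact div_nonneg (norm_nonneg _) (nk_nonneg k)
  · have key : ∀ i i' j, i < i' → i' < n → (2 : ℝ) ^ j < 2 * N i → (N i' : ℝ) / 4 < 2 ^ j → False := by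
      intro i i' j hii hi' h1 h2
      have h3 : (16 : ℝ) * N i ≤ N i' := by exact_mod_cast hN i i' hii hi'
      have h4 : (1 : ℝ) ≤ N i := by exact_mod_cast hN1 i (by omega)
      linarith
    intro i i' j hi hi' hj hj'
    rw [mem_ofPred_eq] at hj hj'
    rcases lt_trichotomy i i' with hlt | heq | hgt
    · exact absurd (key i i' j hlt hi' hj.2 hj'.1) id
    · exact heq
    · exact absurd (key i' i j hgt hi hj'.2 hj.1) id

/-- the same with factors -/
lemma wave_crit' {n : ℕ} {N : ℕ → ℕ} (hN1 : ∀ i < n, 1 ≤ N i) (hN : ∀ i j, i < j → j < n → 16 * N i ≤ N j)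
    {w : ℕ → K → C3} (hw : ∀ i < n, SN (w i)) {A τ : ℝ} (hA : ∀ i < n, ∑' k, ‖w i k‖ / nk k ≤ A)
    (hτ : ∀ i < n, ∑' k, (if nk k < (N i : ℝ) / 2 ∨ 2 * (N i : ℝ) ≤ nk k then ‖w i k‖ / nk k else 0) ≤ τ)
    {b : ℕ → ℝ} (hb : ∀ i, |b i| ≤ 1) {r : ℝ} (hr : 1 ≤ r) :
    critNorm r (∑ i ∈ Finset.range n, b i • w i) ≤
      2 * ((n : ℝ≥0∞) ^ (1 / r) * (2 * ENNReal.ofReal A) + n * (2 * ENNReal.ofReal τ)) := by
  have hle : ∀ i k, ‖(b i • w i) k‖ ≤ ‖w i k‖ := by
    intro i k
    rw [Pi.smul_apply, norm_smul, Real.norm_eq_abs]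
    exact mul_le_of_le_one_left (norm_nonneg _) (hb i)
  have hle2 : ∀ i k, ‖(b i • w i) k‖ / nk k ≤ ‖w i k‖ / nk k := fun i k =>
    div_le_div_of_nonneg_right (hle i k) (nk_nonneg k)
  have hsn : ∀ i < n, SN (b i • w i) := fun i hi =>
    (hw i hi).of_nonneg_of_le (fun _ => norm_nonneg _) (hle i)
  refine wave_crit hN1 hN hsn (fun i hi => ?_) (fun i hi => ?_) hr
  · exact ((summ_div_nk (hsn i hi)).tsum_le_tsum (hle2 i) (summ_div_nk (hw i hi))).trans (hA i hi)
  · have hs : ∀ x : K → C3, SN x → Summable fun k =>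
        (if nk k < (N i : ℝ) / 2 ∨ 2 * (N i : ℝ) ≤ nk k then ‖x k‖ / nk k else 0) := by
      intro x hx
      refine (summ_div_nk hx).of_nonneg_of_le (fun k => ?_) fun k => ?_
      · split_ifs
        · exact div_nonneg (norm_nonneg _) (nk_nonneg k)
        · exact le_rfl
      · split_ifs
        · exact le_rfl
        · exact div_nonneg (norm_nonneg _) (nk_nonneg k)
    refine ((hs _ (hsn i hi)).tsum_le_tsum (fun k => ?_) (hs _ (hw i hi))).trans (hτ i hi)
    split_ifs
    · exact hle2 i k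
    · exact le_rfl

lemma hv_LL {c β : ℝ} (hc : 0 < c) {f : E3 → ℝ} (hf : SP f) {e : Fin 3 → ℝ} (he : ∀ i, |e i| ≤ 1) {cc : Fin 3}
    (hcc : e cc = 0) : leiLin (hv c β (fr f) e) ≤ ENNReal.ofReal (β ^ 2 / c * (18 * Real.pi) * wn f) := by
  have hpi := Real.pi_pos
  have hrr : RR fun k => ‖hv c β (fr f) e k‖ := hv_rr hc (rr_fr hf) he hcc
  rw [leiLin_eq hrr.summ]
  apply ENNReal.ofReal_le_ofReal
  unfold wn
  rw [← tsum_mul_left]
  refine (summ_div_nk hrr.summ).tsum_le_tsum (fun k => ?_) ((rr_fr hf).summ.mul_left _)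
  by_cases hk : k = 0
  · subst hk
    rw [nk_zero, div_zero]
    positivity
  · have hn := nk_pos hk
    have hn1 := one_le_nk hk
    rw [div_le_iff₀ hn]
    unfold hv
    rw [norm_smul, norm_smul, Real.norm_eq_abs, abs_neg, abs_of_nonneg (by positivity)]
    have h1 := bt_norm_le0 he hcc k
    have h2 : pw k ≤ 3 * nk k := by
      have := l1_le_nk k
      unfold pw; linarith
    calc β ^ 2 / c * (‖fr f k‖ * ‖bt k (ec e) (ec e)‖) ≤ β ^ 2 / c * (‖fr f k‖ * (6 * Real.pi * (3 * nk k))) := by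
          have : 6 * Real.pi * pw k ≤ 6 * Real.pi * (3 * nk k) := by gcongr
          gcongr
          exact h1.trans this
      _ = _ := by ring

end Pool.Agent.K1H11.NS
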