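import Pool.Agent.K1H11.NS6.Many2
import Pool.Agent.K1H11.NS2.Late2

/-!
# Norms on dyadic time windows
-/

open MeasureTheory Set Filter Topology
open scoped ENNReal NNReal

namespace Pool.Agent.K1H11.NS

/-- the norm in `L²((t/2, t); ℓ¹)` -/
noncomputable def LW (t : ℝ) (x : Fam) : ℝ≥0∞ :=
  LN (fun s => (Ioo (t / 2) t).indicator (fun s => NW (Wa Wt.one) (at' x s)) s)

lemma LW_add (t : ℝ) {x y : Fam} (hx : CF x) (hy : CF y) : LW t (x + y) ≤ LW t x + LW t y := by
  unfold LW
  have mx : Measurable fun s => (Ioo (t / 2) t).indicator (fun s => NW (Wa Wt.one) (at' x s)) s :=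
    (NW_meas _ hx).indicator measurableSet_Ioo
  have my : Measurable fun s => (Ioo (t / 2) t).indicator (fun s => NW (Wa Wt.one) (at' y s)) s :=
    (NW_meas _ hy).indicator measurableSet_Ioo
  refine (LN_mono fun s _ => ?_).trans (LN_add_le mx my)
  by_cases hs : s ∈ Ioo (t / 2) t
  · simp only [indicator_of_mem hs]
    exact NW_add_le _ _ _
  · simp only [indicator_of_notMem hs, add_zero, le_refl]

lemma LW_le_XN (t : ℝ) (x : Fam) : LW t x ≤ XN x :=
  LN_mono fun s _ => indicator_le_self _ _ s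

lemma LW_zero (t : ℝ) : LW t (0 : Fam) = 0 := by
  refine le_antisymm ((LW_le_XN t 0).trans (le_of_eq ?_)) zero_le
  have h0 : ∀ s, NW (Wa Wt.one) (at' (0 : Fam) s) = 0 := fun s => NW_zero _
  simp [XN, LN, h0]

lemma LW_sum (t : ℝ) (n : ℕ) (x : ℕ → Fam) (hx : ∀ i, CF (x i)) :
    CF (∑ i ∈ Finset.range n, x i) ∧ LW t (∑ i ∈ Finset.range n, x i) ≤ ∑ i ∈ Finset.range n, LW t (x i) := by
  induction n with
  | zero =>
    rw [Finset.sum_range_zero]
    exact ⟨fun k => continuous_const, by simp [LW_zero]⟩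
  | succ n ih =>
    obtain ⟨i1, i2⟩ := ih
    rw [Finset.sum_range_succ, Finset.sum_range_succ]
    exact ⟨fun k => (i1 k).add (hx n k), (LW_add t i1 (hx n)).trans (add_le_add i2 le_rfl)⟩

lemma LW_le_of {x : Fam} (hx : Dom x) {t M : ℝ} (ht : 0 < t) (hM : 0 ≤ M)
    (h : ∀ s ∈ Ioo (t / 2) t, An x s ≤ M) : LW t x ≤ ENNReal.ofReal (Real.sqrt t * M) := by
  unfold LW LN
  have h1 : ∫⁻ s in Ioi 0, ((Ioo (t / 2) t).indicator (fun s => NW (Wa Wt.one) (at' x s)) s) ^ (2 : ℝ) ≤
      ENNReal.ofReal (t * M ^ 2) := by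
    calc _ ≤ ∫⁻ s in Ioi 0, (Ioo (t / 2) t).indicator (fun _ => ENNReal.ofReal (M ^ 2)) s := by
          refine setLIntegral_mono' measurableSet_Ioi fun s _ => ?_
          by_cases hs : s ∈ Ioo (t / 2) t
          · rw [indicator_of_mem hs, indicator_of_mem hs, NW_Wa_zero]
            show (∑' k, ‖x k s‖ₑ) ^ (2 : ℝ) ≤ _
            rw [An_eq hx, ENNReal.rpow_two, ← ENNReal.ofReal_pow (An_nonneg _ s)]
            exact ENNReal.ofReal_le_ofReal (pow_le_pow_left₀ (An_nonneg _ _) (h s hs) 2)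
          · rw [indicator_of_notMem hs, indicator_of_notMem hs]
            simp
      _ ≤ ∫⁻ s, (Ioo (t / 2) t).indicator (fun _ => ENNReal.ofReal (M ^ 2)) s := setLIntegral_le_lintegral _ _
      _ = ENNReal.ofReal (M ^ 2) * ENNReal.ofReal (t - t / 2) := by
          rw [lintegral_indicator measurableSet_Ioo, setLIntegral_const, Real.volume_Ioo]
      _ ≤ _ := by
          rw [← ENNReal.ofReal_mul (by positivity)]
          apply ENNReal.ofReal_le_ofReal
          have : 0 ≤ M ^ 2 := by positivity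
          nlinarith
  calc _ ≤ (ENNReal.ofReal (t * M ^ 2)) ^ (1 / 2 : ℝ) := ENNReal.rpow_le_rpow h1 (by norm_num)
    _ = _ := by
        rw [ENNReal.ofReal_rpow_of_nonneg (by positivity) (by norm_num), ← Real.sqrt_eq_rpow,
          Real.sqrt_mul ht.le, Real.sqrt_sq hM]

lemma Ex_dom {lam : ℝ} (hl : 0 ≤ lam) {X : K → C3} (hX : SN X) : Dom (Ex lam X) := by
  refine ⟨fun k => ‖X k‖, hX, fun k t => ?_⟩
  unfold Ex
  rw [norm_smul, Real.norm_of_nonneg (Real.exp_pos _).le]
  apply mul_le_of_le_one_left (norm_nonneg _)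
  rw [Real.exp_le_one_iff]
  have : 0 ≤ lam * max t 0 := mul_nonneg hl (le_max_right _ _)
  linarith

lemma LW_Ex {lam t : ℝ} (hl : 0 < lam) (ht : 0 < t) {X : K → C3} (hX : SN X) :
    LW t (Ex lam X) ≤ ENNReal.ofReal (Real.sqrt t * ((∑' k, ‖X k‖) * Real.exp (-(lam * (t / 2))))) := by
  have h0 : 0 ≤ ∑' k, ‖X k‖ := tsum_nonneg fun _ => norm_nonneg _
  refine LW_le_of (Ex_dom hl.le hX) ht (by positivity) fun s hs => ?_
  have hs0 : 0 ≤ s := by have := hs.1; linarith
  unfold An
  rw [← tsum_mul_right]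
  have hs' : Summable fun k => ‖Ex lam X k s‖ := (Ex_dom hl.le hX).sn s
  have hX' : Summable fun k => ‖X k‖ := hX
  refine hs'.tsum_le_tsum (fun k => ?_) (hX'.mul_right _)
  unfold Ex
  rw [norm_smul, Real.norm_of_nonneg (Real.exp_pos _).le, max_eq_left hs0, mul_comm]
  apply mul_le_mul_of_nonneg_left _ (norm_nonneg _)
  apply Real.exp_le_exp.2
  have : lam * (t / 2) ≤ lam * s := mul_le_mul_of_nonneg_left hs.1.le hl.le
  linarith

/-- sums over separated numbers -/
lemma sep_sum {x : ℕ → ℝ} {n : ℕ} (h0 : ∀ i < n, 0 < x i) (h : ∀ i j, i < j → j < n → 2 * x i ≤ x j) :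
    ∑ i ∈ Finset.range n, min (x i) (1 / x i) ≤ 4 := by
  have key : ∀ m, m < n → (x m ≤ 1 → ∑ i ∈ Finset.range (m + 1), min (x i) (1 / x i) ≤ 2 * x m) ∧
      (1 < x m → ∑ i ∈ Finset.range (m + 1), min (x i) (1 / x i) ≤ 4 - 1 / x m) := by
    intro m
    induction m with
    | zero =>
      intro hm
      have hx := h0 0 hm
      simp only [zero_add, Finset.sum_range_one]
      refine ⟨fun _ => (min_le_left _ _).trans (by linarith), fun h1 => (min_le_right _ _).trans ?_⟩
      have : 1 / x 0 ≤ 1 := by rw [div_le_one hx]; exact h1.le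
      linarith
    | succ m ih =>
      intro hm
      obtain ⟨i1, i2⟩ := ih (by omega)
      have hx := h0 (m + 1) hm
      have hxm := h0 m (by omega)
      have hd := h m (m + 1) (by omega) hm
      rw [Finset.sum_range_succ]
      refine ⟨fun h1 => ?_, fun h1 => ?_⟩
      · have h2 := i1 (by linarith)
        have h3 : min (x (m + 1)) (1 / x (m + 1)) ≤ x (m + 1) := min_le_left _ _
        linarith
      · have h3 : min (x (m + 1)) (1 / x (m + 1)) ≤ 1 / x (m + 1) := min_le_right _ _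
        have h4 : 1 / x (m + 1) ≤ 1 := by rw [div_le_one hx]; exact h1.le
        rcases le_or_gt (x m) 1 with h5 | h5
        · have h2 := i1 h5
          linarith
        · have h2 := i2 h5
          have h6 : 2 * (1 / x (m + 1)) ≤ 1 / x m := by
            rw [mul_one_div, div_le_div_iff₀ hx hxm]
            linarith
          linarith
  rcases Nat.eq_zero_or_pos n with h1 | h1
  · subst h1; simp
  · obtain ⟨k1, k2⟩ := key (n - 1) (by omega)
    rw [Nat.sub_add_cancel h1] at k1 k2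
    have hx := h0 (n - 1) (by omega)
    rcases le_or_gt (x (n - 1)) 1 with h2 | h2
    · have := k1 h2; linarith
    · have := k2 h2
      have : 0 < 1 / x (n - 1) := by positivity
      linarith

lemma gauss_le {c y : ℝ} (hc : 0 < c) (hy : 0 < y) :
    y * Real.exp (-(c * y ^ 2 / 2)) ≤ Real.sqrt (2 / c) * min (Real.sqrt (c / 2) * y) (1 / (Real.sqrt (c / 2) * y)) := by
  have h1 : 0 < Real.sqrt (c / 2) := Real.sqrt_pos.2 (by positivity)
  have h2 : Real.sqrt (2 / c) * Real.sqrt (c / 2) = 1 := by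
    rw [← Real.sqrt_mul (by positivity)]
    have : 2 / c * (c / 2) = 1 := by field_simp
    rw [this, Real.sqrt_one]
  have h3 : 0 < Real.sqrt (2 / c) := Real.sqrt_pos.2 (by positivity)
  set z := Real.sqrt (c / 2) * y with hz
  have hz0 : 0 < z := by positivity
  have hzy : y = Real.sqrt (2 / c) * z := by
    rw [hz, ← mul_assoc, h2, one_mul]
  have hz2 : c * y ^ 2 / 2 = z ^ 2 := by
    rw [hz, mul_pow, Real.sq_sqrt (by positivity)]; ring
  rw [hz2]
  rw [mul_min_of_nonneg _ _ h3.le]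
  apply le_min
  · rw [← hzy]
    apply mul_le_of_le_one_right hy.le
    rw [Real.exp_le_one_iff]
    have : 0 ≤ z ^ 2 := by positivity
    linarith
  · have h4 : Real.exp (-(z ^ 2)) ≤ 1 / z ^ 2 := by
      rw [Real.exp_neg, one_div]
      apply inv_anti₀ (by positivity)
      have := Real.add_one_le_exp (z ^ 2)
      linarith
    calc y * Real.exp (-(z ^ 2)) ≤ y * (1 / z ^ 2) := mul_le_mul_of_nonneg_left h4 hy.le
      _ = Real.sqrt (2 / c) * (1 / z) := by
          rw [hzy]
          field_simp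

/-- The waves are small on each dyadic window. -/
lemma LW_waves {c t D1 : ℝ} (hc : 0 < c) (ht : 0 < t) (hD : 0 ≤ D1) {n : ℕ} {N : ℕ → ℕ} (hN1 : ∀ i < n, 1 ≤ N i)
    (hN : ∀ i j, i < j → j < n → 16 * N i ≤ N j) {W : ℕ → K → C3} (hW : ∀ i < n, SN (W i))
    (hb : ∀ i < n, ∑' k, ‖W i k‖ ≤ D1 * N i) :
    ∑ i ∈ Finset.range n, LW t (Ex (c * (N i : ℝ) ^ 2) (W i)) ≤ ENNReal.ofReal (D1 * Real.sqrt (2 / c) * 4) := by
  have hst : 0 < Real.sqrt t := Real.sqrt_pos.2 ht
  have hsc : 0 < Real.sqrt (c / 2) := Real.sqrt_pos.2 (by positivity)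
  have h3 : 0 < Real.sqrt (2 / c) := Real.sqrt_pos.2 (by positivity)
  set x : ℕ → ℝ := fun i => Real.sqrt (c / 2) * (N i * Real.sqrt t) with hx
  have hNp : ∀ i < n, (0 : ℝ) < N i := fun i hi => by exact_mod_cast hN1 i hi
  have hx0 : ∀ i < n, 0 < x i := fun i hi => by have := hNp i hi; simp only [hx]; positivity
  have hle : ∀ i ∈ Finset.range n, LW t (Ex (c * (N i : ℝ) ^ 2) (W i)) ≤
      ENNReal.ofReal (D1 * Real.sqrt (2 / c) * min (x i) (1 / x i)) := by
    intro i hi
    have hi' : i < n := Finset.mem_range.1 hi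
    have hNi := hNp i hi'
    refine (LW_Ex (by positivity) ht (hW i hi')).trans (ENNReal.ofReal_le_ofReal ?_)
    have h4 := gauss_le hc (show 0 < N i * Real.sqrt t by positivity)
    have e : c * (N i * Real.sqrt t) ^ 2 / 2 = c * (N i : ℝ) ^ 2 * (t / 2) := by
      rw [mul_pow, Real.sq_sqrt ht.le]; ring
    rw [e] at h4
    calc Real.sqrt t * ((∑' k, ‖W i k‖) * Real.exp (-(c * (N i : ℝ) ^ 2 * (t / 2))))
        ≤ Real.sqrt t * ((D1 * N i) * Real.exp (-(c * (N i : ℝ) ^ 2 * (t / 2)))) := by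
          have := hb i hi'
          gcongr
      _ = D1 * (N i * Real.sqrt t * Real.exp (-(c * (N i : ℝ) ^ 2 * (t / 2)))) := by ring
      _ ≤ D1 * (Real.sqrt (2 / c) * min (x i) (1 / x i)) := mul_le_mul_of_nonneg_left h4 hD
      _ = _ := by ring
  refine (Finset.sum_le_sum hle).trans ?_
  rw [← ENNReal.ofReal_sum_of_nonneg]
  · apply ENNReal.ofReal_le_ofReal
    rw [← Finset.mul_sum]
    apply mul_le_mul_of_nonneg_left _ (by positivity)
    refine sep_sum hx0 fun i j hij hj => ?_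
    have h5 : (16 : ℝ) * N i ≤ N j := by exact_mod_cast hN i j hij hj
    have h6 := hNp i (hij.trans hj)
    simp only [hx]
    have h7 : 2 * (N i : ℝ) ≤ N j := by linarith
    calc 2 * (Real.sqrt (c / 2) * (N i * Real.sqrt t)) = Real.sqrt (c / 2) * ((2 * N i) * Real.sqrt t) := by ring
      _ ≤ _ := by gcongr
  · intro i hi
    have := hx0 i (Finset.mem_range.1 hi)
    have h8 : 0 ≤ min (x i) (1 / x i) := le_min this.le (by positivity)
    positivity

end Pool.Agent.K1H11.NS
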