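import Pool.Agent.K1H11.NS6.Stage2
import Pool.Agent.K1H11.NS6.Win

/-!
# Changing the initial velocity by fast waves, with a description for short times, part 2
-/

open MeasureTheory Set Filter Topology
open scoped ENNReal NNReal ContDiff

namespace Pool.Agent.K1H11.NS

open H459R3.NS (ee fc fr cube S SP Per pd D Rap)
open Pool.Agent.H356R3.NS (shellSum critNorm leiLin)

/-- The bound for the waves. -/
noncomputable def WvB (c K1 A τ : ℝ) (J : ℕ) (r : ℝ) : ℝ≥0∞ :=
  2 * (((15 * J : ℕ) : ℝ≥0∞) ^ (1 / r) *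
    (2 * ENNReal.ofReal (4 * Real.sqrt (c / J) * Real.sqrt K1 * A + τ)) +
    (15 * J : ℕ) * (2 * ENNReal.ofReal τ))

theorem stage2 {c : ℝ} (hc : 0 < c) {η : ℝ} {g : ℝ → ℝ} (hg : Cut η g) {A Q : ℝ}
    (hA : ∀ cc M, wn (gM g cc M) ≤ A) (hQ : ∀ cc M, wn (gM (fun y => g y ^ 2 - 1) cc M) ≤ Q)
    {V0 : K → C3} {G : Fin 3 → E3 → ℝ} (hG : ∀ i, SP (G i)) (hdiv : ∀ k, ∑ j, (k j : ℂ) * fr (G j) k = 0)
    (h0 : ∀ i, fr (G i) 0 = 0) {a : Wt} (ha : Sup a) {w : Fam} (hw : Sol c a (V0 + fun k i => fr (G i) k) w)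
    {K1 : ℝ} (hK1 : 0 < K1) (hd : ∑' k, ‖(fun i => fr (G i) k : C3)‖ / nk k ≤ K1) {J : ℕ} (hJ : 1 ≤ J)
    {τ dl : ℝ} (hτ : 0 < τ) (hdl : 0 < dl) :
    ∃ (B : Fin 3 → E3 → ℝ), (∀ i, SP (B i)) ∧
      ∃ a' : Wt, Sup a' ∧ ∃ u : Fam, Sol c a' (V0 + cF fun i => fr (B i)) u ∧
        LNd dl (u - w) ≤ ENNReal.ofReal τ ∧
        (∀ t, 0 < t → LW t (u - w) ≤ ENNReal.ofReal
          ((4 * Real.sqrt (c / J) * Real.sqrt K1 * A + τ) * Real.sqrt (2 / c) * 4 + 2 * τ)) ∧
        ∀ r : ℝ, 1 ≤ r → critNorm r (cF fun i => fr (B i)) ≤ WvB c K1 A τ J r ∧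
          ∀ N : (K → C3) → ℝ≥0∞, GoodN N → (∀ x, N x ≤ critNorm r x) → ∀ t, 0 ≤ t → N (at' u t - V0) ≤
            N (at' w t - (V0 + fun k i => fr (G i) k)) + N (fun k i => fr (G i) k) +
            (15 * (2 * ENNReal.ofReal (72 * Real.pi * K1 / J)) + WvB c K1 A τ J r + 2 * ENNReal.ofReal τ) := by
  classical
  have hpi := Real.pi_pos
  have hJ1 : (1 : ℝ) ≤ J := by exact_mod_cast hJ
  have hJ0 : (0 : ℝ) < J := by linarith
  have hA0 : 0 ≤ A := (wn_nonneg _).trans (hA 0 0)
  have hQ0 : 0 ≤ Q := (wn_nonneg _).trans (hQ 0 0)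
  set β := Real.sqrt (c / J) with hβdef
  have hβ : 0 < β := Real.sqrt_pos.2 (by positivity)
  have hβ2 : β ^ 2 = c / J := Real.sq_sqrt (by positivity)
  set κ := Real.sqrt K1 with hκdef
  have hκ : 0 < κ := Real.sqrt_pos.2 hK1
  have hκ2 : κ ^ 2 = K1 := Real.sq_sqrt hK1.le
  -- the amplitudes
  have hRap : ∀ i, Rap (fun k => -fr (G i) k) := fun i n => by
    simpa using H459R3.NS.rap_fr (hG i) n
  obtain ⟨F, hF, hFw, hFs⟩ := amplitudes (b := fun i k => -fr (G i) k) hRap
    (fun i k => by simp only [fr_neg, star_neg])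
    (fun k => by
      simp only [mul_neg, Finset.sum_neg_distrib, hdiv k, neg_zero])
    (fun i => by simp only [h0 i, neg_zero]) hK1 (by
      refine le_trans (le_of_eq (tsum_congr fun k => ?_)) hd
      have e : (fun i => -fr (G i) k : C3) = -(fun i => fr (G i) k : C3) := rfl
      rw [e, norm_neg])
  set C1 := 4 * β * κ * A with hC1
  have hC10 : 0 ≤ C1 := by positivity
  set n := 15 * J with hn
  have hn0 : 0 < n := by omega
  have hn1 : (0 : ℝ) < n := by exact_mod_cast hn0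
  set τ1 := τ / n
  have hτ1 : 0 < τ1 := by positivity
  have hτn : n * τ1 = τ := by simp only [τ1]; field_simp
  have sc2 : 0 < Real.sqrt (2 * c) := Real.sqrt_pos.2 (by positivity)
  have hXfin : XN w ≠ ⊤ := by
    refine ne_top_of_le_ne_top hw.l2 (LN_mono fun t _ => ?_)
    have hone : ∀ k, om Wt.one k ≤ om a k := fun k => a.one_le k
    exact NW_mono (fun k => Wa_mono hone k) _
  set D1 := (XN w).toReal + n * (C1 / Real.sqrt (2 * c) + τ1) + C1 / Real.sqrt (2 * c) + 1 with hD1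
  have hXr : 0 ≤ (XN w).toReal := ENNReal.toReal_nonneg
  have hD0 : 0 < D1 := by positivity
  obtain ⟨δ0, hδ0, hmany⟩ := many2 hc hD0 hτ1 hdl
  -- the number of walls
  set T : Fin 3 → Fin 5 → ℝ := fun c a => ∑' l, pw l ^ 2 * ‖fr (fun x => F c a x * F c a x) l‖
  have hT0 : ∀ c a, 0 ≤ T c a := fun c a =>
    tsum_nonneg fun l => mul_nonneg (pow_pos (pw_pos l) 2).le (norm_nonneg _)
  set TT := ∑ c, ∑ a, T c a
  have hTT : ∀ c a, T c a ≤ TT := fun c a =>
    (Finset.single_le_sum (f := fun a => T c a) (fun a _ => hT0 c a) (Finset.mem_univ a)).trans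
      (Finset.single_le_sum (f := fun c => ∑ a, T c a)
        (fun c _ => Finset.sum_nonneg fun a _ => hT0 c a) (Finset.mem_univ c))
  have hTT0 : 0 ≤ TT := Finset.sum_nonneg fun c _ => Finset.sum_nonneg fun a _ => hT0 c a
  obtain ⟨M, hM⟩ := exists_nat_gt (max 1 (12 * Real.pi * Q * TT * β ^ 2 / δ0))
  have hM1 : (1 : ℝ) ≤ M := (le_max_left _ _).trans hM.le
  have hM1' : 1 ≤ M := by exact_mod_cast hM1
  have hM0 : (0 : ℝ) < M := by linarith
  have hM2 : 12 * Real.pi * Q * TT * β ^ 2 / M ≤ δ0 := by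
    have h1 : 12 * Real.pi * Q * TT * β ^ 2 / δ0 ≤ M := (le_max_right _ _).trans hM.le
    rw [div_le_iff₀ hδ0] at h1
    rw [div_le_iff₀ hM0]; linarith
  have hprof := fun c' a' => profile hc hβ.le hg hA hQ (hF c' a') (eP_le c' a') (eP_zero c' a') hM1'
  choose C2 hP2 hb4 hb5 using hprof
  have hC20 : ∀ c a, 0 ≤ C2 c a := fun c a => (hP2 c a).C2n
  set CC := ∑ c, ∑ a, C2 c a
  have hCC : ∀ c a, C2 c a ≤ CC := fun c a =>
    (Finset.single_le_sum (f := fun a => C2 c a) (fun a _ => hC20 c a) (Finset.mem_univ a)).trans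
      (Finset.single_le_sum (f := fun c => ∑ a, C2 c a)
        (fun c _ => Finset.sum_nonneg fun a _ => hC20 c a) (Finset.mem_univ c))
  have hCC0 : 0 ≤ CC := Finset.sum_nonneg fun c _ => Finset.sum_nonneg fun a _ => hC20 c a
  have hC1le : ∀ c' a', 2 * β * (wn (F c' a') * A) ≤ C1 := by
    intro c' a'
    calc 2 * β * (wn (F c' a') * A) ≤ 2 * β * (2 * κ * A) := by
          have := hFw c' a'
          gcongr
      _ = C1 := by rw [hC1]; ring
  -- all the waves
  set W : ℕ → ℕ → K → C3 := fun i => Wv β (fr fun x => F (cI i) (aI i) x * gM g (cI i) M x)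
    (eP (cI i) (aI i)) (cI i)
  set h : ℕ → K → C3 := fun i => hv c β (fr fun x => F (cI i) (aI i) x * F (cI i) (aI i) x) (eP (cI i) (aI i))
  have hper : ∀ q s, h (15 * q + s) = h s := by
    intro q s
    have e1 : cI (15 * q + s) = cI s := by
      unfold cI
      rw [Fin.mk.injEq]
      omega
    have e2 : aI (15 * q + s) = aI s := by
      unfold aI
      rw [Fin.mk.injEq]
      omega
    simp only [h, e1, e2]
  set HH : ℝ := ∑ s ∈ Finset.range 15, ∑' k, ‖h s k‖ with hHH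
  have hHH0 : 0 ≤ HH := Finset.sum_nonneg fun s _ => tsum_nonneg fun k => norm_nonneg _
  have hHle : ∀ i, ∑' k, ‖h i k‖ ≤ HH := by
    intro i
    have e1 : h i = h (i % 15) := by
      have := hper (i / 15) (i % 15)
      rwa [Nat.div_add_mod] at this
    rw [e1]
    exact Finset.single_le_sum (f := fun s => ∑' k, ‖h s k‖) (fun s _ => tsum_nonneg fun k => norm_nonneg _)
      (Finset.mem_range.2 (Nat.mod_lt _ (by norm_num)))
  have sc4 : 0 < Real.sqrt (4 * c) := Real.sqrt_pos.2 (by positivity)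
  obtain ⟨N0, hN0'⟩ := exists_nat_gt (max (CC / τ) (n * HH / (Real.sqrt (4 * c) * τ)))
  have hN0 : CC / τ < N0 := (le_max_left _ _).trans_lt hN0'
  have hN0h : n * HH / (Real.sqrt (4 * c) * τ) < N0 := (le_max_right _ _).trans_lt hN0'
  have hPrf : ∀ i < n, Prf c C1 CC δ0 (h i) (W i) := by
    intro i _
    refine (hP2 (cI i) (aI i)).mono (hC1le _ _) (hCC _ _) ?_
    refine le_trans ?_ hM2
    have : T (cI i) (aI i) ≤ TT := hTT _ _
    calc 12 * Real.pi / M * Q * T (cI i) (aI i) * β ^ 2 ≤ 12 * Real.pi / M * Q * TT * β ^ 2 := by gcongr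
      _ = _ := by ring
  obtain ⟨N, n1, n2, a', ha', u, hu, huL, huE, huY⟩ := hmany a _ w ha hw C1 CC δ0 n (N0 + 1) h W hPrf hC10
    (by rw [hD1]; have : 0 ≤ n * (C1 / Real.sqrt (2 * c) + τ1) := by positivity
        linarith) le_rfl (by
      rw [← ENNReal.ofReal_toReal hXfin, ← ENNReal.ofReal_add hXr (by positivity)]
      apply ENNReal.ofReal_le_ofReal
      rw [hD1]
      have : 0 ≤ C1 / Real.sqrt (2 * c) := by positivity
      linarith)
  rw [hτn] at huL huE huY
  have hNpos : ∀ i < n, 1 ≤ N i := fun i hi => by have := n1 i hi; omega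
  have hNτ : ∀ i < n, CC / N i ≤ τ := by
    intro i hi
    have h1 : (N0 : ℝ) ≤ N i := by exact_mod_cast (by have := n1 i hi; omega : N0 ≤ N i)
    have h2 : (0 : ℝ) < N i := by exact_mod_cast hNpos i hi
    rw [div_le_iff₀ h2]
    rw [div_lt_iff₀ hτ] at hN0
    nlinarith
  set B1 : ℕ → Fin 3 → E3 → ℝ := fun i => wave β (fun x => F (cI i) (aI i) x * gM g (cI i) M x)
    (eP (cI i) (aI i)) (cI i) (N i)
  have hamp : ∀ i, SP fun x => F (cI i) (aI i) x * gM g (cI i) M x := fun i =>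
    (hF _ _).mul (gM_SP hg.smooth hg.per _ _)
  have hB1 : ∀ i j, SP (B1 i j) := fun i j => wave_SP (hamp i) _ _ _ j
  have hB1W : ∀ i, cF (fun j => fr (B1 i j)) = W i (N i) := fun i => cF_wave (hamp i) (eP_zero _ _) _
  set B : Fin 3 → E3 → ℝ := fun j x => ∑ i ∈ Finset.range n, B1 i j x
  have hcFB : cF (fun j => fr (B j)) = ∑ i ∈ Finset.range n, W i (N i) := by
    rw [show (fun j => fr (B j)) = fun j => fr (fun x => ∑ i ∈ Finset.range n, B1 i j x) from rfl,
      cF_sum _ B1 fun i _ j => hB1 i j]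
    exact Finset.sum_congr rfl fun i _ => hB1W i
  have hWsn : ∀ i < n, SN (W i (N i)) := fun i hi => ((hPrf i hi).Wr (N i)).summ
  have hW4 : ∀ i < n, ∑' k, ‖W i (N i) k‖ / nk k ≤ C1 + τ := by
    intro i hi
    refine (hb4 (cI i) (aI i) (N i) (hNpos i hi)).trans (add_le_add (hC1le _ _) ?_)
    refine le_trans ?_ (hNτ i hi)
    exact div_le_div_of_nonneg_right (hCC _ _) (Nat.cast_nonneg _)
  have hW5 : ∀ i < n, ∑' k, (if nk k < (N i : ℝ) / 2 ∨ 2 * (N i : ℝ) ≤ nk k then
      ‖W i (N i) k‖ / nk k else 0) ≤ τ := by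
    intro i hi
    refine (hb5 (cI i) (aI i) (N i) (hNpos i hi)).trans ?_
    refine le_trans ?_ (hNτ i hi)
    exact div_le_div_of_nonneg_right (hCC _ _) (Nat.cast_nonneg _)
  set Gf : K → C3 := fun k i => fr (G i) k with hGf
  have hsumJ : ∀ J' : ℕ, ∑ i ∈ Finset.range (15 * J'), h i = (-((J' : ℝ) / J)) • Gf := by
    intro J'
    have e1 := sum_index (fun c' a' => hv c β (fr fun x => F c' a' x * F c' a' x) (eP c' a')) J'
    rw [show (∑ i ∈ Finset.range (15 * J'), h i) = _ from e1]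
    funext k
    have e2 : (J' • ∑ c', ∑ a', hv c β (fr fun x => F c' a' x * F c' a' x) (eP c' a')) k =
        (J' : ℝ) • (-(β ^ 2 / c)) • ∑ c', ∑ a', fr (fun x => F c' a' x * F c' a' x) k •
          bt k (ec (eP c' a')) (ec (eP c' a')) := by
      rw [Pi.smul_apply, Finset.sum_apply, ← Nat.cast_smul_eq_nsmul ℝ]
      congr 1
      rw [Finset.smul_sum]
      refine Finset.sum_congr rfl fun c' _ => ?_
      rw [Finset.sum_apply, Finset.smul_sum]
      rfl
    rw [e2, hFs k, smul_smul]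
    have e3 : (J' : ℝ) * -(β ^ 2 / c) = -((J' : ℝ) / J) := by
      rw [hβ2]; field_simp
    rw [e3]
    funext i
    simp [hGf]
  have hsumh : ∑ i ∈ Finset.range n, h i = -Gf := by
    rw [hn, hsumJ J, div_self hJ0.ne', neg_smul, one_smul]
  have hdata : (V0 + Gf) + ∑ i ∈ Finset.range n, (h i + W i (N i)) = V0 + cF (fun i => fr (B i)) := by
    rw [Finset.sum_add_distrib, hsumh, hcFB]
    abel
  rw [hdata] at hu
  have hhLL : ∀ s, leiLin (h s) ≤ ENNReal.ofReal (72 * Real.pi * K1 / J) := by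
    intro s
    refine (hv_LL hc ((hF _ _).mul (hF _ _)) (eP_le _ _) (eP_zero _ _)).trans (ENNReal.ofReal_le_ofReal ?_)
    have e1 : β ^ 2 / c = 1 / J := by rw [hβ2]; field_simp
    rw [e1]
    have e2 : wn (fun x => F (cI s) (aI s) x * F (cI s) (aI s) x) ≤ 4 * K1 := by
      refine (wn_mul (hF _ _) (hF _ _)).trans ?_
      have h1 := hFw (cI s) (aI s)
      have h2 := wn_nonneg (F (cI s) (aI s))
      calc _ ≤ (2 * κ) * (2 * κ) := mul_le_mul h1 h1 h2 (by positivity)
        _ = 4 * K1 := by rw [← hκ2]; ring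
    calc 1 / (J : ℝ) * (18 * Real.pi) * wn (fun x => F (cI s) (aI s) x * F (cI s) (aI s) x)
        ≤ 1 / (J : ℝ) * (18 * Real.pi) * (4 * K1) := by gcongr
      _ = _ := by ring
  refine ⟨B, fun j => SP.sum fun i _ => hB1 i j, a', ha', u, hu, huL, fun t ht => ?_, fun r hr => ⟨?_, fun NN hN hNr t ht => ?_⟩⟩
  · -- the norms on the windows
    have eu : u - w = Tr c n N W h + (u - (w + Tr c n N W h)) := by abel
    rw [eu]
    have cT := Tr_cf c n N W h
    have cE : CF (u - (w + Tr c n N W h)) := fun k => (hu.cf k).sub ((hw.cf k).add (cT k))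
    have x1 : LW t (Tr c n N W h) ≤ ∑ i ∈ Finset.range n, LW t (Ex (c * (N i : ℝ) ^ 2) (W i (N i))) +
        ∑ i ∈ Finset.range n, LW t (Ex (2 * (c * (N i : ℝ) ^ 2)) (h i)) := by
      rw [← Finset.sum_add_distrib]
      refine (LW_sum t n (fun i => Ex (c * (N i : ℝ) ^ 2) (W i (N i)) + Ex (2 * (c * (N i : ℝ) ^ 2)) (h i))
        fun i k => (Ex_cf _ _ k).add (Ex_cf _ _ k)).2.trans ?_
      exact Finset.sum_le_sum fun i _ => LW_add t (Ex_cf _ _) (Ex_cf _ _)
    have x2 : ∑ i ∈ Finset.range n, LW t (Ex (c * (N i : ℝ) ^ 2) (W i (N i))) ≤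
        ENNReal.ofReal ((C1 + τ) * Real.sqrt (2 / c) * 4) := by
      refine LW_waves hc ht (by positivity) hNpos n2 (W := fun i => W i (N i)) hWsn fun i hi => ?_
      have h1 := (hPrf i hi).b1 (N i) (hNpos i hi)
      have h2 := hNτ i hi
      have h3 : (0 : ℝ) < N i := by exact_mod_cast hNpos i hi
      rw [div_le_iff₀ h3] at h2
      linarith
    have x3 : ∑ i ∈ Finset.range n, LW t (Ex (2 * (c * (N i : ℝ) ^ 2)) (h i)) ≤ ENNReal.ofReal τ := by
      have h1 : ∀ i ∈ Finset.range n, LW t (Ex (2 * (c * (N i : ℝ) ^ 2)) (h i)) ≤ ENNReal.ofReal τ1 := by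
        intro i hi
        have hi' : i < n := Finset.mem_range.1 hi
        have h3 : (0 : ℝ) < N i := by exact_mod_cast hNpos i hi'
        refine (LW_le_XN _ _).trans ((XN_Ex (by positivity) (hPrf i hi').hr.summ).trans
          (ENNReal.ofReal_le_ofReal ?_))
        rw [← mul_assoc, ← mul_assoc, show (2 : ℝ) * 2 * c = 4 * c by ring,
          sqrt_inv_sq (by positivity) (hNpos i hi')]
        have h4 : (N0 : ℝ) ≤ N i := by exact_mod_cast (by have := n1 i hi'; omega : N0 ≤ N i)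
        have h5 : n * HH / (Real.sqrt (4 * c) * τ) < N i := hN0h.trans_le h4
        rw [div_lt_iff₀ (by positivity)] at h5
        have h6 := hHle i
        simp only [τ1]
        rw [mul_one_div, div_le_div_iff₀ (by positivity) hn1]
        calc (∑' k, ‖h i k‖) * n ≤ HH * n := mul_le_mul_of_nonneg_right h6 hn1.le
          _ ≤ _ := by linarith
      refine (Finset.sum_le_sum h1).trans (le_of_eq ?_)
      rw [Finset.sum_const, Finset.card_range, nsmul_eq_mul, ← ENNReal.ofReal_natCast,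
        ← ENNReal.ofReal_mul hn1.le, hτn]
    refine (LW_add t cT cE).trans ((add_le_add (x1.trans (add_le_add x2 x3)) ((LW_le_XN _ _).trans huE)).trans
      (le_of_eq ?_))
    rw [← ENNReal.ofReal_add (by positivity) hτ.le, ← ENNReal.ofReal_add (by positivity) hτ.le]
    congr 1
    ring
  · rw [hcFB]
    exact wave_crit hNpos n2 hWsn hW4 hW5 hr
  · -- the factors
    set al : ℕ → ℝ := fun i => if i < n then Real.exp (-(2 * (c * (N i : ℝ) ^ 2) * t)) else 0 with hal
    set be : ℕ → ℝ := fun i => Real.exp (-(c * (N i : ℝ) ^ 2 * t)) with hbe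
    have al0 : ∀ i, 0 ≤ al i := fun i => by
      simp only [al]
      split_ifs
      · exact (Real.exp_pos _).le
      · exact le_rfl
    have al1 : ∀ i, al i ≤ 1 := fun i => by
      simp only [al]
      split_ifs
      · rw [Real.exp_le_one_iff]
        have : 0 ≤ 2 * (c * (N i : ℝ) ^ 2) * t := by positivity
        linarith
      · exact zero_le_one
    have hNmono : ∀ i j, i ≤ j → j < n → (N i : ℝ) ≤ N j := by
      intro i j hij hj
      rcases Nat.lt_or_ge i j with h1 | h1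
      · have := n2 i j h1 hj
        have h2 : N i ≤ N j := by omega
        exact_mod_cast h2
      · have : i = j := le_antisymm hij h1
        rw [this]
    have alm : Antitone al := by
      intro i j hij
      simp only [al]
      by_cases hj : j < n
      · rw [if_pos hj, if_pos (lt_of_le_of_lt hij hj)]
        apply Real.exp_le_exp.2
        have h1 := hNmono i j hij hj
        have h2 : (0 : ℝ) ≤ N i := Nat.cast_nonneg _
        have h3 : (N i : ℝ) ^ 2 ≤ (N j : ℝ) ^ 2 := pow_le_pow_left₀ h2 h1 2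
        have h4 : 2 * (c * (N i : ℝ) ^ 2) * t ≤ 2 * (c * (N j : ℝ) ^ 2) * t := by gcongr
        linarith
      · rw [if_neg hj]
        exact al0 i
    have be1 : ∀ i, |be i| ≤ 1 := fun i => by
      rw [abs_of_pos (Real.exp_pos _), Real.exp_le_one_iff]
      have : 0 ≤ c * (N i : ℝ) ^ 2 * t := by positivity
      linarith
    have eTr : at' (Tr c n N W h) t = ∑ i ∈ Finset.range n, be i • W i (N i) +
        ∑ i ∈ Finset.range n, al i • h i := by
      rw [← Finset.sum_add_distrib]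
      funext k
      have e1 : at' (Tr c n N W h) t k = ∑ i ∈ Finset.range n,
          (Ex (c * (N i : ℝ) ^ 2) (W i (N i)) k t + Ex (2 * (c * (N i : ℝ) ^ 2)) (h i) k t) := by
        simp [at', Tr, Finset.sum_apply]
      rw [e1, Finset.sum_apply]
      refine Finset.sum_congr rfl fun i hi => ?_
      have hi' : i < n := Finset.mem_range.1 hi
      simp only [Ex, Pi.add_apply, Pi.smul_apply, al, be, if_pos hi', max_eq_left ht]
    have edec : at' u t - V0 = (at' w t - (V0 + Gf)) + ((Gf + ∑ i ∈ Finset.range n, al i • h i) +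
        (∑ i ∈ Finset.range n, be i • W i (N i) + at' (u - (w + Tr c n N W h)) t)) := by
      have e1 : at' (u - (w + Tr c n N W h)) t = at' u t - (at' w t + at' (Tr c n N W h) t) := rfl
      rw [e1, eTr]
      abel
    rw [edec]
    have b1 : NN (Gf + ∑ i ∈ Finset.range n, al i • h i) ≤
        NN Gf + 15 * (2 * ENNReal.ofReal (72 * Real.pi * K1 / J)) := by
      refine corr_bound hN alm al0 al1 h hper hJ (x := Gf) ?_ fun s =>
        (hN.le _).trans (mul_le_mul' le_rfl (hhLL s))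
      have := hsumJ 1
      simpa using this
    have b2 : NN (∑ i ∈ Finset.range n, be i • W i (N i)) ≤ WvB c K1 A τ J r :=
      (hNr _).trans <| wave_crit' hNpos n2 hWsn hW4 hW5 be1 hr
    have b3 : NN (at' (u - (w + Tr c n N W h)) t) ≤ 2 * ENNReal.ofReal τ :=
      (hN.le _).trans (mul_le_mul' le_rfl ((leiLin_le_YN _).trans (huY t)))
    calc _ ≤ NN (at' w t - (V0 + Gf)) + ((NN Gf +
          15 * (2 * ENNReal.ofReal (72 * Real.pi * K1 / J))) + (WvB c K1 A τ J r + 2 * ENNReal.ofReal τ)) :=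
          (hN.add _ _).trans (add_le_add le_rfl ((hN.add _ _).trans (add_le_add b1
            ((hN.add _ _).trans (add_le_add b2 b3)))))
      _ = _ := by ring

end Pool.Agent.K1H11.NS
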