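import Pool.Agent.K1H11.NS2.Abs
import Pool.Agent.K1H11.NS2.ExpF

/-!
# Approximate solutions: uniform bounds in the Lei-Lin norm
-/

open MeasureTheory Set Filter Topology
open scoped ENNReal NNReal

namespace Pool.Agent.K1H11.NS

/-- The Lei-Lin norm. -/
noncomputable def YN (x : K → C3) : ℝ≥0∞ := NW (Wm Wt.one) x

lemma YN_add (x y : K → C3) : YN (x + y) ≤ YN x + YN y := NW_add_le _ _ _

lemma YN_neg (x : K → C3) : YN (-x) = YN x := NW_neg _ _

lemma YN_sub (x y : K → C3) : YN (x - y) ≤ YN x + YN y := NW_sub_le _ _ _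

lemma YN_zero : YN 0 = 0 := NW_zero _

lemma Wm_one (k : K) : Wm Wt.one k = ENNReal.ofReal (1 / nk k) := by
  unfold Wm om
  simp [Wt.one]

lemma YN_eq (x : K → C3) : YN x = ∑' k, ENNReal.ofReal (‖x k‖ / nk k) := by
  unfold YN NW
  refine tsum_congr fun k => ?_
  rw [Wm_one, ← ofReal_norm, ← ENNReal.ofReal_mul (div_nonneg zero_le_one (nk_nonneg k))]
  congr 1
  ring

lemma YN_le_real {x : K → C3} (hs : Summable fun k => ‖x k‖ / nk k) :
    YN x = ENNReal.ofReal (∑' k, ‖x k‖ / nk k) := by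
  rw [YN_eq, ENNReal.ofReal_tsum_of_nonneg (fun k => div_nonneg (norm_nonneg _) (nk_nonneg k)) hs]

/-- The Duhamel operator is bounded in the Lei-Lin norm. -/
lemma YN_Duh {c : ℝ} (hc : 0 ≤ c) {F : Fam} (hF : CF F) (t : ℝ) :
    YN (at' (Duh c F) t) ≤ ∫⁻ s in Ioi 0, YN (at' F s) := by
  have e : at' (Duh c F) t = at' (Duh c F) (max t 0) := by
    funext k; exact (Duh_max c F k t).symm
  rw [e]
  refine (NW_Duh_le hc _ hF (le_max_right _ _)).trans ?_
  exact lintegral_mono_set fun s hs => hs.1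

lemma lint_YN_Bf {x y : Fam} (hx : CF x) (hy : CF y) :
    ∫⁻ s in Ioi 0, YN (Bf (at' x s) (at' y s)) ≤ ENNReal.ofReal C0 * (XN x * XN y) := by
  calc ∫⁻ s in Ioi 0, YN (Bf (at' x s) (at' y s))
      ≤ ∫⁻ s in Ioi 0, ENNReal.ofReal C0 * (NW (Wa Wt.one) (at' x s) * NW (Wa Wt.one) (at' y s)) :=
        lintegral_mono fun s => NW_Bf_le trivial _ _
    _ = ENNReal.ofReal C0 * ∫⁻ s in Ioi 0, (NW (Wa Wt.one) (at' x s) * NW (Wa Wt.one) (at' y s)) := by
        have m : Measurable fun s => NW (Wa Wt.one) (at' x s) * NW (Wa Wt.one) (at' y s) :=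
          (NW_meas _ hx).mul (NW_meas _ hy)
        rw [lintegral_const_mul _ m]
    _ ≤ _ := mul_le_mul' le_rfl (LN_cs (NW_meas _ hx) (NW_meas _ hy))

lemma Dom.sub' {u v : Fam} (hu : Dom u) (hv : Dom v) : Dom (u - v) := by
  obtain ⟨b, hb, h⟩ := hu
  obtain ⟨b', hb', h'⟩ := hv
  exact ⟨fun k => b k + b' k, hb.add hb', fun k t => (norm_sub_le _ _).trans (add_le_add (h k t) (h' k t))⟩

/-- Differences of the nonlinear terms. -/
lemma lint_YN_diff {u v : Fam} (hu : CF u) (hv : CF v) (hud : Dom u) (hvd : Dom v) :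
    ∫⁻ s in Ioi 0, YN (at' (Bt u - Bt v) s) ≤ ENNReal.ofReal C0 * (XN (u - v) * (XN u + XN v)) := by
  have hd : CF (u - v) := fun k => (hu k).sub (hv k)
  have e : ∀ s, at' (Bt u - Bt v) s = Bf (at' (u - v) s) (at' u s) + Bf (at' v s) (at' (u - v) s) := fun s =>
    Bf_diff (hud.sn s) (hvd.sn s)
  simp_rw [e]
  have m1 : Measurable fun s => YN (Bf (at' (u - v) s) (at' u s)) := by
    have h : CF (fun k s => Bf (at' (u - v) s) (at' u s) k) := BB_cont hd hu (hud.sub' hvd) hud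
    exact NW_meas _ h
  calc _ ≤ ∫⁻ s in Ioi 0, (YN (Bf (at' (u - v) s) (at' u s)) + YN (Bf (at' v s) (at' (u - v) s))) :=
        lintegral_mono fun s => YN_add _ _
    _ = (∫⁻ s in Ioi 0, YN (Bf (at' (u - v) s) (at' u s))) + ∫⁻ s in Ioi 0, YN (Bf (at' v s) (at' (u - v) s)) :=
        lintegral_add_left m1 _
    _ ≤ ENNReal.ofReal C0 * (XN (u - v) * XN u) + ENNReal.ofReal C0 * (XN v * XN (u - v)) :=
        add_le_add (lint_YN_Bf hd hu) (lint_YN_Bf hv hd)
    _ = _ := by ring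

/-- Approximate solutions with small residual are close to exact solutions, also uniformly in time. -/
theorem approx2 {c D τ : ℝ} (hc : 0 < c) (hD : 0 < D) (hτ : 0 < τ) : ∃ η : ℝ, 0 < η ∧
    ∀ (V : K → C3) (U FE : Fam) (b e : K → ℝ), CF U → SymF U → (∀ t, U 0 t = 0) →
      (∀ k, 0 ≤ b k) → RR b → (∀ k t, ‖U k t‖ ≤ b k) →
      (∀ k, LN (fun t => ‖U k t‖ₑ) ≤ ENNReal.ofReal (b k)) → XN U ≤ ENNReal.ofReal D →
      CF FE → SymF FE → (∀ t, FE 0 t = 0) → (∀ k, 0 ≤ e k) → RR e →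
      (∀ k, ∫⁻ t in Ioi 0, ‖FE k t‖ₑ ≤ ENNReal.ofReal (e k)) → ∑' k, e k / nk k ≤ η →
      (∀ k t, U k t = Real.exp (-(c * sq k * max t 0)) • V k + Duh c (Bt U - FE) k t) →
      ∃ a : Wt, Sup a ∧ ∃ u : Fam, Sol c a V u ∧ XN (u - U) ≤ ENNReal.ofReal τ ∧
        ∀ t, YN (at' (u - U) t) ≤ ENNReal.ofReal τ := by
  have hC := C0_pos
  set τ' := min (min τ 1) (τ / (2 * (C0 * (2 * D + 1)))) with hτ'
  have hτ0 : 0 < τ' := lt_min (lt_min hτ one_pos) (by positivity)
  have hτ1 : τ' ≤ τ := (min_le_left _ _).trans (min_le_left _ _)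
  have hτ2 : τ' ≤ 1 := (min_le_left _ _).trans (min_le_right _ _)
  have hτ3 : τ' ≤ τ / (2 * (C0 * (2 * D + 1))) := min_le_right _ _
  obtain ⟨η, hη, happ⟩ := approx (c := c) (D := D) (τ := τ') hc hD hτ0
  refine ⟨min η (τ / 2), lt_min hη (half_pos hτ), ?_⟩
  intro V U FE b e hU hUs hU0 hb0 hb hUb hUL hUX hF hFs hF0 he0 he hFe hesum heq
  obtain ⟨a, ha, u, hu, hX⟩ := happ V U FE b e hU hUs hU0 hb0 hb hUb hUL hUX hF hFs hF0 he0 he hFe
    (hesum.trans (min_le_left _ _)) heq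
  refine ⟨a, ha, u, hu, hX.trans (ENNReal.ofReal_le_ofReal hτ1), fun t => ?_⟩
  have hud : Dom u := by
    obtain ⟨b, hb, h⟩ := hu.dom
    refine ⟨b, hb.of_nonneg_of_le (fun k => (norm_nonneg _).trans (h k 0)) fun k => ?_, h⟩
    have h0 : 0 ≤ b k := (norm_nonneg _).trans (h k 0)
    have h1 : 1 ≤ om a k := a.one_le k
    nlinarith
  have hUd : Dom U := ⟨b, hb.summ, hUb⟩
  have hBu := Bt_cont hu.cf hud
  have hBU := Bt_cont hU hUd
  have hdif : CF (Bt u - Bt U) := fun k => (hBu k).sub (hBU k)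
  have e1 : u - U = Duh c (Bt u - Bt U) + Duh c FE := by
    funext k t
    show u k t - U k t = _
    have e2 : Duh c (Bt u - Bt U) + Duh c FE = Duh c (Bt u) - Duh c (Bt U - FE) := by
      rw [Duh_sub hBu hBU, Duh_sub hBU hF]; abel
    rw [e2, hu.eq k t, heq k t]
    show _ = Duh c (Bt u) k t - Duh c (Bt U - FE) k t
    abel
  have e3 : at' (u - U) t = at' (Duh c (Bt u - Bt U)) t + at' (Duh c FE) t := by
    rw [e1]; rfl
  rw [e3]
  have g1 : ∫⁻ s in Ioi 0, YN (at' FE s) ≤ ENNReal.ofReal (τ / 2) := by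
    have hn : ∀ k, e k / nk k ≤ e k := by
      intro k
      by_cases hk : k = 0
      · subst hk; simp [nk_zero, he0]
      · exact div_le_self (he0 k) (one_le_nk hk)
    have hes : Summable fun k => e k / nk k :=
      he.summ.of_nonneg_of_le (fun k => div_nonneg (he0 k) (nk_nonneg k)) hn
    unfold YN NW
    have m0 : ∀ k, AEMeasurable (fun s => Wm Wt.one k * ‖at' FE s k‖ₑ) (volume.restrict (Ioi 0)) := fun k =>
      (((hF k).enorm.measurable).const_mul (Wm Wt.one k)).aemeasurable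
    rw [lintegral_tsum m0]
    calc ∑' k, ∫⁻ s in Ioi 0, Wm Wt.one k * ‖at' FE s k‖ₑ
        ≤ ∑' k, ENNReal.ofReal (e k / nk k) := by
          refine ENNReal.tsum_le_tsum fun k => ?_
          have m1 : Measurable fun s => ‖at' FE s k‖ₑ := (hF k).enorm.measurable
          rw [lintegral_const_mul _ m1, Wm_one, div_eq_mul_inv (e k), mul_comm (e k), ← one_div,
            ENNReal.ofReal_mul (div_nonneg zero_le_one (nk_nonneg k))]
          exact mul_le_mul' le_rfl (hFe k)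
      _ = ENNReal.ofReal (∑' k, e k / nk k) := by
          rw [ENNReal.ofReal_tsum_of_nonneg (fun k => div_nonneg (he0 k) (nk_nonneg k)) hes]
      _ ≤ _ := ENNReal.ofReal_le_ofReal (hesum.trans (min_le_right _ _))
  have g2 : ∫⁻ s in Ioi 0, YN (at' (Bt u - Bt U) s) ≤ ENNReal.ofReal (τ / 2) := by
    refine (lint_YN_diff hu.cf hU hud hUd).trans ?_
    have x1 : XN u ≤ ENNReal.ofReal (D + 1) := by
      have e4 : u = U + (u - U) := by abel
      have hd : CF (u - U) := fun k => (hu.cf k).sub (hU k)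
      rw [e4]
      refine (XN_add hU hd).trans ((add_le_add hUX (hX.trans (ENNReal.ofReal_le_ofReal hτ2))).trans ?_)
      rw [← ENNReal.ofReal_add hD.le zero_le_one]
    calc ENNReal.ofReal C0 * (XN (u - U) * (XN u + XN U))
        ≤ ENNReal.ofReal C0 * (ENNReal.ofReal τ' * (ENNReal.ofReal (D + 1) + ENNReal.ofReal D)) := by
          gcongr
      _ = ENNReal.ofReal (C0 * (τ' * (D + 1 + D))) := by
          rw [← ENNReal.ofReal_add (by positivity) hD.le, ← ENNReal.ofReal_mul hτ0.le, ← ENNReal.ofReal_mul hC.le]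
      _ ≤ _ := by
          apply ENNReal.ofReal_le_ofReal
          calc C0 * (τ' * (D + 1 + D)) = τ' * (C0 * (2 * D + 1)) := by ring
            _ ≤ τ / (2 * (C0 * (2 * D + 1))) * (C0 * (2 * D + 1)) := by
                gcongr
            _ = τ / 2 := by field_simp
  calc YN (at' (Duh c (Bt u - Bt U)) t + at' (Duh c FE) t)
      ≤ YN (at' (Duh c (Bt u - Bt U)) t) + YN (at' (Duh c FE) t) := YN_add _ _
    _ ≤ ENNReal.ofReal (τ / 2) + ENNReal.ofReal (τ / 2) :=
        add_le_add ((YN_Duh hc.le hdif t).trans g2) ((YN_Duh hc.le hF t).trans g1)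
    _ = ENNReal.ofReal τ := by
        rw [← ENNReal.ofReal_add (by positivity) (by positivity)]
        congr 1; ring

end Pool.Agent.K1H11.NS
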