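import Pool.Agent.K1H11.NS2.Step
import Pool.Agent.K1H11.NS6.Sup

/-!
# Adding a fast wave to a solution, with a description of the solution for short times
-/

open MeasureTheory Set Filter Topology
open scoped ENNReal NNReal

namespace Pool.Agent.K1H11.NS

theorem step2 {c D τ dl : ℝ} (hc : 0 < c) (hD : 0 < D) (hτ : 0 < τ) (hdl : 0 < dl) : ∃ δ0 : ℝ, 0 < δ0 ∧
    ∀ (a : Wt) (V : K → C3) (w : Fam), Sup a → Sol c a V w → XN w ≤ ENNReal.ofReal D →
      ∀ (C1 C2 δ : ℝ) (h : K → C3) (W : ℕ → K → C3), Prf c C1 C2 δ h W → C1 / Real.sqrt (2 * c) ≤ D →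
        δ ≤ δ0 → ∀ᶠ N : ℕ in atTop, ∃ a' : Wt, Sup a' ∧ ∃ u : Fam, Sol c a' (V + h + W N) u ∧
          XN u ≤ XN w + ENNReal.ofReal (C1 / Real.sqrt (2 * c) + τ) ∧
          LNd dl (u - w) ≤ ENNReal.ofReal τ ∧
          XN (u - UU w (c * (N : ℝ) ^ 2) (W N) h) ≤ ENNReal.ofReal τ ∧
          ∀ t, YN (at' (u - UU w (c * (N : ℝ) ^ 2) (W N) h) t) ≤ ENNReal.ofReal τ := by
  have hC := C0_pos
  obtain ⟨η, hη, happ⟩ := approx2 (c := c) (D := 2 * D + 1) (τ := τ / 2) hc (by linarith) (half_pos hτ)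
  refine ⟨c * η, by positivity, fun a V w ha hw hwX C1 C2 δ h W hP hC1 hδ => ?_⟩
  obtain ⟨bw, bw0, bwr, bwb, bwL⟩ := hw.rap ha
  have hwd : Dom w := hw.dom' ha
  set B := ∑' k, bw k
  set H := ∑' k, ‖h k‖
  set H1 := ∑' k, nk k * ‖h k‖
  have hB0 : 0 ≤ B := tsum_nonneg bw0
  have hH0 : 0 ≤ H := tsum_nonneg fun _ => norm_nonneg _
  have hH10 : 0 ≤ H1 := tsum_nonneg fun k => mul_nonneg (nk_nonneg k) (norm_nonneg _)
  have hC1n := hP.C1n
  have hC2n := hP.C2n
  have sc2 : 0 < Real.sqrt (2 * c) := Real.sqrt_pos.2 (by positivity)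
  have sc4 : 0 < Real.sqrt (4 * c) := Real.sqrt_pos.2 (by positivity)
  have sc1 : 0 < Real.sqrt c := Real.sqrt_pos.2 hc
  set B1 := C2 / Real.sqrt (2 * c) + H / Real.sqrt (4 * c)
  set B2 := (1 / c) * (2 * C0 * B * (C1 + C2) + c * C2) +
    (1 / (2 * c)) * (C2 + c * H1 + 2 * C0 * B * H + 2 * C0 * (C1 + C2) * H + C0 * H * H)
  set B3 := 2 / (c * dl) * ((C1 + C2) / Real.sqrt c) + 2 / (c * dl) * (H / Real.sqrt c)
  filter_upwards [ev_small B1 (half_pos hτ), ev_small B1 one_pos, ev_small B2 (half_pos hη),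
    ev_small B3 (half_pos hτ), eventually_ge_atTop 1] with N e1 e2 e3 e4 hN
  have hN1 : (1 : ℝ) ≤ N := by exact_mod_cast hN
  have hN0 : (0 : ℝ) < N := by linarith
  set L := c * (N : ℝ) ^ 2 with hLdef
  have hL : 0 < L := by positivity
  set Wn := W N
  have rW := hP.Wr N
  have rh := hP.hr
  have sW : SN Wn := rW.summ
  have sh : SN h := rh.summ
  have hbW := hP.b1 N hN
  set WW := ∑' k, ‖Wn k‖
  have hWW0 : 0 ≤ WW := tsum_nonneg fun _ => norm_nonneg _
  -- sizes of the exponentials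
  have x1 : XN (Ex L Wn) ≤ ENNReal.ofReal (C1 / Real.sqrt (2 * c) + C2 / Real.sqrt (2 * c) / N) := by
    refine (XN_Ex hL sW).trans (ENNReal.ofReal_le_ofReal ?_)
    rw [hLdef, ← mul_assoc, sqrt_inv_sq (by positivity) hN]
    calc WW * (1 / (Real.sqrt (2 * c) * N)) ≤ (C1 * N + C2) * (1 / (Real.sqrt (2 * c) * N)) := by gcongr
      _ = _ := by field_simp
  have x2 : XN (Ex (2 * L) h) ≤ ENNReal.ofReal (H / Real.sqrt (4 * c) / N) := by
    refine (XN_Ex (by positivity) sh).trans (ENNReal.ofReal_le_ofReal ?_)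
    rw [hLdef, ← mul_assoc, ← mul_assoc, show (2 : ℝ) * 2 * c = 4 * c by ring, sqrt_inv_sq (by positivity) hN]
    apply le_of_eq
    rw [div_div, mul_one_div]
  have cE1 := Ex_cf L Wn
  have cE2 := Ex_cf (2 * L) h
  have cE : CF (Ex L Wn + Ex (2 * L) h) := fun k => (cE1 k).add (cE2 k)
  have xU : XN (UU w L Wn h) ≤ XN w + ENNReal.ofReal (C1 / Real.sqrt (2 * c) + B1 / N) := by
    unfold UU
    refine (XN_add hw.cf cE).trans (add_le_add le_rfl ((XN_add cE1 cE2).trans ((add_le_add x1 x2).trans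
      (le_of_eq ?_))))
    rw [← ENNReal.ofReal_add (by positivity) (by positivity)]
    congr 1
    simp only [B1]
    rw [add_div]; ring
  have xU' : XN (UU w L Wn h) ≤ ENNReal.ofReal (2 * D + 1) := by
    refine xU.trans ((add_le_add hwX le_rfl).trans ?_)
    rw [← ENNReal.ofReal_add hD.le (by positivity)]
    apply ENNReal.ofReal_le_ofReal
    linarith
  have l1 : LNd dl (Ex L Wn) + LNd dl (Ex (2 * L) h) ≤ ENNReal.ofReal (B3 / N) := by
    have g1 : Real.exp (-(L / 2 * dl)) ≤ 2 / (c * dl) / N := by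
      rw [Real.exp_neg]
      have h1 : c * dl * N / 2 ≤ L / 2 * dl := by
        rw [hLdef]
        have : (N : ℝ) ≤ (N : ℝ) ^ 2 := by nlinarith
        have h2 : c * dl * N ≤ c * dl * (N : ℝ) ^ 2 := by gcongr
        linarith
      have h2 : c * dl * N / 2 ≤ Real.exp (L / 2 * dl) := by
        have := Real.add_one_le_exp (L / 2 * dl)
        linarith
      calc (Real.exp (L / 2 * dl))⁻¹ ≤ (c * dl * N / 2)⁻¹ := by
            apply inv_anti₀ (by positivity) h2
        _ = _ := by field_simp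
    have g2 : Real.exp (-(2 * L / 2 * dl)) ≤ 2 / (c * dl) / N := by
      refine le_trans (Real.exp_le_exp.2 ?_) g1
      have : 0 ≤ L * dl := by positivity
      linarith
    have g3 : WW * Real.sqrt (1 / (2 * (L / 2))) ≤ (C1 + C2) / Real.sqrt c := by
      have e : 2 * (L / 2) = c * (N : ℝ) ^ 2 := by rw [hLdef]; ring
      rw [e, sqrt_inv_sq hc hN]
      calc WW * (1 / (Real.sqrt c * N)) ≤ (C1 * N + C2 * N) * (1 / (Real.sqrt c * N)) := by
            gcongr
            refine hbW.trans (add_le_add le_rfl ?_)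
            nlinarith
        _ = _ := by field_simp
    have g4 : H * Real.sqrt (1 / (2 * (2 * L / 2))) ≤ H / Real.sqrt c := by
      rw [div_eq_mul_inv H]
      apply mul_le_mul_of_nonneg_left _ hH0
      rw [← Real.sqrt_inv, ← one_div]
      apply Real.sqrt_le_sqrt
      apply one_div_le_one_div_of_le hc
      rw [hLdef]
      have : (1 : ℝ) ≤ (N : ℝ) ^ 2 := one_le_pow₀ hN1
      nlinarith
    refine (add_le_add (LNd_Ex hL hdl sW) (LNd_Ex (by positivity) hdl sh)).trans ?_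
    rw [← ENNReal.ofReal_add (by positivity) (by positivity)]
    apply ENNReal.ofReal_le_ofReal
    have p1 : 0 ≤ 2 / (c * dl) / N := by positivity
    calc _ ≤ 2 / (c * dl) / N * ((C1 + C2) / Real.sqrt c) + 2 / (c * dl) / N * (H / Real.sqrt c) := by
          gcongr
      _ = _ := by simp only [B3]; ring
  -- the approximate solution
  set b : K → ℝ := fun k => bw k + (1 + Real.sqrt (1 / (2 * L))) * (‖Wn k‖ + ‖h k‖)
  have hsq0 : 0 ≤ Real.sqrt (1 / (2 * L)) := Real.sqrt_nonneg _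
  have hb0 : ∀ k, 0 ≤ b k := fun k => by have := bw0 k; positivity
  have hbr : RR b := bwr.add ((rW.add rh).mul _)
  have hUb : ∀ k t, ‖UU w L Wn h k t‖ ≤ b k := fun k t => (UU_norm hL.le bwb k t).trans (by
    simp only [b]
    have : 0 ≤ ‖Wn k‖ + ‖h k‖ := by positivity
    nlinarith)
  have hUL : ∀ k, LN (fun t => ‖UU w L Wn h k t‖ₑ) ≤ ENNReal.ofReal (b k) := by
    intro k
    have m0 : Measurable fun t => ‖w k t‖ₑ := (hw.cf k).enorm.measurable
    have m1 : Measurable fun t => ‖Ex L Wn k t‖ₑ := (cE1 k).enorm.measurable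
    have m2 : Measurable fun t => ‖Ex (2 * L) h k t‖ₑ := (cE2 k).enorm.measurable
    have m12 : Measurable fun t => ‖Ex L Wn k t‖ₑ + ‖Ex (2 * L) h k t‖ₑ := m1.add m2
    calc LN (fun t => ‖UU w L Wn h k t‖ₑ)
        ≤ LN (fun t => ‖w k t‖ₑ + (‖Ex L Wn k t‖ₑ + ‖Ex (2 * L) h k t‖ₑ)) :=
          LN_mono fun t _ => (enorm_add_le _ _).trans (add_le_add le_rfl (enorm_add_le _ _))
      _ ≤ LN (fun t => ‖w k t‖ₑ) + (LN (fun t => ‖Ex L Wn k t‖ₑ) + LN (fun t => ‖Ex (2 * L) h k t‖ₑ)) :=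
          (LN_add_le m0 m12).trans (add_le_add le_rfl (LN_add_le m1 m2))
      _ ≤ ENNReal.ofReal (bw k) + (ENNReal.ofReal (‖Wn k‖ * Real.sqrt (1 / (2 * L))) +
          ENNReal.ofReal (‖h k‖ * Real.sqrt (1 / (2 * L)))) := by
          refine add_le_add (bwL k) (add_le_add (LN_Ex hL _ _).le ((LN_Ex (by positivity) _ _).le.trans ?_))
          apply ENNReal.ofReal_le_ofReal
          apply mul_le_mul_of_nonneg_left _ (norm_nonneg _)
          apply Real.sqrt_le_sqrt
          apply one_div_le_one_div_of_le (by positivity)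
          linarith
      _ ≤ _ := by
          rw [← ENNReal.ofReal_add (by positivity) (by positivity), ← ENNReal.ofReal_add (bw0 k) (by positivity)]
          apply ENNReal.ofReal_le_ofReal
          simp only [b]
          have : 0 ≤ ‖Wn k‖ + ‖h k‖ := by positivity
          nlinarith
  obtain ⟨er, er0⟩ := eB_rr hc hL bw0 bwr rW rh
  have hes : ∑' k, eB c bw L Wn h k / nk k ≤ η := by
    refine (eB_sum_le hc hL bw0 bwr rW rh).trans ?_
    have g1 : ∑' k, |c * sq k - L| * ‖Wn k‖ / nk k ≤ c * (C2 * N) := by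
      have e : ∀ k, |c * sq k - L| * ‖Wn k‖ / nk k = c * (|sq k - (N : ℝ) ^ 2| * ‖Wn k‖ / nk k) := by
        intro k
        rw [hLdef, ← mul_sub, abs_mul, abs_of_pos hc]; ring
      simp_rw [e]
      rw [tsum_mul_left]
      exact mul_le_mul_of_nonneg_left (hP.b2 N hN) hc.le
    have g2 := hP.b3 N hN
    have hWW : WW ≤ (C1 + C2) * N := by nlinarith
    have s1 : 2 * C0 * B * WW + ∑' k, |c * sq k - L| * ‖Wn k‖ / nk k ≤
        (2 * C0 * B * (C1 + C2) + c * C2) * N := by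
      calc _ ≤ 2 * C0 * B * ((C1 + C2) * N) + c * (C2 * N) := by gcongr
        _ = _ := by ring
    have s2 : ∑' k, ‖Bf Wn Wn k + (2 * L) • h k‖ / nk k + c * H1 + 2 * C0 * B * H + 2 * C0 * WW * H
        + C0 * H * H ≤ δ * N ^ 2 +
        (C2 + c * H1 + 2 * C0 * B * H + 2 * C0 * (C1 + C2) * H + C0 * H * H) * N := by
      have q1 : c * H1 ≤ c * H1 * N := le_mul_of_one_le_right (by positivity) hN1
      have q2 : 2 * C0 * B * H ≤ 2 * C0 * B * H * N := le_mul_of_one_le_right (by positivity) hN1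
      have q3 : C0 * H * H ≤ C0 * H * H * N := le_mul_of_one_le_right (by positivity) hN1
      have q4 : 2 * C0 * WW * H ≤ 2 * C0 * ((C1 + C2) * N) * H := by gcongr
      calc _ ≤ (δ * N ^ 2 + C2 * N) + c * H1 * N + 2 * C0 * B * H * N + 2 * C0 * ((C1 + C2) * N) * H
            + C0 * H * H * N := by gcongr
        _ = _ := by ring
    have hδ2 : δ / (2 * c) ≤ η / 2 := by
      rw [div_le_iff₀ (by positivity)]
      calc δ ≤ c * η := hδ
        _ = _ := by ring
    calc _ ≤ (1 / L) * ((2 * C0 * B * (C1 + C2) + c * C2) * N) + (1 / (2 * L)) * (δ * N ^ 2 +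
        (C2 + c * H1 + 2 * C0 * B * H + 2 * C0 * (C1 + C2) * H + C0 * H * H) * N) := by gcongr
      _ = δ / (2 * c) + B2 / N := by
          rw [hLdef]
          simp only [B2]
          field_simp
          ring
      _ ≤ _ := by linarith
  have hwc := hw.cf
  have hUc : CF (UU w L Wn h) := UU_cf hwc
  have hUd : Dom (UU w L Wn h) := ⟨b, hbr.summ, hUb⟩
  have hBc : CF (Bt (UU w L Wn h)) := Bt_cont hUc hUd
  have hLc : CF (LL c w L Wn h) := LL_cf hwc hwd
  have hUs : SymF (UU w L Wn h) := UU_sym hw.sym (hP.Ws N) hP.hs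
  obtain ⟨a', ha', u, hu, huX, huY⟩ := happ (V + h + Wn) (UU w L Wn h) (Bt (UU w L Wn h) - LL c w L Wn h) b
    (eB c bw L Wn h) hUc hUs (UU_zero hw.z (hP.W0 N) hP.h0) hb0 hbr hUb hUL xU'
    (fun k => (hBc k).sub (hLc k)) (fun t => (Bt_sym hUs t).sub (LL_sym hw.sym (hP.Ws N) hP.hs t))
    (fun t => by
      show Bt (UU w L Wn h) 0 t - LL c w L Wn h 0 t = 0
      rw [LL_zero (hP.W0 N) hP.h0]
      simp [Bt, Bf_zero])
    er0 er (lint_FE_le hc hL bwr.summ bw0 bwb sW sh) hes (fun k t => by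
      rw [sub_sub_cancel]
      exact UU_eq hwc hwd hw.eq k t)
  have hdc : CF (u - UU w L Wn h) := fun k => (hu.cf k).sub (hUc k)
  have eu : u = UU w L Wn h + (u - UU w L Wn h) := by abel
  refine ⟨a', ha', u, hu, ?_, ?_, huX.trans (ENNReal.ofReal_le_ofReal (by linarith)),
    fun t => (huY t).trans (ENNReal.ofReal_le_ofReal (by linarith))⟩
  · rw [eu]
    refine (XN_add hUc hdc).trans ((add_le_add xU huX).trans ?_)
    rw [add_assoc, ← ENNReal.ofReal_add (by positivity) (by positivity)]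
    apply add_le_add le_rfl
    apply ENNReal.ofReal_le_ofReal
    linarith
  · have eu' : u - w = (Ex L Wn + Ex (2 * L) h) + (u - UU w L Wn h) := by
      unfold UU; abel
    rw [eu']
    refine (LNd_add dl cE hdc).trans ?_
    refine (add_le_add ((LNd_add dl cE1 cE2).trans l1) ((LNd_le_XN _ _).trans huX)).trans ?_
    have hB3 : 0 ≤ B3 / N := by positivity
    rw [← ENNReal.ofReal_add hB3 (by positivity)]
    apply ENNReal.ofReal_le_ofReal
    linarith

end Pool.Agent.K1H11.NS
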